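import Mathlib

namespace Pool.Agent.W318

open Polynomial Finset

section act

variable {k : Type*} [Field k]

/-- The substitution `x ↦ (a x + b) / (c x + d)` on polynomials viewed as binary forms of
degree `n`: it sends `F` to `(c x + d)^n F((a x + b) / (c x + d))`. -/
noncomputable def act (n : ℕ) (a b c d : k) (F : k[X]) : k[X] :=
  ∑ i ∈ range (n + 1), C (F.coeff i) * (C a * X + C b) ^ i * (C c * X + C d) ^ (n - i)

theorem natDegree_lin_le (a b : k) : (C a * X + C b : k[X]).natDegree ≤ 1 := by
  compute_degree

theorem natDegree_act_le (n : ℕ) (a b c d : k) (F : k[X]) : (act n a b c d F).natDegree ≤ n := by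
  unfold act
  refine natDegree_sum_le_of_forall_le _ _ fun i hi => ?_
  rw [mem_range] at hi
  refine (natDegree_mul_le).trans ?_
  have h1 : (C (F.coeff i) * (C a * X + C b) ^ i : k[X]).natDegree ≤ i := by
    refine natDegree_mul_le.trans ?_
    rw [natDegree_C, zero_add]
    refine natDegree_pow_le.trans ?_
    have := natDegree_lin_le a b
    calc i * _ ≤ i * 1 := Nat.mul_le_mul_left _ this
      _ = i := mul_one _
  have h2 : ((C c * X + C d) ^ (n - i) : k[X]).natDegree ≤ n - i := by
    refine natDegree_pow_le.trans ?_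
    have := natDegree_lin_le c d
    calc (n - i) * _ ≤ (n - i) * 1 := Nat.mul_le_mul_left _ this
      _ = n - i := mul_one _
  omega

theorem eval_act {n : ℕ} {a b c d : k} {F : k[X]} (hF : F.natDegree ≤ n) {x : k}
    (hx : c * x + d ≠ 0) :
    (act n a b c d F).eval x = (c * x + d) ^ n * F.eval ((a * x + b) / (c * x + d)) := by
  have hF' : F.eval ((a * x + b) / (c * x + d)) =
      ∑ i ∈ range (n + 1), F.coeff i * ((a * x + b) / (c * x + d)) ^ i :=
    eval_eq_sum_range' (by omega) _
  rw [hF', act, eval_finsetSum, Finset.mul_sum]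
  refine Finset.sum_congr rfl fun i hi => ?_
  rw [mem_range] at hi
  simp only [eval_mul, eval_C, eval_pow, eval_add, eval_X]
  have : (c * x + d) ^ n = (c * x + d) ^ i * (c * x + d) ^ (n - i) := by
    rw [← pow_add]; congr 1; omega
  rw [this, div_pow]
  generalize c * x + d = D at hx
  have hD := pow_ne_zero i hx
  field_simp

theorem act_map {k' : Type*} [Field k'] (f : k →+* k') (n : ℕ) (a b c d : k) (F : k[X]) :
    (act n a b c d F).map f = act n (f a) (f b) (f c) (f d) (F.map f) := by
  simp [act, Polynomial.map_sum, Polynomial.map_mul, Polynomial.map_pow]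

theorem act_C_mul (n : ℕ) (a b c d u : k) (F : k[X]) :
    act n a b c d (C u * F) = C u * act n a b c d F := by
  simp only [act, Finset.mul_sum, coeff_C_mul, C_mul, mul_assoc]

theorem infinite_ne [Infinite k] {c d : k} (h : c ≠ 0 ∨ d ≠ 0) :
    {x : k | c * x + d ≠ 0}.Infinite := by
  have hfin : {x : k | c * x + d = 0}.Finite := by
    have hp : (C c * X + C d : k[X]) ≠ 0 := by
      intro h0
      have h1 := congrArg (fun p => p.coeff 1) h0
      have h2 := congrArg (fun p => p.coeff 0) h0
      simp at h1 h2
      rcases h with h | h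
      · exact h h1
      · exact h h2
    refine (finite_setOfPred_isRoot hp).subset fun x hx => ?_
    simpa [IsRoot] using hx
  have := hfin.infinite_compl
  refine this.mono fun x hx => hx

theorem poly_eq_of_eval [Infinite k] {c d : k} (h : c ≠ 0 ∨ d ≠ 0) {P Q : k[X]}
    (hPQ : ∀ x, c * x + d ≠ 0 → P.eval x = Q.eval x) : P = Q :=
  eq_of_infinite_eval_eq _ _ ((infinite_ne h).mono fun x hx => hPQ x hx)

theorem natDegree_prod_lin_le {ι : Type*} (s : Finset ι) (u : k) (α β : ι → k) :
    (C u * ∏ i ∈ s, (C (α i) * X + C (β i))).natDegree ≤ s.card := by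
  refine natDegree_mul_le.trans ?_
  rw [natDegree_C, zero_add]
  refine (natDegree_prod_le _ _).trans ?_
  calc _ ≤ ∑ i ∈ s, 1 := Finset.sum_le_sum fun i _ => natDegree_lin_le _ _
    _ = s.card := by simp

theorem act_prod [Infinite k] (n : ℕ) {a b c d : k} (h : c ≠ 0 ∨ d ≠ 0) (u : k)
    (α β : Fin n → k) :
    act n a b c d (C u * ∏ i, (C (α i) * X + C (β i))) =
      C u * ∏ i, (C (α i * a + β i * c) * X + C (α i * b + β i * d)) := by
  refine poly_eq_of_eval h fun x hx => ?_
  rw [eval_act (by simpa using natDegree_prod_lin_le Finset.univ u α β) hx]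
  simp only [eval_mul, eval_C, eval_prod, eval_add, eval_X]
  have : (c * x + d) ^ n = ∏ i : Fin n, (c * x + d) := by simp
  rw [this, mul_left_comm, ← Finset.prod_mul_distrib]
  congr 1
  refine Finset.prod_congr rfl fun i _ => ?_
  field_simp
  ring

theorem act_act [Infinite k] {n : ℕ} {a b c d a' b' c' d' : k} {F : k[X]}
    (hF : F.natDegree ≤ n) (h : a * d - b * c ≠ 0) (h' : a' * d' - b' * c' ≠ 0) :
    act n a' b' c' d' (act n a b c d F) =
      act n (a * a' + b * c') (a * b' + b * d') (c * a' + d * c') (c * b' + d * d') F := by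
  have hdet : (a * a' + b * c') * (c * b' + d * d') - (a * b' + b * d') * (c * a' + d * c') =
      (a * d - b * c) * (a' * d' - b' * c') := by ring
  have hcd : c * a' + d * c' ≠ 0 ∨ c * b' + d * d' ≠ 0 := by
    by_contra hcon
    push Not at hcon
    rw [hcon.1, hcon.2] at hdet
    exact mul_ne_zero h h' (by rw [← hdet]; ring)
  have hcd' : c' ≠ 0 ∨ d' ≠ 0 := by
    by_contra hcon
    push Not at hcon
    exact h' (by rw [hcon.1, hcon.2]; ring)
  -- polynomial vanishing set
  have hinf : {x : k | ((C (c * a' + d * c') * X + C (c * b' + d * d')) *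
      (C c' * X + C d') : k[X]).eval x ≠ 0}.Infinite := by
    have hp : ((C (c * a' + d * c') * X + C (c * b' + d * d')) *
      (C c' * X + C d') : k[X]) ≠ 0 := by
      refine mul_ne_zero ?_ ?_
      · intro h0
        have h1 := congrArg (fun p => p.coeff 1) h0
        have h2 := congrArg (fun p => p.coeff 0) h0
        simp at h1 h2
        rcases hcd with h | h
        · exact h h1
        · exact h h2
      · intro h0
        have h1 := congrArg (fun p => p.coeff 1) h0
        have h2 := congrArg (fun p => p.coeff 0) h0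
        simp at h1 h2
        rcases hcd' with h | h
        · exact h h1
        · exact h h2
    have := (finite_setOfPred_isRoot hp).infinite_compl
    refine this.mono fun x hx => ?_
    simpa [IsRoot] using hx
  refine eq_of_infinite_eval_eq _ _ (hinf.mono fun x hx => ?_)
  simp only [Set.mem_ofPred_eq, eval_mul, eval_add, eval_C, eval_X, mul_ne_zero_iff] at hx
  obtain ⟨hx1, hx2⟩ := hx
  have hx3 : c * ((a' * x + b') / (c' * x + d')) + d ≠ 0 := by
    rw [mul_div_assoc', div_add' _ _ _ hx2]
    refine div_ne_zero ?_ hx2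
    intro h0
    apply hx1
    rw [← h0]; ring
  simp only [Set.mem_ofPred_eq]
  rw [eval_act (natDegree_act_le _ _ _ _ _ _) hx2, eval_act hF hx3, eval_act hF hx1, ← mul_assoc,
    ← mul_pow]
  have e1 : (c' * x + d') * (c * ((a' * x + b') / (c' * x + d')) + d) =
      (c * a' + d * c') * x + (c * b' + d * d') := by
    field_simp
    ring
  have e2 : (a * ((a' * x + b') / (c' * x + d')) + b) /
      (c * ((a' * x + b') / (c' * x + d')) + d) =
      ((a * a' + b * c') * x + (a * b' + b * d')) / ((c * a' + d * c') * x + (c * b' + d * d')) := by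
    rw [div_eq_div_iff hx3 hx1]
    have hy : ((a' * x + b') / (c' * x + d')) * (c' * x + d') = a' * x + b' :=
      div_mul_cancel₀ _ hx2
    generalize (a' * x + b') / (c' * x + d') = y at hy
    linear_combination (a * d - b * c) * hy
  rw [e1, e2]

theorem act_one (n : ℕ) (F : k[X]) (hF : F.natDegree ≤ n) : act n 1 0 0 1 F = F := by
  have : F = ∑ i ∈ range (n + 1), C (F.coeff i) * X ^ i := by
    conv_lhs => rw [F.as_sum_range_C_mul_X_pow' (by omega : F.natDegree < n + 1)]
  conv_rhs => rw [this]
  simp [act]

end act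

end Pool.Agent.W318
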