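import Mathlib

namespace Pool.Agent.W318

open NumberField IsDedekindDomain WithZero WithZeroMulInt

section absW

variable {M : Type*} [Field M] [NumberField M] (W : HeightOneSpectrum (𝓞 M))

/-- The `W`-adic absolute value with base 2. -/
noncomputable def absW : AbsoluteValue M ℝ := W.adicAbv (b := 2) one_lt_two

theorem absW_na : IsNonarchimedean (absW W) := W.isNonarchimedean_adicAbv _

theorem absW_def (x : M) : absW W x = (toNNReal (e := 2) two_ne_zero (W.valuation M x) : ℝ) := rfl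

theorem toNNReal_exp' (k : ℤ) : toNNReal (e := 2) two_ne_zero (exp k) = 2 ^ k := by
  rw [toNNReal_neg_apply two_ne_zero (exp_ne_zero)]
  rfl

theorem absW_exp {x : M} {k : ℤ} (h : W.valuation M x = exp k) : absW W x = 2 ^ k := by
  rw [absW_def, h, toNNReal_exp']
  push_cast
  rfl

theorem absW_le_iff (x : M) (k : ℤ) : absW W x ≤ 2 ^ k ↔ W.valuation M x ≤ exp k := by
  rw [← (toNNReal_strictMono (e := 2) one_lt_two).le_iff_le, toNNReal_exp', absW_def,
    ← NNReal.coe_le_coe]
  push_cast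
  rfl

theorem absW_le_one_iff (x : M) : absW W x ≤ 1 ↔ W.valuation M x ≤ 1 := by
  have := absW_le_iff W x 0
  simpa using this

theorem exists_exp {x : M} (hx : x ≠ 0) : ∃ k : ℤ, W.valuation M x = exp k := by
  have h : W.valuation M x ≠ 0 := (Valuation.ne_zero_iff _).mpr hx
  exact ⟨log (W.valuation M x), (exp_log h).symm⟩

theorem absW_congr {x y : M} (h : W.valuation M x = W.valuation M y) : absW W x = absW W y := by
  rw [absW_def, absW_def, h]

theorem val_le_iff_mem (x : 𝓞 M) (n : ℕ) :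
    W.valuation M (x : M) ≤ exp (-(n : ℤ)) ↔ x ∈ W.asIdeal ^ n := by
  rw [← W.intValuation_le_pow_iff_mem, ← W.valuation_of_algebraMap (K := M)]

theorem eq_of_le_iff {a b : ℤᵐ⁰} (ha : a ≤ 1) (hb : b ≤ 1)
    (h : ∀ n : ℕ, a ≤ exp (-(n : ℤ)) ↔ b ≤ exp (-(n : ℤ))) : a = b := by
  have key : ∀ {a b : ℤᵐ⁰}, a ≤ 1 → b ≤ 1 →
      (∀ n : ℕ, a ≤ exp (-(n : ℤ)) → b ≤ exp (-(n : ℤ))) → b ≤ a := by
    intro a b ha hb h
    rcases eq_or_ne a 0 with rfl | ha0
    · rcases eq_or_ne b 0 with rfl | hb0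
      · exact le_rfl
      · exfalso
        have h1 := h (log b).natAbs.succ (zero_le)
        have h2 : log b ≤ -(((log b).natAbs.succ : ℕ) : ℤ) := by
          rw [← exp_le_exp, exp_log hb0]; exact h1
        push_cast at h2
        have := neg_abs_le (log b)
        omega
    · have h0 : log a ≤ 0 := by
        rw [← exp_le_exp, exp_log ha0]; simpa using ha
      have h2 := h (log a).natAbs (by
        rw [Int.natCast_natAbs, abs_of_nonpos h0, neg_neg, exp_log ha0])
      rwa [Int.natCast_natAbs, abs_of_nonpos h0, neg_neg, exp_log ha0] at h2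
  exact le_antisymm (key hb ha fun n => (h n).mpr) (key ha hb fun n => (h n).mp)

end absW

section dense

variable (K : Type*) {M : Type*} [Field K] [NumberField K] [Field M] [NumberField M] [Algebra K M]

/-- The decomposition group. -/
def decG (W : HeightOneSpectrum (𝓞 M)) : Subgroup (M ≃ₐ[K] M) where
  carrier := {σ | ∀ x, W.valuation M (σ x) = W.valuation M x}
  mul_mem' {σ τ} hσ hτ x := by
    rw [AlgEquiv.mul_apply, hσ, hτ]
  one_mem' x := rfl
  inv_mem' {σ} hσ x := by
    have := hσ (σ⁻¹ x)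
    rw [← this]
    congr 1
    exact AlgEquiv.apply_symm_apply σ x

variable {K}

/-- The prime `τ⁻¹ W`. -/
noncomputable def primeComap (W : HeightOneSpectrum (𝓞 M)) (τ : M ≃ₐ[K] M) : Ideal (𝓞 M) :=
  W.asIdeal.comap (RingOfIntegers.mapRingEquiv (τ : M ≃+* M))

omit [NumberField K] [NumberField M] in
theorem coe_mapRingEquiv (τ : M ≃ₐ[K] M) (x : 𝓞 M) :
    ((RingOfIntegers.mapRingEquiv (τ : M ≃+* M) x : 𝓞 M) : M) = τ (x : M) := rfl

omit [NumberField K] in
theorem val_of_mem_primeComap_pow (W : HeightOneSpectrum (𝓞 M)) (τ : M ≃ₐ[K] M) {x : 𝓞 M}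
    {n : ℕ} (hx : x ∈ primeComap W τ ^ n) : W.valuation M (τ (x : M)) ≤ exp (-(n : ℤ)) := by
  rw [← coe_mapRingEquiv, val_le_iff_mem]
  have h1 : (primeComap W τ ^ n).map (RingOfIntegers.mapRingEquiv (τ : M ≃+* M)) ≤
      W.asIdeal ^ n := by
    rw [Ideal.map_pow]
    exact Ideal.pow_right_mono Ideal.map_comap_le n
  exact h1 (Ideal.mem_map_of_mem _ hx)

omit [NumberField K] in
theorem mem_decG_of_primeComap_eq (W : HeightOneSpectrum (𝓞 M)) (τ : M ≃ₐ[K] M)
    (h : primeComap W τ = W.asIdeal) : τ ∈ decG K W := by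
  have h' : primeComap W τ⁻¹ = W.asIdeal := by
    ext x
    have h1 : RingOfIntegers.mapRingEquiv (τ⁻¹ : M ≃ₐ[K] M).toRingEquiv x ∈ primeComap W τ ↔
        RingOfIntegers.mapRingEquiv (τ⁻¹ : M ≃ₐ[K] M).toRingEquiv x ∈ W.asIdeal := by rw [h]
    have h2 : RingOfIntegers.mapRingEquiv (τ : M ≃+* M)
        (RingOfIntegers.mapRingEquiv (τ⁻¹ : M ≃ₐ[K] M).toRingEquiv x) = x := by
      apply RingOfIntegers.ext
      exact AlgEquiv.apply_symm_apply τ (x : M)
    rw [primeComap, Ideal.mem_comap, h2] at h1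
    exact h1.symm
  have hint : ∀ x : 𝓞 M, W.valuation M (τ (x : M)) = W.valuation M (x : M) := by
    intro x
    apply eq_of_le_iff
    · rw [← coe_mapRingEquiv]; exact W.valuation_le_one _
    · exact W.valuation_le_one _
    · intro n
      constructor
      · intro hx
        have h3 : W.valuation M (τ⁻¹ (τ (x : M))) ≤ exp (-(n : ℤ)) := by
          rw [← coe_mapRingEquiv τ x] at hx ⊢
          rw [val_le_iff_mem, ← h'] at hx
          exact val_of_mem_primeComap_pow W τ⁻¹ hx
        have h4 : τ⁻¹ (τ (x : M)) = x := AlgEquiv.symm_apply_apply τ (x : M)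
        rwa [h4] at h3
      · intro hx
        rw [val_le_iff_mem, ← h] at hx
        exact val_of_mem_primeComap_pow W τ hx
  intro x
  obtain ⟨a, b, hb, rfl⟩ := IsFractionRing.div_surjective (A := 𝓞 M) x
  rw [map_div₀, map_div₀, map_div₀]
  have ha := hint a
  have hb' := hint b
  rw [← ha, ← hb']

omit [NumberField K] [NumberField M] in
theorem primeComap_isPrime (W : HeightOneSpectrum (𝓞 M)) (τ : M ≃ₐ[K] M) :
    (primeComap W τ).IsPrime := by
  have := W.isPrime
  exact Ideal.comap_isPrime _ _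

omit [NumberField K] [NumberField M] in
theorem primeComap_ne_bot (W : HeightOneSpectrum (𝓞 M)) (τ : M ≃ₐ[K] M) :
    primeComap W τ ≠ ⊥ := by
  intro h
  apply W.ne_bot
  rw [eq_bot_iff]
  intro x hx
  have h1 : (RingOfIntegers.mapRingEquiv (τ : M ≃+* M)).symm x ∈ primeComap W τ := by
    rw [primeComap, Ideal.mem_comap, RingEquiv.apply_symm_apply]
    exact hx
  rw [h, Ideal.mem_bot] at h1
  rw [Ideal.mem_bot]
  simpa using h1

/-- An integer congruent to one at `W` and divisible by all other conjugate primes. -/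
theorem exists_sep (W : HeightOneSpectrum (𝓞 M)) (N : ℕ) :
    ∃ y : 𝓞 M, W.valuation M ((y : M) - 1) ≤ exp (-(N : ℤ)) ∧
      ∀ τ : M ≃ₐ[K] M, τ ∉ decG K W → W.valuation M (τ (y : M)) ≤ exp (-(N : ℤ)) := by
  classical
  set T : Finset (M ≃ₐ[K] M) := Finset.univ.filter (fun τ => τ ∉ decG K W) with hT
  have hcop : IsCoprime (W.asIdeal ^ N) (∏ τ ∈ T, primeComap W τ ^ N) := by
    apply IsCoprime.prod_right
    intro τ hτ
    apply IsCoprime.pow
    rw [Ideal.isCoprime_iff_sup_eq]
    have hW : W.asIdeal.IsMaximal := W.isMaximal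
    have hP : (primeComap W τ).IsMaximal :=
      (primeComap_isPrime W τ).isMaximal (primeComap_ne_bot W τ)
    apply Ideal.IsMaximal.coprime_of_ne hW hP
    intro heq
    rw [hT, Finset.mem_filter] at hτ
    exact hτ.2 (mem_decG_of_primeComap_eq W τ heq.symm)
  rw [Ideal.isCoprime_iff_exists] at hcop
  obtain ⟨x, hx, y, hy, hxy⟩ := hcop
  refine ⟨y, ?_, fun τ hτ => ?_⟩
  · have h1 : ((y : M) - 1) = -(x : M) := by
      have := congrArg (fun z : 𝓞 M => (z : M)) hxy
      simp only [map_add, map_one] at this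
      linear_combination this
    rw [h1, Valuation.map_neg, val_le_iff_mem]
    exact hx
  · apply val_of_mem_primeComap_pow
    have hle : ∏ τ ∈ T, primeComap W τ ^ N ≤ primeComap W τ ^ N := by
      apply Ideal.le_of_dvd
      exact Finset.dvd_prod_of_mem _ (by rw [hT, Finset.mem_filter]; exact ⟨Finset.mem_univ _, hτ⟩)
    exact hle hy

theorem dense_decG [IsGalois K M] (W : HeightOneSpectrum (𝓞 M)) (x : M)
    (hx : ∀ σ ∈ decG K W, σ x = x) (ε : ℝ) (hε : 0 < ε) :
    ∃ a : K, absW W (x - algebraMap K M a) < ε := by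
  classical
  have hna := absW_na W
  -- first for integers
  have main : ∀ (z : 𝓞 M), (∀ σ ∈ decG K W, σ (z : M) = z) → ∀ δ : ℝ, 0 < δ →
      ∃ a : K, absW W ((z : M) - algebraMap K M a) < δ := by
    intro z hz δ hδ
    set g : ℕ := (Finset.univ.filter (fun τ : M ≃ₐ[K] M => τ ∈ decG K W)).card with hg
    have hg0 : g ≠ 0 := by
      rw [hg]
      apply Finset.card_ne_zero_of_mem (a := 1)
      simp [(decG K W).one_mem]
    have hgM : (g : M) ≠ 0 := Nat.cast_ne_zero.mpr hg0
    have hAg : 0 < absW W (g : M) := (absW W).pos hgM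
    obtain ⟨N, hN⟩ : ∃ N : ℕ, (1 / 2 : ℝ) ^ N < δ * absW W (g : M) :=
      exists_pow_lt_of_lt_one (mul_pos hδ hAg) (by norm_num)
    obtain ⟨y, hy1, hy2⟩ := exists_sep (K := K) W N
    set S : M := ∑ τ : M ≃ₐ[K] M, τ ((z : M) * y) with hS
    have hSfix : ∀ ρ : M ≃ₐ[K] M, ρ S = S := by
      intro ρ
      rw [hS, map_sum]
      exact Fintype.sum_equiv (Equiv.mulLeft ρ) _ _ fun τ => rfl
    obtain ⟨a, ha⟩ := (IsGalois.mem_range_algebraMap_iff_fixed (F := K) (E := M)
      (S / g)).mpr (fun ρ => by rw [map_div₀, hSfix, map_natCast])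
    refine ⟨a, ?_⟩
    rw [ha]
    have hz1 : absW W (z : M) ≤ 1 := (absW_le_one_iff W _).mpr (W.valuation_le_one _)
    have hzint : ∀ τ : M ≃ₐ[K] M, absW W (τ (z : M)) ≤ 1 := by
      intro τ
      rw [← coe_mapRingEquiv]
      exact (absW_le_one_iff W _).mpr (W.valuation_le_one _)
    have hN0 : (0 : ℝ) ≤ (1 / 2) ^ N := by positivity
    have e2 : (2 : ℝ) ^ (-(N : ℤ)) = (1 / 2) ^ N := by
      rw [zpow_neg, zpow_natCast, one_div, inv_pow]
    have hdiff : absW W (g * (z : M) - S) ≤ (1 / 2) ^ N := by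
      have hsplit : g * (z : M) - S =
          ∑ τ : M ≃ₐ[K] M, (if τ ∈ decG K W then (z : M) * (1 - τ (y : M))
            else - (τ (z : M) * τ (y : M))) := by
        have h1 : (g : M) * z = ∑ τ : M ≃ₐ[K] M, (if τ ∈ decG K W then (z : M) else 0) := by
          rw [← Finset.sum_filter, Finset.sum_const, nsmul_eq_mul]
        rw [h1, hS, ← Finset.sum_sub_distrib]
        refine Finset.sum_congr rfl fun τ _ => ?_
        split_ifs with hτ
        · rw [map_mul, hz τ hτ]; ring
        · rw [map_mul]; ring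
      rw [hsplit]
      have hsum : ∀ (s : Finset (M ≃ₐ[K] M)) (f : (M ≃ₐ[K] M) → M),
          (∀ i ∈ s, absW W (f i) ≤ (1 / 2) ^ N) → absW W (∑ i ∈ s, f i) ≤ (1 / 2) ^ N := by
        intro s f
        induction s using Finset.induction_on with
        | empty => intro _; simp
        | insert i s hi ih =>
          intro h
          rw [Finset.sum_insert hi]
          exact (hna _ _).trans (max_le (h i (Finset.mem_insert_self _ _))
            (ih fun j hj => h j (Finset.mem_insert_of_mem hj)))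
      apply hsum
      intro τ _
      split_ifs with hτ
      · rw [map_mul]
        have h2 : absW W (1 - τ (y : M)) ≤ (1 / 2) ^ N := by
          have h3 : 1 - τ (y : M) = -(τ ((y : M) - 1)) := by rw [map_sub, map_one]; ring
          rw [h3, map_neg_eq_map, ← e2, absW_le_iff, hτ]
          exact hy1
        calc _ ≤ 1 * (1 / 2 : ℝ) ^ N := mul_le_mul hz1 h2 ((absW W).nonneg _) zero_le_one
          _ = _ := one_mul _
      · rw [map_neg_eq_map, map_mul]
        have h2 : absW W (τ (y : M)) ≤ (1 / 2) ^ N := by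
          rw [← e2, absW_le_iff]
          exact hy2 τ hτ
        calc _ ≤ 1 * (1 / 2 : ℝ) ^ N := mul_le_mul (hzint τ) h2 ((absW W).nonneg _) zero_le_one
          _ = _ := one_mul _
    have hfin : (z : M) - S / g = (g * (z : M) - S) / g := by
      field_simp
    rw [hfin, map_div₀, div_lt_iff₀ hAg]
    exact hdiff.trans_lt hN
  -- general case
  obtain ⟨d, hd⟩ := IsIntegral.exists_multiple_integral_of_isLocalization (nonZeroDivisors ℤ) x
    (show IsIntegral ℚ x from Algebra.IsIntegral.isIntegral x)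
  have hd0 : (((d : ℤ) : ℚ) : M) ≠ 0 := by
    simp
  have hdx : IsIntegral ℤ (((d : ℤ) : M) * x) := by
    have : ((d : ℤ) : M) * x = d • x := by
      rw [Submonoid.smul_def, zsmul_eq_mul]
    rw [this]; exact hd
  have hd0' : ((d : ℤ) : M) ≠ 0 := by
    have : (d : ℤ) ≠ 0 := nonZeroDivisors.ne_zero d.2
    exact_mod_cast this
  obtain ⟨a, ha⟩ := main ⟨((d : ℤ) : M) * x, hdx⟩ (by
    intro σ hσ
    change σ (((d : ℤ) : M) * x) = ((d : ℤ) : M) * x
    rw [map_mul, map_intCast, hx σ hσ]) (ε * absW W ((d : ℤ) : M))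
    (mul_pos hε ((absW W).pos hd0'))
  refine ⟨a / (d : ℤ), ?_⟩
  have h1 : x - algebraMap K M (a / (d : ℤ)) =
      (((d : ℤ) : M) * x - algebraMap K M a) / ((d : ℤ) : M) := by
    rw [map_div₀, map_intCast]
    field_simp
  rw [h1, map_div₀, div_lt_iff₀ ((absW W).pos hd0')]
  exact ha

end dense

end Pool.Agent.W318
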