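import Pool.Agent.W318.Compare
import Pool.Agent.W318.Dense

namespace Pool.Agent.W318

open Polynomial Finset NumberField IsDedekindDomain WithZero

section apply

variable {K : Type*} [Field K] [NumberField K]

/-- `F` is a `v`-integral form of degree `2 h` over `K` with nonzero discriminant which cannot be
made smaller by a `K`-rational substitution. -/
structure MinForm (v : HeightOneSpectrum (𝓞 K)) (h : ℕ) (F : K[X]) : Prop where
  deg : F.natDegree = h + h ∨ F.natDegree + 1 = h + h
  sqf : Squarefree F
  int : ∀ i, v.valuation K (F.coeff i) ≤ 1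
  min : ∀ a b c d l : K, a * d - b * c ≠ 0 → l ≠ 0 →
    (∀ i, v.valuation K ((C (l ^ 2) * act (h + h) a b c d F).coeff i) ≤ 1) →
    v.valuation K (discN (h + h) (C (l ^ 2) * act (h + h) a b c d F)) ≤
      v.valuation K (discN (h + h) F)

theorem exists_factor_form {M : Type*} [Field M] [Algebra K M]
    (A : AbsoluteValue M ℝ) {h : ℕ} (hh : 1 ≤ h) {F : K[X]}
    (hdeg : F.natDegree = h + h ∨ F.natDegree + 1 = h + h) (hsq : Squarefree F)
    (hs : (F.map (algebraMap K M)).Splits) :
    ∃ (u : M) (α β : Fin (h + h) → M), u ≠ 0 ∧ (∀ i, max (A (α i)) (A (β i)) = 1) ∧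
      (∀ i j, i ≠ j → α i * β j - α j * β i ≠ 0) ∧
      F.map (algebraMap K M) = C u * ∏ i, (C (α i) * X + C (β i)) := by
  classical
  have hF0 : F ≠ 0 := hsq.ne_zero
  have hFM0 : F.map (algebraMap K M) ≠ 0 := by
    rwa [Ne, Polynomial.map_eq_zero]
  have hd : (F.map (algebraMap K M)).natDegree = F.natDegree := natDegree_map _
  obtain ⟨u, α, β, hu, huni, hF⟩ := exists_factor A (h + h) _ hFM0 hs (by rw [hd]; omega)
  refine ⟨u, α, β, hu, huni, ?_, hF⟩
  have hsep : F.Separable := PerfectField.separable_iff_squarefree.mpr hsq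
  have hsqM : Squarefree (F.map (algebraMap K M)) := (hsep.map).squarefree
  have huni0 : ∀ i, ¬ (α i = 0 ∧ β i = 0) := by
    rintro i ⟨h1, h2⟩
    have := huni i
    rw [h1, h2, map_zero, max_self] at this
    exact zero_ne_one this
  intro i j hij h0
  by_cases hi : α i = 0
  · have hβi : β i ≠ 0 := fun h => huni0 i ⟨hi, h⟩
    have hj : α j = 0 := by
      rw [hi, zero_mul, zero_sub, neg_eq_zero, mul_eq_zero] at h0
      exact h0.resolve_right hβi
    have hdeg2 : (F.map (algebraMap K M)).natDegree ≤ ((univ.erase i).erase j).card := by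
      have : F.map (algebraMap K M) = C (u * β i * β j) *
          ∏ k ∈ (univ.erase i).erase j, (C (α k) * X + C (β k)) := by
        rw [hF, ← Finset.mul_prod_erase univ _ (mem_univ i),
          ← Finset.mul_prod_erase (univ.erase i) _ (mem_erase.mpr ⟨hij.symm, mem_univ j⟩), hi, hj]
        simp only [C_0, zero_mul, zero_add, C_mul]
        ring
      rw [this]
      exact natDegree_prod_lin_le _ _ _ _
    rw [card_erase_of_mem (mem_erase.mpr ⟨hij.symm, mem_univ j⟩), card_erase_of_mem (mem_univ i),
      card_univ, Fintype.card_fin, hd] at hdeg2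
    omega
  · have hprop : (C (α j) * X + C (β j) : M[X]) = C (α j / α i) * (C (α i) * X + C (β i)) := by
      rw [mul_add, ← mul_assoc, ← C_mul, ← C_mul, div_mul_cancel₀ _ hi]
      congr 2
      field_simp
      linear_combination h0
    have hdvd : (C (α i) * X + C (β i) : M[X]) * (C (α i) * X + C (β i)) ∣
        F.map (algebraMap K M) := by
      rw [hF, ← Finset.mul_prod_erase univ _ (mem_univ i),
          ← Finset.mul_prod_erase (univ.erase i) _ (mem_erase.mpr ⟨hij.symm, mem_univ j⟩), hprop]
      exact ⟨C u * (C (α j / α i) * ∏ x ∈ (univ.erase i).erase j, (C (α x) * X + C (β x))), by ring⟩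
    have hunit := hsqM _ hdvd
    have h1 : (C (α i) * X + C (β i) : M[X]).natDegree = 1 := natDegree_linear hi
    rw [natDegree_eq_zero_of_isUnit hunit] at h1
    omega

variable {M : Type*} [Field M] [NumberField M] [Algebra K M]

/-- compatibility of the valuations at `v` and `W` -/
def Compat (v : HeightOneSpectrum (𝓞 K)) (W : HeightOneSpectrum (𝓞 M)) (E : ℕ) : Prop :=
  1 ≤ E ∧ ∀ (x : K) (k : ℤ), v.valuation K x = exp k → absW W (algebraMap K M x) = 2 ^ (k * E)

variable {v : HeightOneSpectrum (𝓞 K)} {W : HeightOneSpectrum (𝓞 M)} {E : ℕ}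

theorem Compat.le_iff (hc : Compat v W E) (x y : K) :
    absW W (algebraMap K M x) ≤ absW W (algebraMap K M y) ↔
      v.valuation K x ≤ v.valuation K y := by
  obtain ⟨hE, hc⟩ := hc
  rcases eq_or_ne x 0 with rfl | hx
  · simp
  rcases eq_or_ne y 0 with rfl | hy
  · simp only [map_zero]
    constructor
    · intro h
      exfalso
      have := (absW W).pos (x := algebraMap K M x) (by simpa using hx)
      linarith
    · intro h
      exfalso
      rw [le_zero_iff, Valuation.zero_iff] at h
      exact hx h
  obtain ⟨k, hk⟩ := exists_exp v hx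
  obtain ⟨l, hl⟩ := exists_exp v hy
  rw [hc x k hk, hc y l hl, hk, hl, exp_le_exp, zpow_le_zpow_iff_right₀ (by norm_num)]
  have : (0 : ℤ) < E := by exact_mod_cast hE
  exact mul_le_mul_iff_left₀ this

theorem Compat.le_one_iff (hc : Compat v W E) (x : K) :
    absW W (algebraMap K M x) ≤ 1 ↔ v.valuation K x ≤ 1 := by
  have := hc.le_iff x 1
  simpa using this

theorem Compat.int_iff (hc : Compat v W E) (F : K[X]) :
    (F.map (algebraMap K M)).gaussNorm (absW W) 1 ≤ 1 ↔ ∀ i, v.valuation K (F.coeff i) ≤ 1 := by
  rw [gaussNorm_le_one_iff]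
  simp only [coeff_map, hc.le_one_iff]

theorem MinForm.core [IsGalois K M] {h : ℕ} (hh : 2 ≤ h) {F : K[X]} (hF : MinForm v h F)
    (hc : Compat v W E) {u : M} {α β : Fin (h + h) → M} (hu : u ≠ 0)
    (huni : ∀ i, max (absW W (α i)) (absW W (β i)) = 1)
    (hne : ∀ i j, i ≠ j → α i * β j - α j * β i ≠ 0)
    (hfac : F.map (algebraMap K M) = C u * ∏ i, (C (α i) * X + C (β i)))
    {ϖ : K} (hϖ : v.valuation K ϖ = exp (-1)) :
    Core K (absW W) (decG K W) ((2 : ℝ) ^ (-(E : ℤ))) ϖ h u α β where
  hna := absW_na W
  hq0 := by positivity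
  hq1 := by
    apply zpow_lt_one_of_neg₀ (by norm_num)
    have := hc.1
    omega
  hϖ := by
    rw [hc.2 ϖ (-1) hϖ]
    congr 1
    ring
  hG σ hσ x := absW_congr W (hσ x)
  dense := dense_decG W
  hu := hu
  hu1 := by
    have h1 := (hc.int_iff F).mpr hF.int
    rw [hfac, gaussNorm_prod_lin (absW_na W)] at h1
    simpa [huni] using h1
  huni := huni
  hne := hne
  hperm σ hσ j := by
    by_cases hj : α j = 0
    · exact ⟨j, by rw [hj, map_zero, zero_mul, mul_zero]⟩
    · have h1 : (F.map (algebraMap K M)).eval (-β j / α j) = 0 := by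
        rw [hfac, eval_mul, eval_prod, Finset.prod_eq_zero (mem_univ j), mul_zero]
        simp only [eval_add, eval_mul, eval_C, eval_X]
        field_simp
        ring
      have h2 : (F.map (algebraMap K M)).eval (σ (-β j / α j)) = 0 := by
        rw [eval_map_algebraMap] at h1 ⊢
        have : aeval (σ (-β j / α j)) F = σ (aeval (-β j / α j) F) := by
          exact aeval_algHom_apply (σ : M →ₐ[K] M) _ _
        rw [this, h1, map_zero]
      rw [hfac, eval_mul, eval_C, mul_eq_zero, eval_prod, Finset.prod_eq_zero_iff] at h2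
      obtain ⟨j', _, hj'⟩ := h2.resolve_left hu
      refine ⟨j', ?_⟩
      simp only [eval_add, eval_mul, eval_C, eval_X, map_div₀, map_neg] at hj'
      have hσ0 : σ (α j) ≠ 0 := by simpa using hj
      field_simp at hj'
      linear_combination -hj'
  hgn a b c d hdet := by
    have hdet' : algebraMap K M a * algebraMap K M d - algebraMap K M b * algebraMap K M c ≠ 0 := by
      rw [← map_mul, ← map_mul, ← map_sub, Ne, map_eq_zero]
      exact hdet
    have h1 : (act (h + h) a b c d F).map (algebraMap K M) =
        C u * ∏ i, (C (α i * algebraMap K M a + β i * algebraMap K M c) * X +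
          C (α i * algebraMap K M b + β i * algebraMap K M d)) := by
      have := sq_act_prod (h := h) (u := u) (α := α) (β := β) hdet' 1
      rw [one_pow, C_1, one_mul, one_mul] at this
      rw [act_map, hfac, this]
    have h2 : ((act (h + h) a b c d F).map (algebraMap K M)).gaussNorm (absW W) 1 =
        absW W u * gn (absW W) α β a b c d := by
      rw [h1, gaussNorm_prod_lin (absW_na W)]
      rfl
    obtain ⟨i, hi⟩ := exists_coeff_eq_gaussNorm (A := absW W)
      ((act (h + h) a b c d F).map (algebraMap K M))
    rw [coeff_map] at hi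
    rw [← h2, hi]
    have hpos : 0 < absW W u * gn (absW W) α β a b c d := by
      refine mul_pos ((absW W).pos hu) (Finset.prod_pos fun i _ => ?_)
      rw [lt_max_iff]
      by_contra hcon
      push Not at hcon
      have e1 : α i * algebraMap K M a + β i * algebraMap K M c = 0 := by
        rw [← (absW W).eq_zero]; exact le_antisymm hcon.1 ((absW W).nonneg _)
      have e2 : α i * algebraMap K M b + β i * algebraMap K M d = 0 := by
        rw [← (absW W).eq_zero]; exact le_antisymm hcon.2 ((absW W).nonneg _)
      have e3 : α i * (algebraMap K M a * algebraMap K M d -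
          algebraMap K M b * algebraMap K M c) = 0 := by
        linear_combination (algebraMap K M d) * e1 - (algebraMap K M c) * e2
      have e4 : β i * (algebraMap K M a * algebraMap K M d -
          algebraMap K M b * algebraMap K M c) = 0 := by
        linear_combination (algebraMap K M a) * e2 - (algebraMap K M b) * e1
      have e5 := huni i
      rw [(mul_eq_zero.mp e3).resolve_right hdet', (mul_eq_zero.mp e4).resolve_right hdet',
        map_zero, max_self] at e5
      exact zero_ne_one e5
    rw [← h2, hi] at hpos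
    have hne0 : (act (h + h) a b c d F).coeff i ≠ 0 := by
      intro h0
      rw [h0, map_zero, map_zero] at hpos
      exact lt_irrefl _ hpos
    obtain ⟨k, hk⟩ := exists_exp v hne0
    refine ⟨-k, ?_⟩
    rw [hc.2 _ k hk, ← zpow_mul]
    congr 1
    ring
  hmin a b c d l hdet hl hint := by
    have hdet' : algebraMap K M a * algebraMap K M d - algebraMap K M b * algebraMap K M c ≠ 0 := by
      rw [← map_mul, ← map_mul, ← map_sub, Ne, map_eq_zero]
      exact hdet
    have hl' : algebraMap K M l ≠ 0 := by rwa [Ne, map_eq_zero]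
    have hmap : (C (l ^ 2) * act (h + h) a b c d F).map (algebraMap K M) =
        C (algebraMap K M l ^ 2) * act (h + h) (algebraMap K M a) (algebraMap K M b)
          (algebraMap K M c) (algebraMap K M d) (C u * ∏ i, (C (α i) * X + C (β i))) := by
      rw [Polynomial.map_mul, Polynomial.map_C, map_pow, act_map, hfac]
    have h2 : ((C (l ^ 2) * act (h + h) a b c d F).map (algebraMap K M)).gaussNorm (absW W) 1 =
        absW W (algebraMap K M l) ^ 2 * (absW W u * gn (absW W) α β a b c d) := by
      rw [hmap, sq_act_prod hdet', gaussNorm_prod_lin (absW_na W), map_mul, map_pow, mul_assoc]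
      rfl
    have h3 := hF.min a b c d l hdet hl ((hc.int_iff _).mp (by rw [h2]; exact hint))
    rw [← hc.le_iff, ← discN_map, ← discN_map, hmap, hfac,
      disc_sq_act hu hne hh hdet' hl'] at h3
    have hdpos : 0 < absW W (discN (h + h) (C u * ∏ i, (C (α i) * X + C (β i)))) := by
      classical
      have h4 := abs_discN_prod_lin (absW W) hu α β hne (by rw [Fintype.card_fin]; omega)
      rw [Fintype.card_fin] at h4
      rw [h4]
      refine mul_pos (pow_pos ((absW W).pos hu) _) (Finset.prod_pos fun i _ =>
        Finset.prod_pos fun j hj => (absW W).pos (hne i j (Finset.ne_of_mem_erase hj).symm))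
    have h5 : (absW W (algebraMap K M l) ^ 2 *
        absW W (algebraMap K M a * algebraMap K M d - algebraMap K M b * algebraMap K M c) ^ h) ^
          (2 * (h + h - 1)) ≤ 1 := by
      by_contra hcon
      push Not at hcon
      have := (lt_mul_iff_one_lt_left hdpos).mpr hcon
      linarith
    rw [map_sub, map_mul, map_mul]
    rwa [pow_le_one_iff_of_nonneg] at h5
    · exact mul_nonneg (pow_nonneg ((absW W).nonneg _) _) (pow_nonneg ((absW W).nonneg _) _)
    · omega

end apply

end Pool.Agent.W318
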