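import Mathlib

namespace Pool.Agent.W318

open Polynomial NumberField IsDedekindDomain WithZero

theorem exists_bigField {K L : Type} [Field K] [NumberField K] [Field L] [NumberField L]
    [Algebra K L] (F : L[X]) :
    ∃ (M : Type) (_ : Field M) (_ : NumberField M) (_ : Algebra K M) (_ : Algebra L M)
      (_ : IsScalarTower K L M) (_ : IsGalois K M), (F.map (algebraMap L M)).Splits := by
  let N := F.SplittingField
  let Ω := AlgebraicClosure N
  have : IsScalarTower K L N := inferInstance
  have : CharZero N := charZero_of_injective_algebraMap (algebraMap L N).injective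
  have : FiniteDimensional L N := inferInstance
  have : FiniteDimensional K L := by
    have : IsScalarTower ℚ K L := IsScalarTower.of_algebraMap_eq fun x => by simp
    exact Module.Finite.of_restrictScalars_finite ℚ K L
  have : FiniteDimensional K N := FiniteDimensional.trans K L N
  have : IsScalarTower K N Ω := inferInstance
  have : Algebra.IsAlgebraic K Ω := Algebra.IsAlgebraic.trans K N Ω
  have : Normal K Ω := ⟨fun x => IsAlgClosed.splits _⟩
  let M := IntermediateField.normalClosure K N Ω
  have : FiniteDimensional K M := inferInstance
  have : Normal K M := inferInstance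
  let : Algebra L M := ((algebraMap N M).comp (algebraMap L N)).toAlgebra
  have : IsScalarTower L N M := IsScalarTower.of_algebraMap_eq fun x => rfl
  have : IsScalarTower K N M := inferInstance
  have : IsScalarTower K L M := IsScalarTower.of_algebraMap_eq fun x => by
    rw [IsScalarTower.algebraMap_apply K N M, IsScalarTower.algebraMap_apply K L N,
      ← IsScalarTower.algebraMap_apply L N M]
  have : CharZero M := charZero_of_injective_algebraMap (algebraMap L M).injective
  have : FiniteDimensional ℚ M := by
    have : IsScalarTower ℚ K M := IsScalarTower.of_algebraMap_eq fun x => by simp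
    exact FiniteDimensional.trans ℚ K M
  have : NumberField M := { }
  have : IsGalois K M := { }
  refine ⟨M, inferInstance, inferInstance, inferInstance, inferInstance, inferInstance,
    inferInstance, ?_⟩
  have h1 : (F.map (algebraMap L N)).Splits := SplittingField.splits F
  have h2 := h1.map (algebraMap N M)
  rwa [Polynomial.map_map, ← IsScalarTower.algebraMap_eq] at h2

theorem exists_prime_over {L M : Type} [Field L] [NumberField L] [Field M] [NumberField M]
    [Algebra L M] (w : HeightOneSpectrum (𝓞 L)) :
    ∃ W : HeightOneSpectrum (𝓞 M), W.asIdeal.LiesOver w.asIdeal := by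
  obtain ⟨P, hP, hPo⟩ := Ideal.exists_maximal_ideal_liesOver_of_isIntegral w.asIdeal (S := 𝓞 M)
  refine ⟨⟨P, hP.isPrime, ?_⟩, hPo⟩
  rintro rfl
  apply w.ne_bot
  have := hPo.over
  rw [this]
  exact Ideal.comap_bot_of_injective _ (FaithfulSMul.algebraMap_injective _ _)

end Pool.Agent.W318
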