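import Mathlib

namespace Pool.Agent.W318

open Polynomial Polynomial.Bivariate

variable {k : Type*} [Field k]

theorem coeff_coeff_swap (T : k[X][Y]) (i j : ℕ) :
    ((Bivariate.swap T).coeff i).coeff j = (T.coeff j).coeff i := by
  induction T using Polynomial.induction_on' with
  | add p q hp hq => simp only [map_add, coeff_add, hp, hq]
  | monomial n f =>
    rw [Bivariate.swap_monomial, coeff_mul_C, coeff_map, coeff_C_mul, coeff_X_pow, coeff_monomial]
    by_cases h : j = n
    · rw [if_pos h, if_pos h.symm, mul_one]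
    · rw [if_neg h, if_neg (fun h' => h h'.symm), mul_zero, coeff_zero]

theorem natDegree_swap_le_iff (T : k[X][Y]) (N : ℕ) :
    (Bivariate.swap T).natDegree ≤ N ↔ ∀ j, (T.coeff j).natDegree ≤ N := by
  constructor
  · intro h j
    rw [natDegree_le_iff_coeff_eq_zero]
    intro i hi
    rw [← coeff_coeff_swap, coeff_eq_zero_of_natDegree_lt (lt_of_le_of_lt h hi), coeff_zero]
  · intro h
    rw [natDegree_le_iff_coeff_eq_zero]
    intro i hi
    ext j
    rw [coeff_coeff_swap, coeff_zero]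
    exact coeff_eq_zero_of_natDegree_lt (lt_of_le_of_lt (h j) hi)

theorem natDegree_coeff_le_of_dvd {P Q : k[X][Y]} (hQ : Q ≠ 0) (h : P ∣ Q) {N : ℕ}
    (hN : ∀ j, (Q.coeff j).natDegree ≤ N) : ∀ j, (P.coeff j).natDegree ≤ N := by
  obtain ⟨S, rfl⟩ := h
  rw [← natDegree_swap_le_iff] at hN ⊢
  have hP : P ≠ 0 := left_ne_zero_of_mul hQ
  have hS : S ≠ 0 := right_ne_zero_of_mul hQ
  have hP' : Bivariate.swap P ≠ 0 := by simpa using hP
  have hS' : Bivariate.swap S ≠ 0 := by simpa using hS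
  rw [map_mul, natDegree_mul hP' hS'] at hN
  omega

theorem num_eq_mul_denom (p : RatFunc k) :
    algebraMap k[X] (RatFunc k) p.num = p * algebraMap k[X] (RatFunc k) p.denom := by
  have h := RatFunc.num_div_denom p
  rwa [div_eq_iff (RatFunc.algebraMap_ne_zero p.denom_ne_zero)] at h

/-- If `F` is squarefree and `T² F` is a polynomial then `T` is a polynomial. -/
theorem exists_poly_of_sq_mul {F D : k[X]} (hF : Squarefree F) {T : RatFunc k}
    (h : T ^ 2 * algebraMap k[X] (RatFunc k) F = algebraMap k[X] (RatFunc k) D) :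
    ∃ t : k[X], T = algebraMap k[X] (RatFunc k) t := by
  have hd0 : T.denom ≠ 0 := T.denom_ne_zero
  have hd : algebraMap k[X] (RatFunc k) T.denom ≠ 0 := RatFunc.algebraMap_ne_zero hd0
  have h1 : T.num ^ 2 * F = D * T.denom ^ 2 := by
    apply RatFunc.algebraMap_injective k
    rw [map_mul, map_mul, map_pow, map_pow, ← h]
    rw [num_eq_mul_denom T]
    ring
  have hcop : IsCoprime (T.denom ^ 2) (T.num ^ 2) := (T.isCoprime_num_denom.symm).pow
  have hdvd : T.denom ^ 2 ∣ F := by
    apply hcop.dvd_of_dvd_mul_left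
    rw [h1]
    exact Dvd.intro_left _ rfl
  have hunit : IsUnit T.denom := hF _ (by rw [← sq]; exact hdvd)
  have hone : T.denom = 1 := (T.monic_denom).eq_one_of_isUnit hunit
  refine ⟨T.num, ?_⟩
  conv_lhs => rw [← RatFunc.num_div_denom T]
  rw [hone, map_one, div_one]

theorem no_small_relation [CharZero k] {F : k[X]} (hF : Squarefree F) (hd : 5 ≤ F.natDegree)
    {p q : RatFunc k} (hq : q ≠ 0) {Q : k[X][Y]} (hQ : Q ≠ 0)
    (hN : ∀ j, (Q.coeff j).natDegree ≤ 2)
    (h : (X ^ 2 - C (2 * p) * X + C (p ^ 2 - q ^ 2 * algebraMap k[X] (RatFunc k) F) :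
      (RatFunc k)[X]) ∣ Q.map (algebraMap k[X] (RatFunc k))) : False := by
  let _ : NormalizedGCDMonoid k[X] := Nonempty.some inferInstance
  set φ := algebraMap k[X] (RatFunc k) with hφ
  have hφi : Function.Injective φ := RatFunc.algebraMap_injective k
  -- common denominator
  set d := p.denom * q.denom with hd'
  set a := p.num * q.denom with ha
  set b := q.num * p.denom with hb
  have hpd : φ p.denom ≠ 0 := RatFunc.algebraMap_ne_zero p.denom_ne_zero
  have hqd : φ q.denom ≠ 0 := RatFunc.algebraMap_ne_zero q.denom_ne_zero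
  have hdne : d ≠ 0 := mul_ne_zero p.denom_ne_zero q.denom_ne_zero
  have hφd : φ d ≠ 0 := RatFunc.algebraMap_ne_zero hdne
  have hpe : φ a = p * φ d := by
    have h2 : φ p.num = p * φ p.denom := num_eq_mul_denom p
    rw [ha, hd', map_mul, map_mul, h2]; ring
  have hqe : φ b = q * φ d := by
    have h2 : φ q.num = q * φ q.denom := num_eq_mul_denom q
    rw [hb, hd', map_mul, map_mul, h2]; ring
  set P0 : k[X][Y] := C (d ^ 2) * X ^ 2 - C (2 * a * d) * X + C (a ^ 2 - b ^ 2 * F) with hP0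
  have hP0map : P0.map φ = C (φ d ^ 2) * (X ^ 2 - C (2 * p) * X + C (p ^ 2 - q ^ 2 * φ F)) := by
    rw [hP0]
    simp only [Polynomial.map_add, Polynomial.map_sub, Polynomial.map_mul, Polynomial.map_C,
      Polynomial.map_pow, Polynomial.map_X, map_pow, map_mul, map_sub, map_ofNat,
      Polynomial.map_ofNat, hpe, hqe]
    ring
  have hf2 : P0.coeff 2 = d ^ 2 := by
    rw [hP0]
    simp only [coeff_add, coeff_sub, coeff_C_mul, coeff_X_pow, coeff_X, coeff_C]
    norm_num
  have hf1 : P0.coeff 1 = -(2 * a * d) := by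
    rw [hP0]
    simp only [coeff_add, coeff_sub, coeff_C_mul, coeff_X_pow, coeff_X, coeff_C]
    norm_num
  have hf0 : P0.coeff 0 = a ^ 2 - b ^ 2 * F := by
    rw [hP0]
    simp only [coeff_add, coeff_sub, coeff_C_mul, coeff_X_pow, coeff_X_zero, coeff_C_zero]
    norm_num
  have hP0ne : P0 ≠ 0 := by
    intro h0
    rw [h0, coeff_zero] at hf2
    exact pow_ne_zero 2 hdne hf2.symm
  set P := P0.primPart with hP
  have hcont : P0 = C P0.content * P := P0.eq_C_content_mul_primPart
  have hc0 : P0.content ≠ 0 := by rwa [Ne, content_eq_zero_iff]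
  set c0 := P0.content with hc0'
  have hφc0 : φ c0 ≠ 0 := RatFunc.algebraMap_ne_zero hc0
  have hdvd : P ∣ Q := by
    apply (isPrimitive_primPart P0).dvd_of_fraction_map_dvd_fraction_map (K := RatFunc k)
    refine dvd_trans ?_ h
    have h1 : (C (φ c0) : (RatFunc k)[X]) * P.map φ = C (φ d ^ 2) *
        (X ^ 2 - C (2 * p) * X + C (p ^ 2 - q ^ 2 * φ F)) := by
      rw [← hP0map, hcont, Polynomial.map_mul, Polynomial.map_C]
    have hu : IsUnit (C (φ d ^ 2) : (RatFunc k)[X]) := isUnit_C.mpr (pow_ne_zero 2 hφd).isUnit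
    rw [← hu.dvd_mul_left, ← h1]
    exact Dvd.intro_left _ rfl
  have hPN := natDegree_coeff_le_of_dvd hQ hdvd hN
  have hcoef : ∀ i, P0.coeff i = c0 * P.coeff i := by
    intro i
    conv_lhs => rw [hcont]
    rw [coeff_C_mul]
  have h2 : d ^ 2 = c0 * P.coeff 2 := by
    rw [← hcoef, hf2]
  have h1 : -(2 * a * d) = c0 * P.coeff 1 := by
    rw [← hcoef, hf1]
  have h0 : a ^ 2 - b ^ 2 * F = c0 * P.coeff 0 := by
    rw [← hcoef, hf0]
  set D := P.coeff 1 ^ 2 - 4 * P.coeff 2 * P.coeff 0 with hD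
  have hkey : c0 ^ 2 * D = (2 * d * b) ^ 2 * F := by
    calc c0 ^ 2 * D = (c0 * P.coeff 1) ^ 2 - 4 * (c0 * P.coeff 2) * (c0 * P.coeff 0) := by
          rw [hD]; ring
      _ = _ := by rw [← h2, ← h1, ← h0]; ring
  have hDdeg : D.natDegree ≤ 4 := by
    rw [hD]
    refine (natDegree_sub_le _ _).trans (max_le ?_ ?_)
    · refine natDegree_pow_le.trans ?_
      have := hPN 1
      omega
    · refine natDegree_mul_le.trans ?_
      have h3 : (4 * P.coeff 2 : k[X]).natDegree ≤ 2 := by
        have : (4 : k[X]) = C 4 := (map_ofNat (C : k →+* k[X]) 4).symm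
        rw [this]
        exact (natDegree_C_mul_le _ _).trans (hPN 2)
      have := hPN 0
      omega
  have hbne : b ≠ 0 := by
    rw [hb]
    exact mul_ne_zero (RatFunc.num_ne_zero hq) p.denom_ne_zero
  have hT : (φ (2 * d * b) / φ c0) ^ 2 * φ F = φ D := by
    have h4 := congrArg φ hkey
    rw [map_mul, map_mul, map_pow, map_pow] at h4
    rw [div_pow, div_mul_eq_mul_div, div_eq_iff (pow_ne_zero 2 hφc0), ← h4]
    ring
  obtain ⟨t, ht⟩ := exists_poly_of_sq_mul hF hT
  rw [ht, ← map_pow, ← map_mul] at hT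
  have hT' : t ^ 2 * F = D := hφi hT
  have hDne : D ≠ 0 := by
    intro h5
    rw [h5, mul_zero] at hkey
    have h6 : (2 * d * b) ^ 2 * F ≠ 0 := by
      refine mul_ne_zero (pow_ne_zero 2 (mul_ne_zero (mul_ne_zero ?_ hdne) hbne)) hF.ne_zero
      exact two_ne_zero
    exact h6 hkey.symm
  have htne : t ^ 2 ≠ 0 := by
    intro h5
    rw [h5, zero_mul] at hT'
    exact hDne hT'.symm
  have := natDegree_mul htne hF.ne_zero
  rw [hT'] at this
  omega

end Pool.Agent.W318
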