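import Pool.Agent.W318.Act

namespace Pool.Agent.W318

open Polynomial Finset

section eqv

variable {k : Type*} [Field k]

/-- `F'` is obtained from the binary form `F` of degree `2 h` by a substitution in `GL₂(k)` and
multiplication by a nonzero square. -/
def Eqv (h : ℕ) (F F' : k[X]) : Prop :=
  ∃ a b c d l : k, a * d - b * c ≠ 0 ∧ l ≠ 0 ∧ F' = C (l ^ 2) * act (h + h) a b c d F

theorem Eqv.refl {h : ℕ} {F : k[X]} (hF : F.natDegree ≤ h + h) : Eqv h F F :=
  ⟨1, 0, 0, 1, 1, by simp, one_ne_zero, by rw [act_one _ _ hF]; simp⟩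

theorem act_scalar (n : ℕ) (δ : k) (F : k[X]) (hF : F.natDegree ≤ n) :
    act n δ 0 0 δ F = C (δ ^ n) * F := by
  have : F = ∑ i ∈ range (n + 1), C (F.coeff i) * X ^ i := by
    conv_lhs => rw [F.as_sum_range_C_mul_X_pow' (by omega : F.natDegree < n + 1)]
  conv_rhs => rw [this]
  simp only [act, C_0, zero_mul, add_zero, zero_add]
  rw [Finset.mul_sum]
  refine Finset.sum_congr rfl fun i hi => ?_
  rw [mem_range] at hi
  have : (C (δ ^ n) : k[X]) = C δ ^ i * C δ ^ (n - i) := by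
    rw [← pow_add, ← C_pow]
    congr 2
    omega
  rw [this, mul_pow]
  ring

theorem Eqv.natDegree_le {h : ℕ} {F F' : k[X]} (hF : Eqv h F F') : F'.natDegree ≤ h + h := by
  obtain ⟨a, b, c, d, l, _, _, rfl⟩ := hF
  refine natDegree_mul_le.trans ?_
  rw [natDegree_C, zero_add]
  exact natDegree_act_le _ _ _ _ _ _

theorem Eqv.trans [Infinite k] {h : ℕ} {F F' F'' : k[X]} (hd : F.natDegree ≤ h + h)
    (h1 : Eqv h F F') (h2 : Eqv h F' F'') : Eqv h F F'' := by
  obtain ⟨a, b, c, d, l, hdet, hl, rfl⟩ := h1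
  obtain ⟨a', b', c', d', l', hdet', hl', rfl⟩ := h2
  refine ⟨a * a' + b * c', a * b' + b * d', c * a' + d * c', c * b' + d * d', l' * l, ?_,
    mul_ne_zero hl' hl, ?_⟩
  · have : (a * a' + b * c') * (c * b' + d * d') - (a * b' + b * d') * (c * a' + d * c') =
        (a * d - b * c) * (a' * d' - b' * c') := by ring
    rw [this]; exact mul_ne_zero hdet hdet'
  · rw [act_C_mul, act_act hd hdet hdet', mul_pow, C_mul, mul_assoc]

theorem Eqv.symm [Infinite k] {h : ℕ} {F F' : k[X]} (hd : F.natDegree ≤ h + h)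
    (h1 : Eqv h F F') : Eqv h F' F := by
  obtain ⟨a, b, c, d, l, hdet, hl, rfl⟩ := h1
  have hdet' : d * a - -b * -c ≠ 0 := by
    intro h0; apply hdet; linear_combination h0
  refine ⟨d, -b, -c, a, (l * (a * d - b * c) ^ h)⁻¹, hdet',
    inv_ne_zero (mul_ne_zero hl (pow_ne_zero _ hdet)), ?_⟩
  rw [act_C_mul, act_act hd hdet hdet']
  have e1 : a * d + b * -c = a * d - b * c := by ring
  have e2 : a * -b + b * a = 0 := by ring
  have e3 : c * d + d * -c = 0 := by ring
  have e4 : c * -b + d * a = a * d - b * c := by ring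
  rw [e1, e2, e3, e4, act_scalar _ _ _ hd, ← mul_assoc, ← mul_assoc, ← C_mul, ← C_mul]
  have : ((l * (a * d - b * c) ^ h)⁻¹) ^ 2 * l ^ 2 * (a * d - b * c) ^ (h + h) = 1 := by
    have h3 : (a * d - b * c) ^ h ≠ 0 := pow_ne_zero _ hdet
    rw [pow_add]
    field_simp
  rw [this, C_1, one_mul]

theorem Eqv.map {k' : Type*} [Field k'] (f : k →+* k') {h : ℕ} {F F' : k[X]}
    (h1 : Eqv h F F') : Eqv h (F.map f) (F'.map f) := by
  obtain ⟨a, b, c, d, l, hdet, hl, rfl⟩ := h1
  refine ⟨f a, f b, f c, f d, f l, ?_, ?_, ?_⟩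
  · rw [← map_mul, ← map_mul, ← map_sub, Ne, map_eq_zero]
    exact hdet
  · rwa [Ne, map_eq_zero]
  · rw [Polynomial.map_mul, Polynomial.map_C, map_pow, act_map]

end eqv

end Pool.Agent.W318
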