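import Mathlib

namespace Pool.Agent.W318

open Polynomial NumberField IsDedekindDomain WithZero

/-- The polynomial `Y² + b Y - a`. -/
noncomputable abbrev quadPoly {E : Type*} [Field E] (a b : E) : E[X] := X ^ 2 + C b * X - C a

/-- A polynomial as a rational function. -/
noncomputable abbrev toRat {k : Type*} [Field k] (f : k[X]) : RatFunc k :=
  algebraMap k[X] (RatFunc k) f

/-- The function field `k(x)[y] / (y² + f₂ y - f)` of the curve `y² + f₂(x) y = f(x)`,
as a `k`-algebra. -/
abbrev FunField (k : Type*) [Field k] (f f₂ : k[X]) : Type _ :=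
  AdjoinRoot (quadPoly (toRat f) (toRat f₂))

/-- `y² = F(x)` is a hyperelliptic curve of genus `g` over the field `k` of characteristic `0`:
`F` is squarefree of degree `2 g + 1` or `2 g + 2`. -/
def IsHyp {k : Type*} [Field k] (g : ℕ) (F : k[X]) : Prop :=
  Squarefree F ∧ (F.natDegree = 2 * g + 1 ∨ F.natDegree = 2 * g + 2)

/-- `f₀ = f + f₂² / 4` -/
noncomputable abbrev formOf {k : Type*} [Field k] (f f₂ : k[X]) : k[X] := f + C (1 / 4) * f₂ ^ 2

/-- The discriminant of the Weierstrass equation `y² + f₂ y = f` of genus `g`, defined with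
`f₀ = f + f₂² / 4`. -/
noncomputable def modelDisc {k : Type*} [Field k] (g : ℕ) (f f₂ : k[X]) : k :=
  if (formOf f f₂).natDegree = 2 * g + 2 then 2 ^ (4 * g) * (formOf f f₂).discr
  else 2 ^ (4 * g) * (formOf f f₂).leadingCoeff ^ 2 * (formOf f f₂).discr

section

variable {K : Type*} [Field K] [NumberField K]

/-- `y² + f₂ y = f` is a Weierstrass model over the local ring at `v` of the genus `g`
hyperelliptic curve `y² = F` over the number field `K`: the coefficients are `v`-integral, the
degrees are as they should be, and the function fields over `K` are isomorphic. -/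
structure IsModel (g : ℕ) (F : K[X]) (v : HeightOneSpectrum (𝓞 K)) (f f₂ : K[X]) : Prop where
  int : ∀ i, v.valuation K (f.coeff i) ≤ 1
  int₂ : ∀ i, v.valuation K (f₂.coeff i) ≤ 1
  lower : 2 * g + 1 ≤ max (2 * f₂.natDegree) f.natDegree
  upper : max (2 * f₂.natDegree) f.natDegree ≤ 2 * g + 2
  iso : Nonempty (FunField K f f₂ ≃ₐ[K] FunField K F 0)

/-- The exponent at `v` of the minimal discriminant: the least `v(Δ)` over all Weierstrass
models over the local ring at `v`. -/
noncomputable def minExp (g : ℕ) (F : K[X]) (v : HeightOneSpectrum (𝓞 K)) : ℕ :=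
  sInf {m : ℕ | ∃ f f₂ : K[X], IsModel g F v f f₂ ∧
    v.valuation K (modelDisc g f f₂) = exp (-(m : ℤ))}

/-- `Δ_C = ∏ N_v ^ n_v` -/
noncomputable def discNorm (g : ℕ) (F : K[X]) : ℕ :=
  ∏ᶠ v : HeightOneSpectrum (𝓞 K), Ideal.absNorm v.asIdeal ^ minExp g F v

/-- `M_C = ∏ N_v` over the places of bad reduction (that is, `n_v ≠ 0`). -/
noncomputable def badNorm (g : ℕ) (F : K[X]) : ℕ :=
  ∏ᶠ v : HeightOneSpectrum (𝓞 K), if minExp g F v = 0 then 1 else Ideal.absNorm v.asIdeal

end

/-- `κ(g) = 2 (2 g + 1) (⌊(g + 1) / 2⌋ + 1)` -/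
def kap (g : ℕ) : ℕ := 2 * (2 * g + 1) * ((g + 1) / 2 + 1)

end Pool.Agent.W318
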