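import Pool.Agent.W318.Bridge1
import Pool.Agent.W318.Eqv
import Pool.Agent.W318.SzpDefs

namespace Pool.Agent.W318

open Polynomial

section quad

variable {R : Type*} [Field R]

/-- `X² + b X - c` -/
noncomputable abbrev quadP (b c : R) : R[X] := X ^ 2 + C b * X - C c

theorem quadP_eq (b c : R) : quadP b c = X ^ 2 + (C b * X + C (-c)) := by
  simp only [quadP, C_neg]; ring

theorem quadP_lt (b c : R) : (C b * X + C (-c) : R[X]).degree < ((2 : ℕ) : WithBot ℕ) :=
  lt_of_le_of_lt degree_linear_le (by norm_num)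

theorem quadP_monic (b c : R) : (quadP b c).Monic := by
  rw [quadP_eq]
  exact monic_X_pow_add (quadP_lt b c)

theorem quadP_natDegree (b c : R) : (quadP b c).natDegree = 2 := by
  rw [quadP_eq]
  apply natDegree_eq_of_degree_eq_some
  rw [degree_add_eq_left_of_degree_lt]
  · exact degree_X_pow 2
  · rw [degree_X_pow]
    exact quadP_lt b c

variable (b c : R)

theorem quad_rep (z : AdjoinRoot (quadP b c)) :
    ∃ r s : R, z = AdjoinRoot.of _ r + AdjoinRoot.of _ s * AdjoinRoot.root (quadP b c) := by
  obtain ⟨p, rfl⟩ := AdjoinRoot.mk_surjective z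
  have h1 : AdjoinRoot.mk (quadP b c) p = AdjoinRoot.mk (quadP b c) (p %ₘ quadP b c) := by
    conv_lhs => rw [← modByMonic_add_div p (quadP b c)]
    rw [map_add, map_mul, AdjoinRoot.mk_self, zero_mul, add_zero]
  have h2 : (p %ₘ quadP b c).natDegree ≤ 1 := by
    have := natDegree_modByMonic_lt p (quadP_monic b c) (by
      intro h
      have := quadP_natDegree b c
      rw [h, natDegree_one] at this
      omega)
    rw [quadP_natDegree] at this
    omega
  rw [h1, eq_X_add_C_of_natDegree_le_one h2, map_add, map_mul, AdjoinRoot.mk_C, AdjoinRoot.mk_C,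
    AdjoinRoot.mk_X]
  exact ⟨_, _, add_comm _ _⟩

theorem quad_indep {r s : R}
    (h : AdjoinRoot.of _ r + AdjoinRoot.of _ s * AdjoinRoot.root (quadP b c) = 0) :
    r = 0 ∧ s = 0 := by
  have h1 : AdjoinRoot.mk (quadP b c) (C s * X + C r) = 0 := by
    rw [map_add, map_mul, AdjoinRoot.mk_C, AdjoinRoot.mk_C, AdjoinRoot.mk_X, ← h]
    ring
  rw [AdjoinRoot.mk_eq_zero] at h1
  have h2 : (C s * X + C r : R[X]) = 0 := by
    apply eq_zero_of_dvd_of_natDegree_lt h1
    rw [quadP_natDegree]
    exact lt_of_le_of_lt natDegree_linear_le (by norm_num)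
  constructor
  · have := congrArg (fun p => p.coeff 0) h2
    simpa using this
  · have := congrArg (fun p => p.coeff 1) h2
    simpa using this

theorem quad_root : AdjoinRoot.root (quadP b c) ^ 2 +
    AdjoinRoot.of _ b * AdjoinRoot.root (quadP b c) - AdjoinRoot.of _ c = 0 := by
  have h : AdjoinRoot.mk (quadP b c) (X ^ 2 + C b * X - C c) = 0 := AdjoinRoot.mk_self
  rw [map_sub, map_add, map_pow, map_mul, AdjoinRoot.mk_X, AdjoinRoot.mk_C, AdjoinRoot.mk_C] at h
  exact h

theorem quad_of_injective : Function.Injective (AdjoinRoot.of (quadP b c)) := by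
  rw [injective_iff_map_eq_zero]
  intro r hr
  exact (quad_indep b c (r := r) (s := 0) (by rw [hr, map_zero, zero_mul, add_zero])).1

end quad

variable {k : Type*} [Field k]

theorem exists_common_denom (c : Fin 3 → RatFunc k) :
    ∃ (d : k[X]) (a : Fin 3 → k[X]), d ≠ 0 ∧
      ∀ i, algebraMap k[X] (RatFunc k) (a i) = c i * algebraMap k[X] (RatFunc k) d := by
  refine ⟨(c 0).denom * (c 1).denom * (c 2).denom,
    ![(c 0).num * (c 1).denom * (c 2).denom, (c 1).num * (c 0).denom * (c 2).denom,
      (c 2).num * (c 0).denom * (c 1).denom], ?_, ?_⟩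
  · exact mul_ne_zero (mul_ne_zero (c 0).denom_ne_zero (c 1).denom_ne_zero) (c 2).denom_ne_zero
  · intro i
    fin_cases i
    · simp only [Fin.zero_eta, Matrix.cons_val_zero, map_mul, num_eq_mul_denom (c 0)]
      ring
    · simp only [Fin.mk_one, Matrix.cons_val_one, map_mul]
      simp only [Matrix.cons_val_zero, map_mul, num_eq_mul_denom (c 1)]
      ring
    · simp only [Fin.reduceFinMk, Matrix.cons_val, map_mul, num_eq_mul_denom (c 2)]
      ring

theorem algebraMap_act (n : ℕ) {a b c d : k} (hcd : c ≠ 0 ∨ d ≠ 0) {f : k[X]}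
    (hf : f.natDegree ≤ n) :
    algebraMap k[X] (RatFunc k) (act n a b c d f) =
      algebraMap k[X] (RatFunc k) (C c * X + C d) ^ n *
        aeval (algebraMap k[X] (RatFunc k) (C a * X + C b) /
          algebraMap k[X] (RatFunc k) (C c * X + C d)) f := by
  have key : ∀ p : k[X], algebraMap k[X] (RatFunc k) p =
      (p.map (algebraMap k (RatFunc k))).eval RatFunc.X := by
    intro p
    rw [eval_map_algebraMap]
    conv_lhs => rw [← aeval_X_left_apply p]
    rw [← RatFunc.algebraMap_X, aeval_algebraMap_apply]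
  have hne : (C c * X + C d : k[X]) ≠ 0 := by
    intro h0
    have h1 := congrArg (fun p => p.coeff 1) h0
    have h2 := congrArg (fun p => p.coeff 0) h0
    simp at h1 h2
    rcases hcd with h | h
    · exact h h1
    · exact h h2
  have hx : algebraMap k (RatFunc k) c * RatFunc.X + algebraMap k (RatFunc k) d ≠ 0 := by
    have := key (C c * X + C d)
    simp only [Polynomial.map_add, Polynomial.map_mul, Polynomial.map_C, Polynomial.map_X,
      eval_add, eval_mul, eval_C, eval_X] at this
    rw [← this]
    exact RatFunc.algebraMap_ne_zero hne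
  rw [key, act_map, eval_act (by rw [natDegree_map]; exact hf) hx, key (C c * X + C d),
    key (C a * X + C b), ← eval_map_algebraMap]
  simp only [Polynomial.map_add, Polynomial.map_mul, Polynomial.map_C, Polynomial.map_X,
    eval_add, eval_mul, eval_C, eval_X]

end Pool.Agent.W318
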