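import Pool.Agent.W318.Bridge2

namespace Pool.Agent.W318

open Polynomial Polynomial.Bivariate

variable {k : Type*} [Field k]

/-- A presentation of `E` as `k(x) ⊕ k(x) y` with `y² + b y = c`. -/
structure QData (E : Type*) [CommRing E] [Algebra k E] (b c : RatFunc k) (ι : RatFunc k →+* E)
    (y : E) : Prop where
  rep : ∀ z, ∃ r s, z = ι r + ι s * y
  indep : ∀ r s, ι r + ι s * y = 0 → r = 0 ∧ s = 0
  rel : y ^ 2 + ι b * y - ι c = 0
  alg : ∀ t : k, ι (algebraMap k (RatFunc k) t) = algebraMap k E t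

variable {E : Type*} [CommRing E] [Algebra k E]

theorem QData.injective {b c : RatFunc k} {ι : RatFunc k →+* E} {y : E} (h : QData E b c ι y) :
    Function.Injective ι := by
  rw [injective_iff_map_eq_zero]
  intro r hr
  exact (h.indep r 0 (by rw [hr, map_zero, zero_mul, add_zero])).1

theorem QData.congr {b b' c : RatFunc k} {ι : RatFunc k →+* E} {y : E} (h : QData E b c ι y)
    (hb : b = b') : QData E b' c ι y := hb ▸ h

/-- Step 1: the new `x`-coordinate lies in `k(x)`. -/
theorem bridge_step1 [CharZero k] {F f f₂ : k[X]} (hF : Squarefree F) (hd : 5 ≤ F.natDegree)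
    {ι ψ : RatFunc k →+* E} {y y₁ : E}
    (hE : QData E 0 (algebraMap k[X] (RatFunc k) F) ι y)
    (hE' : QData E (algebraMap k[X] (RatFunc k) f₂) (algebraMap k[X] (RatFunc k) f) ψ y₁)
    {p q : RatFunc k} (hx : ψ RatFunc.X = ι p + ι q * y) : q = 0 := by
  by_contra hq
  set alg := algebraMap k[X] (RatFunc k) with halg
  have hy2 : y ^ 2 = ι (alg F) := by
    have := hE.rel
    rw [map_zero, zero_mul, add_zero, sub_eq_zero] at this
    exact this
  -- x and x² in terms of the new coordinates
  obtain ⟨r1, s1, h1'⟩ := hE'.rep (ι RatFunc.X)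
  obtain ⟨r2, s2, h2'⟩ := hE'.rep (ι RatFunc.X ^ 2)
  obtain ⟨c, hc0, hc⟩ : ∃ c : Fin 3 → RatFunc k, c ≠ 0 ∧
      ψ (c 0) + ψ (c 1) * ι RatFunc.X + ψ (c 2) * ι RatFunc.X ^ 2 = 0 := by
    by_cases hs : s1 = 0
    · refine ⟨![-r1, 1, 0], ?_, ?_⟩
      · intro h
        have := congrFun h 1
        simp at this
      · simp only [Matrix.cons_val_zero, Matrix.cons_val_one, Matrix.cons_val, map_neg, map_one,
          map_zero]
        rw [h1', hs, map_zero]
        ring
    · refine ⟨![s1 * r2 - s2 * r1, s2, -s1], ?_, ?_⟩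
      · intro h
        have := congrFun h 2
        simp at this
        exact hs this
      · simp only [Matrix.cons_val_zero, Matrix.cons_val_one, Matrix.cons_val, map_neg, map_sub,
          map_mul]
        rw [h2', h1']
        ring
  obtain ⟨d, a, hd0, ha⟩ := exists_common_denom c
  have hcomb : ψ (alg (a 0)) + ψ (alg (a 1)) * ι RatFunc.X + ψ (alg (a 2)) * ι RatFunc.X ^ 2 = 0 := by
    rw [ha, ha, ha, map_mul, map_mul, map_mul]
    linear_combination (ψ (alg d)) * hc
  have hane : ∃ i, a i ≠ 0 := by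
    by_contra hcon
    push Not at hcon
    apply hc0
    funext i
    have := ha i
    rw [hcon i, map_zero] at this
    rcases mul_eq_zero.mp this.symm with h | h
    · exact h
    · exact absurd h (RatFunc.algebraMap_ne_zero hd0)
  -- the bivariate polynomial
  set Q : k[X][Y] := (a 0).map C + C X * (a 1).map C + C (X ^ 2) * (a 2).map C with hQ
  have hQc : ∀ j, Q.coeff j = C ((a 0).coeff j) + X * C ((a 1).coeff j) +
      X ^ 2 * C ((a 2).coeff j) := by
    intro j
    simp only [hQ, coeff_add, coeff_C_mul, coeff_map]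
  have hQ0 : Q ≠ 0 := by
    intro h0
    obtain ⟨i, hi⟩ := hane
    apply hi
    ext j
    have h3 := hQc j
    rw [h0, coeff_zero] at h3
    have e0 := congrArg (fun p => p.coeff 0) h3
    have e1 := congrArg (fun p => p.coeff 1) h3
    have e2 := congrArg (fun p => p.coeff 2) h3
    simp [coeff_X_pow, coeff_X, coeff_C] at e0 e1 e2
    fin_cases i
    · simpa using e0.symm
    · simpa using e1.symm
    · simpa using e2.symm
  have hQN : ∀ j, (Q.coeff j).natDegree ≤ 2 := by
    intro j
    rw [hQc]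
    compute_degree
  -- it vanishes at x'
  have hψpoly : ∀ b : k[X], ψ (alg b) = b.eval₂ (ι.comp (alg.comp C)) (ψ RatFunc.X) := by
    intro b
    have e1 : ψ (alg b) = (ψ.comp alg) b := rfl
    rw [e1, ← eval₂_C_X (p := b), hom_eval₂]
    have e2 : (ψ.comp alg).comp C = ι.comp (alg.comp C) := by
      ext t
      have e3 : (alg (C t)) = algebraMap k (RatFunc k) t := rfl
      simp only [RingHom.comp_apply, e3, hE.alg, hE'.alg]
    rw [e2, eval₂_C_X, RingHom.comp_apply, halg, RatFunc.algebraMap_X]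
  have hQev : (Q.map alg).eval₂ ι (ψ RatFunc.X) = 0 := by
    rw [eval₂_map, hQ, eval₂_add, eval₂_add, eval₂_mul, eval₂_mul, eval₂_C, eval₂_C, eval₂_map,
      eval₂_map, eval₂_map, RingHom.comp_assoc, ← hψpoly, ← hψpoly, ← hψpoly, RingHom.comp_apply,
      RingHom.comp_apply, map_pow, map_pow]
    have e1 : alg X = RatFunc.X := RatFunc.algebraMap_X
    rw [e1]
    linear_combination hcomb
  -- division by the minimal polynomial
  set m : (RatFunc k)[X] := X ^ 2 - C (2 * p) * X + C (p ^ 2 - q ^ 2 * alg F) with hm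
  have hm' : m = quadP (-(2 * p)) (-(p ^ 2 - q ^ 2 * alg F)) := by
    rw [hm, quadP, C_neg, C_neg]; ring
  have hmm : m.Monic := hm' ▸ quadP_monic _ _
  have hmd : m.natDegree = 2 := hm' ▸ quadP_natDegree _ _
  have hmev : m.eval₂ ι (ψ RatFunc.X) = 0 := by
    rw [hm, eval₂_add, eval₂_sub, eval₂_mul, eval₂_pow, eval₂_X, eval₂_C, eval₂_C, hx]
    simp only [map_sub, map_mul, map_pow, map_ofNat]
    linear_combination (ι q) ^ 2 * hy2
  have hrem : Q.map alg %ₘ m = 0 := by
    have e1 : (Q.map alg %ₘ m).eval₂ ι (ψ RatFunc.X) = 0 := by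
      have := congrArg (fun P => P.eval₂ ι (ψ RatFunc.X)) (modByMonic_add_div (Q.map alg) m)
      simp only [eval₂_add, eval₂_mul, hmev, zero_mul, add_zero, hQev] at this
      exact this
    have e2 : (Q.map alg %ₘ m).natDegree ≤ 1 := by
      have := natDegree_modByMonic_lt (Q.map alg) hmm (by
        intro h
        rw [h, natDegree_one] at hmd
        omega)
      rw [hmd] at this
      omega
    rw [eq_X_add_C_of_natDegree_le_one e2] at e1 ⊢
    set s := (Q.map alg %ₘ m).coeff 1
    set r := (Q.map alg %ₘ m).coeff 0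
    rw [eval₂_add, eval₂_mul, eval₂_C, eval₂_C, eval₂_X, hx] at e1
    have e3 : ι (r + s * p) + ι (s * q) * y = 0 := by
      rw [map_add, map_mul, map_mul]
      linear_combination e1
    obtain ⟨e4, e5⟩ := hE.indep _ _ e3
    have e6 : s = 0 := (mul_eq_zero.mp e5).resolve_right hq
    rw [e6, zero_mul, add_zero] at e4
    rw [e6, e4, C_0, zero_mul, add_zero]
  exact no_small_relation hF hd hq hQ0 hQN ((modByMonic_eq_zero_iff_dvd hmm).mp hrem)

theorem moebius_of_adjoin_top {p : RatFunc k} (htop : IntermediateField.adjoin k {p} = ⊤) :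
    ∃ a b c d : k, a * d - b * c ≠ 0 ∧ p.num = C a * X + C b ∧ p.denom = C c * X + C d := by
  have h1 := RatFunc.finrank_eq_max_natDegree p
  rw [htop, IntermediateField.finrank_top] at h1
  have h2 : p.num.natDegree ≤ 1 := by omega
  have h3 : p.denom.natDegree ≤ 1 := by omega
  have e1 := eq_X_add_C_of_natDegree_le_one h2
  have e2 := eq_X_add_C_of_natDegree_le_one h3
  refine ⟨p.num.coeff 1, p.num.coeff 0, p.denom.coeff 1, p.denom.coeff 0, ?_, e1, e2⟩
  set a := p.num.coeff 1
  set b := p.num.coeff 0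
  set c := p.denom.coeff 1
  set d := p.denom.coeff 0
  intro hdet
  have h4 : C c * p.num = C a * p.denom := by
    rw [e1, e2, mul_add, mul_add, ← mul_assoc, ← mul_assoc, ← C_mul, ← C_mul, ← C_mul, ← C_mul]
    have : c * b = a * d := by linear_combination -hdet
    rw [this, mul_comm c a]
  have h5 : p.denom ∣ C c := by
    apply p.isCoprime_num_denom.symm.dvd_of_dvd_mul_right
    rw [h4]
    exact Dvd.intro_left _ rfl
  have hc : c = 0 := by
    by_contra hc
    have h6 : IsUnit p.denom := isUnit_of_dvd_unit h5 (isUnit_C.mpr (Ne.isUnit hc))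
    have h7 := natDegree_eq_zero_of_isUnit h6
    exact hc (coeff_eq_zero_of_natDegree_lt (by omega))
  have hd0 : d ≠ 0 := by
    intro hd0
    apply p.denom_ne_zero
    rw [e2, hc, hd0]; simp
  have ha : a = 0 := by
    rw [hc, mul_zero, sub_zero] at hdet
    exact (mul_eq_zero.mp hdet).resolve_right hd0
  have h8 : p.num.natDegree = 0 := by rw [e1, ha]; simp
  have h9 : p.denom.natDegree = 0 := by rw [e2, hc]; simp
  omega

/-- Two presentations of the same hyperelliptic function field come from equivalent forms. -/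
theorem bridge_core [CharZero k] {g : ℕ} (hg : 2 ≤ g) {F f f₂ : k[X]} (hF : Squarefree F)
    (hd : F.natDegree = 2 * g + 1 ∨ F.natDegree = 2 * g + 2)
    (hdeg : max (2 * f₂.natDegree) f.natDegree ≤ 2 * g + 2)
    {ι ψ : RatFunc k →+* E} {y y₁ : E}
    (hE : QData E 0 (algebraMap k[X] (RatFunc k) F) ι y)
    (hE' : QData E (algebraMap k[X] (RatFunc k) f₂) (algebraMap k[X] (RatFunc k) f) ψ y₁) :
    Eqv (g + 1) F (4 * f + f₂ ^ 2) := by
  set alg := algebraMap k[X] (RatFunc k) with halg
  have hιinj : Function.Injective ι := hE.injective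
  have hψinj : Function.Injective ψ := hE'.injective
  obtain ⟨p, q, hx⟩ := hE.rep (ψ RatFunc.X)
  have hq : q = 0 := bridge_step1 hF (by omega) hE hE' hx
  rw [hq, map_zero, zero_mul, add_zero] at hx
  have hy2 : y ^ 2 = ι (alg F) := by
    have := hE.rel
    rw [map_zero, zero_mul, add_zero, sub_eq_zero] at this
    exact this
  -- ψ on polynomials
  have hψpoly : ∀ b : k[X], ψ (alg b) = ι (aeval p b) := by
    intro b
    have e1 : ψ (alg b) = (ψ.comp alg) b := rfl
    rw [e1, ← eval₂_C_X (p := b), hom_eval₂]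
    have e2 : (ψ.comp alg).comp C = ι.comp (algebraMap k (RatFunc k)) := by
      ext t
      have e3 : (alg (C t)) = algebraMap k (RatFunc k) t := rfl
      simp only [RingHom.comp_apply, e3, hE.alg, hE'.alg]
    rw [e2, eval₂_C_X, RingHom.comp_apply, halg, RatFunc.algebraMap_X, hx, aeval_def, hom_eval₂]
  have hψrat : ∀ r : RatFunc k, aeval p r.denom ≠ 0 ∧
      ψ r = ι (aeval p r.num / aeval p r.denom) := by
    intro r
    have e0 : ψ (alg r.denom) ≠ 0 := by
      rw [Ne, map_eq_zero_iff ψ hψinj]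
      exact RatFunc.algebraMap_ne_zero r.denom_ne_zero
    have e1 : aeval p r.denom ≠ 0 := by
      intro h0
      rw [hψpoly, h0, map_zero] at e0
      exact e0 rfl
    refine ⟨e1, ?_⟩
    have e2 : ψ r * ι (aeval p r.denom) = ι (aeval p r.num) := by
      rw [← hψpoly, ← hψpoly, ← map_mul, num_eq_mul_denom]
    have e3 : ι (aeval p r.denom) * ι ((aeval p r.denom)⁻¹) = 1 := by
      rw [← map_mul, mul_inv_cancel₀ e1, map_one]
    rw [div_eq_mul_inv, map_mul, ← e2, mul_assoc, e3, mul_one]
  -- the new y-coordinate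
  obtain ⟨p2, q2, hy1⟩ := hE.rep y₁
  have hq2 : q2 ≠ 0 := by
    intro h0
    rw [h0, map_zero, zero_mul, add_zero] at hy1
    obtain ⟨r, s, h1⟩ := hE'.rep y
    rw [(hψrat r).2, (hψrat s).2, hy1, ← map_mul, ← map_add] at h1
    have h2 : ι (-(aeval p r.num / aeval p r.denom + aeval p s.num / aeval p s.denom * p2)) +
        ι 1 * y = 0 := by
      rw [map_neg, map_one, one_mul]
      linear_combination h1
    exact one_ne_zero (hE.indep _ _ h2).2
  -- k(p) = k(x)
  have htop : IntermediateField.adjoin k {p} = ⊤ := by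
    obtain ⟨r, s, h1⟩ := hE'.rep (ι RatFunc.X)
    rw [(hψrat r).2, (hψrat s).2, hy1] at h1
    have h2 : ι (aeval p r.num / aeval p r.denom + aeval p s.num / aeval p s.denom * p2 -
        RatFunc.X) + ι (aeval p s.num / aeval p s.denom * q2) * y = 0 := by
      rw [map_sub, map_add, map_mul, map_mul, h1]
      ring
    obtain ⟨h3, h4⟩ := hE.indep _ _ h2
    rw [(mul_eq_zero.mp h4).resolve_right hq2, zero_mul, add_zero, sub_eq_zero] at h3
    rw [eq_top_iff, ← RatFunc.adjoin_X, IntermediateField.adjoin_simple_le_iff, ← h3,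
      IntermediateField.mem_adjoin_simple_iff]
    exact ⟨_, _, rfl⟩
  obtain ⟨a, b, c, d, hdet, hnum, hden⟩ := moebius_of_adjoin_top htop
  have hp : p = alg (C a * X + C b) / alg (C c * X + C d) := by
    rw [← hnum, ← hden]; exact (RatFunc.num_div_denom p).symm
  -- completing the square
  have hyq : y₁ ^ 2 + ψ (alg f₂) * y₁ - ψ (alg f) = 0 := hE'.rel
  set f' := 4 * f + f₂ ^ 2 with hf'
  have hf'd : f'.natDegree ≤ 2 * g + 2 := by
    rw [hf']
    refine (natDegree_add_le _ _).trans (max_le ?_ ?_)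
    · have : (4 : k[X]) = C 4 := (map_ofNat (C : k →+* k[X]) 4).symm
      rw [this]
      exact (natDegree_C_mul_le _ _).trans ((le_max_right _ _).trans hdeg)
    · exact natDegree_pow_le.trans ((le_max_left _ _).trans hdeg)
  have hY2 : (2 * y₁ + ψ (alg f₂)) ^ 2 = ι (aeval p f') := by
    rw [← hψpoly, hf', map_add, map_mul, map_pow, map_add, map_mul, map_pow, map_ofNat, map_ofNat]
    linear_combination 4 * hyq
  have hY : 2 * y₁ + ψ (alg f₂) = ι (2 * p2 + aeval p f₂) + ι (2 * q2) * y := by
    rw [hψpoly, hy1, map_add, map_mul, map_mul, map_ofNat]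
    ring
  set P2 := 2 * p2 + aeval p f₂ with hP2
  set Q2 := 2 * q2 with hQ2
  have hQ2ne : Q2 ≠ 0 := mul_ne_zero two_ne_zero hq2
  rw [hY] at hY2
  have h5 : ι (P2 ^ 2 + Q2 ^ 2 * alg F - aeval p f') + ι (2 * P2 * Q2) * y = 0 := by
    rw [map_sub, ← hY2]
    simp only [map_add, map_mul, map_pow, map_ofNat]
    linear_combination -(ι Q2) ^ 2 * hy2
  obtain ⟨h6, h7⟩ := hE.indep _ _ h5
  have hP20 : P2 = 0 := by
    rcases mul_eq_zero.mp h7 with h | h
    · exact (mul_eq_zero.mp h).resolve_left two_ne_zero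
    · exact absurd h hQ2ne
  rw [hP20, zero_pow two_ne_zero, zero_add, sub_eq_zero] at h6
  -- polynomial identity
  have hcd : c ≠ 0 ∨ d ≠ 0 := by
    by_contra hcon
    push Not at hcon
    exact hdet (by rw [hcon.1, hcon.2]; ring)
  have hact := algebraMap_act (2 * g + 2) (a := a) (b := b) hcd hf'd
  rw [← halg, ← hp, ← h6] at hact
  set T := alg (C c * X + C d) ^ (g + 1) * Q2 with hT
  have hTF : T ^ 2 * alg F = alg (act (2 * g + 2) a b c d f') := by
    rw [hact, hT]; ring
  obtain ⟨t, ht⟩ := exists_poly_of_sq_mul hF hTF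
  have hTF' : t ^ 2 * F = act (2 * g + 2) a b c d f' := by
    apply RatFunc.algebraMap_injective k
    rw [map_mul, map_pow, ← ht]
    exact hTF
  have hTne : T ≠ 0 := by
    rw [hT]
    refine mul_ne_zero (pow_ne_zero _ (RatFunc.algebraMap_ne_zero ?_)) hQ2ne
    rw [← hden]; exact p.denom_ne_zero
  have htne : t ≠ 0 := by
    rintro rfl
    rw [ht, map_zero] at hTne
    exact hTne rfl
  have hdegt : t.natDegree = 0 := by
    have h8 := natDegree_act_le (2 * g + 2) a b c d f'
    rw [← hTF', natDegree_mul (pow_ne_zero 2 htne) hF.ne_zero, natDegree_pow] at h8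
    omega
  obtain ⟨τ, rfl⟩ : ∃ τ : k, t = C τ := ⟨_, eq_C_of_natDegree_eq_zero hdegt⟩
  have hτ : τ ≠ 0 := by
    rintro rfl
    exact htne C_0
  have hEq : Eqv (g + 1) f' F := by
    refine ⟨a, b, c, d, τ⁻¹, hdet, inv_ne_zero hτ, ?_⟩
    rw [show g + 1 + (g + 1) = 2 * g + 2 by ring, ← hTF', ← C_pow, ← mul_assoc, ← C_mul,
      inv_pow, inv_mul_cancel₀ (pow_ne_zero 2 hτ), C_1, one_mul]
  exact hEq.symm (by omega)

theorem quad_qdata (b c : RatFunc k) :
    QData (AdjoinRoot (quadP b c)) b c (AdjoinRoot.of (quadP b c)) (AdjoinRoot.root (quadP b c)) where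
  rep := quad_rep b c
  indep _ _ := quad_indep b c
  rel := quad_root b c
  alg _ := rfl

theorem QData.transport {E' : Type*} [CommRing E'] [Algebra k E'] {b c : RatFunc k}
    {ι : RatFunc k →+* E} {y : E} (h : QData E b c ι y) (φ : E ≃ₐ[k] E') :
    QData E' b c ((φ : E →+* E').comp ι) (φ y) where
  rep z := by
    obtain ⟨r, s, hrs⟩ := h.rep (φ.symm z)
    refine ⟨r, s, ?_⟩
    have := congrArg φ hrs
    rw [AlgEquiv.apply_symm_apply, map_add, map_mul] at this
    exact this
  indep r s hrs := by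
    apply h.indep
    apply φ.injective
    rw [map_add, map_mul, map_zero]
    exact hrs
  rel := by
    have := congrArg φ h.rel
    rw [map_sub, map_add, map_pow, map_mul, map_zero] at this
    exact this
  alg t := by
    rw [RingHom.comp_apply, h.alg]
    exact φ.commutes t

/-- Isomorphic hyperelliptic function fields come from equivalent binary forms. -/
theorem bridge [CharZero k] {g : ℕ} (hg : 2 ≤ g) {F f f₂ : k[X]} (hF : Squarefree F)
    (hd : F.natDegree = 2 * g + 1 ∨ F.natDegree = 2 * g + 2)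
    (hdeg : max (2 * f₂.natDegree) f.natDegree ≤ 2 * g + 2)
    (φ : FunField k f f₂ ≃ₐ[k] FunField k F 0) : Eqv (g + 1) F (4 * f + f₂ ^ 2) := by
  have h1 := quad_qdata (k := k) (algebraMap k[X] (RatFunc k) 0) (algebraMap k[X] (RatFunc k) F)
  have h2 := (quad_qdata (k := k) (algebraMap k[X] (RatFunc k) f₂)
    (algebraMap k[X] (RatFunc k) f)).transport φ
  have h3 := QData.congr (E := FunField k F 0) h1 (map_zero (algebraMap k[X] (RatFunc k)))
  exact bridge_core hg hF hd hdeg h3 h2

end Pool.Agent.W318
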