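import Pool.Agent.W318.Matching

namespace Pool.Agent.W318

open Finset

theorem exists_cluster (h : ℕ) (hh : 1 ≤ h) (d : Fin (h + h) → Fin (h + h) → ℝ)
    (h0 : ∀ i, d i i = 0) (hsymm : ∀ i j, d i j = d j i)
    (hle : ∀ i j, d i j ≤ 1) (hpos : ∀ i j, i ≠ j → 0 < d i j)
    (hultra : ∀ i j k, d i k ≤ max (d i j) (d j k)) :
    ∃ (s : ℝ) (i₀ : Fin (h + h)) (e : Fin h ⊕ Fin h ≃ Fin (h + h)),
      0 < s ∧ s ≤ 1 ∧ h + 1 ≤ (univ.filter (fun j => d i₀ j ≤ s)).card ∧
      ∀ i, d (e (Sum.inl i)) (e (Sum.inr i)) * s =
        max s (d i₀ (e (Sum.inl i))) * max s (d i₀ (e (Sum.inr i))) := by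
  classical
  set T : Finset (Fin (h + h) × Fin (h + h)) := univ.filter
    (fun p => h + 1 ≤ (univ.filter (fun k => d p.1 k ≤ d p.1 p.2)).card) with hT
  have hTne : T.Nonempty := by
    obtain ⟨j, _, hj⟩ := Finset.exists_max_image univ (d ⟨0, by omega⟩) ⟨⟨0, by omega⟩, mem_univ _⟩
    refine ⟨(⟨0, by omega⟩, j), ?_⟩
    rw [hT, mem_filter]
    refine ⟨mem_univ _, ?_⟩
    have : (univ.filter (fun k => d (⟨0, by omega⟩ : Fin (h + h)) k ≤ d ⟨0, by omega⟩ j)) = univ := by
      ext k
      simp only [mem_filter, mem_univ, true_and, iff_true]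
      exact hj k (mem_univ _)
    simp only [this, card_univ, Fintype.card_fin]
    omega
  obtain ⟨p, hpT, hpmin⟩ := Finset.exists_min_image T (fun p => d p.1 p.2) hTne
  obtain ⟨i₀, j₀⟩ := p
  set s := d i₀ j₀ with hs
  rw [hT, mem_filter] at hpT
  have hcardD : h + 1 ≤ (univ.filter (fun j => d i₀ j ≤ s)).card := hpT.2
  have hsmall : ∀ i, (univ.filter (fun k => d i k < s)).card ≤ h := by
    intro i
    by_contra hcon
    push Not at hcon
    have hne : (univ.filter (fun k => d i k < s)).Nonempty := by
      rw [← card_pos]; omega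
    obtain ⟨j, hj, hjmax⟩ := Finset.exists_max_image _ (d i) hne
    rw [mem_filter] at hj
    have hmem : ((i, j) : Fin (h + h) × Fin (h + h)) ∈ T := by
      rw [hT, mem_filter]
      refine ⟨mem_univ _, ?_⟩
      refine (Nat.succ_le_of_lt hcon).trans (card_le_card fun k hk => ?_)
      have := hjmax k hk
      simp only [mem_filter, mem_univ, true_and] at hk ⊢
      exact this
    have := hpmin _ hmem
    simp only at this
    linarith [hj.2]
  have hs0 : 0 < s := by
    by_contra hcon
    push Not at hcon
    have : (univ.filter (fun j => d i₀ j ≤ s)) ⊆ {i₀} := by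
      intro j hj
      rw [mem_filter] at hj
      rw [mem_singleton]
      by_contra hne
      have := hpos i₀ j (fun h => hne h.symm)
      linarith [hj.2]
    have := card_le_card this
    rw [card_singleton] at this
    omega
  have hs1 : s ≤ 1 := hle _ _
  set S : Fin (h + h) → Finset (Fin (h + h)) := fun j => univ.filter (fun k => d j k < s) with hS
  set cls : Fin (h + h) → ℕ := fun j =>
    if d i₀ j ≤ s then (Fintype.equivFin (Finset (Fin (h + h))) (S j)).val + 1 else 0 with hcls
  have hselfmem : ∀ j, j ∈ S j := by
    intro j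
    simp only [hS, mem_filter, mem_univ, true_and, h0, hs0]
  have hSeq : ∀ j j', d j j' < s → S j = S j' := by
    intro j j' hjj
    ext k
    simp only [hS, mem_filter, mem_univ, true_and]
    constructor
    · intro hk
      refine (hultra j' j k).trans_lt (max_lt ?_ hk)
      rw [hsymm]; exact hjj
    · intro hk
      exact (hultra j j' k).trans_lt (max_lt hjj hk)
  have hfib : ∀ x, (univ.filter (fun j => cls j = x)).card ≤ h := by
    intro x
    rcases Nat.eq_zero_or_pos x with hx | hx
    · subst hx
      have hsub : (univ.filter (fun j => cls j = 0)) ⊆ (univ.filter (fun j => d i₀ j ≤ s))ᶜ := by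
        intro j hj
        simp only [mem_filter, mem_univ, true_and, hcls, mem_compl] at hj ⊢
        intro hle'
        rw [if_pos hle'] at hj
        omega
      have := card_le_card hsub
      rw [card_compl, Fintype.card_fin] at this
      omega
    · by_cases hne : (univ.filter (fun j => cls j = x)).Nonempty
      · obtain ⟨j, hj⟩ := hne
        refine (card_le_card ?_).trans (hsmall j)
        intro k hk
        simp only [mem_filter, mem_univ, true_and] at hj hk ⊢
        have hjk : cls j = cls k := by rw [hj, hk]
        have hj1 : d i₀ j ≤ s := by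
          by_contra hcon
          simp only [hcls, if_neg hcon] at hj
          omega
        have hk1 : d i₀ k ≤ s := by
          by_contra hcon
          simp only [hcls, if_neg hcon] at hk
          omega
        simp only [hcls, if_pos hj1, if_pos hk1, Nat.add_right_cancel_iff] at hjk
        have hSS : S j = S k := (Fintype.equivFin _).injective (Fin.ext hjk)
        have := hselfmem k
        rw [← hSS] at this
        simpa [hS] using this
      · rw [not_nonempty_iff_eq_empty] at hne
        rw [hne]; simp
  obtain ⟨e, he⟩ := exists_matching h cls hfib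
  refine ⟨s, i₀, e, hs0, hs1, hcardD, fun i => ?_⟩
  have hne := he i
  set j := e (Sum.inl i)
  set j' := e (Sum.inr i)
  by_cases hj : d i₀ j ≤ s <;> by_cases hj' : d i₀ j' ≤ s
  · rw [max_eq_left hj, max_eq_left hj']
    congr 1
    apply le_antisymm
    · refine (hultra j i₀ j').trans (max_le ?_ hj')
      rw [hsymm]; exact hj
    · by_contra hcon
      push Not at hcon
      apply hne
      simp only [hcls, if_pos hj, if_pos hj', hSeq j j' hcon]
  · push Not at hj'
    rw [max_eq_left hj, max_eq_right hj'.le, mul_comm s]
    congr 1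
    apply le_antisymm
    · refine (hultra j i₀ j').trans (max_le ?_ le_rfl)
      rw [hsymm]; linarith
    · rcases le_max_iff.mp (hultra i₀ j j') with h1 | h1
      · linarith
      · exact h1
  · push Not at hj
    rw [max_eq_right hj.le, max_eq_left hj']
    congr 1
    apply le_antisymm
    · refine (hultra j i₀ j').trans (max_le ?_ ?_)
      · rw [hsymm]
      · linarith
    · rcases le_max_iff.mp (hultra i₀ j' j) with h1 | h1
      · linarith
      · rw [hsymm j j']; exact h1
  · exfalso
    apply hne
    simp only [hcls, if_neg hj, if_neg hj']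

end Pool.Agent.W318
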