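import Pool.Agent.W318.LocalBound

namespace Pool.Agent.W318

open Polynomial Finset

section map

variable {k k' : Type*} [Field k] [Field k']

theorem discr_map (f : k →+* k') (F : k[X]) : (F.map f).discr = f F.discr := by
  by_cases h0 : F.natDegree = 0
  · rw [eq_C_of_natDegree_eq_zero h0, Polynomial.map_C, discr_C, discr_C, map_one]
  · have hpos : 0 < F.natDegree := Nat.pos_of_ne_zero h0
    have h1 := resultant_deriv (natDegree_pos_iff_degree_pos.mp hpos)
    have hd : (F.map f).natDegree = F.natDegree := natDegree_map f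
    have h2 := resultant_deriv (f := F.map f)
      (natDegree_pos_iff_degree_pos.mp (by rw [hd]; exact hpos))
    rw [derivative_map, hd, resultant_map_map, h1, leadingCoeff_map] at h2
    simp only [map_mul, map_pow, map_neg, map_one] at h2
    have hF0 : F ≠ 0 := by
      rintro rfl
      simp at h0
    have hlc : f F.leadingCoeff ≠ 0 := by
      rw [Ne, map_eq_zero]
      exact leadingCoeff_ne_zero.mpr hF0
    have hs : (-1 : k') ^ (F.natDegree * (F.natDegree - 1) / 2) * f F.leadingCoeff ≠ 0 :=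
      mul_ne_zero (pow_ne_zero _ (by simp)) hlc
    exact (mul_left_cancel₀ hs h2).symm

theorem discN_map (f : k →+* k') (n : ℕ) (F : k[X]) : discN n (F.map f) = f (discN n F) := by
  unfold discN
  rw [natDegree_map, discr_map, leadingCoeff_map]
  split_ifs
  · rfl
  · rw [map_mul, map_pow]

end map

section compare

variable {M : Type*} [Field M] {A : AbsoluteValue M ℝ}
  {h : ℕ} {u : M} {α β : Fin (h + h) → M}

theorem sq_act_prod [Infinite M] {a b c d : M} (hdet : a * d - b * c ≠ 0) (l : M) :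
    C (l ^ 2) * act (h + h) a b c d (C u * ∏ i, (C (α i) * X + C (β i))) =
      C (l ^ 2 * u) * ∏ i, (C (α i * a + β i * c) * X + C (α i * b + β i * d)) := by
  have hcd : c ≠ 0 ∨ d ≠ 0 := by
    by_contra hcon
    push Not at hcon
    exact hdet (by rw [hcon.1, hcon.2]; ring)
  rw [act_prod (h + h) hcd, C_mul, mul_assoc]

theorem disc_sq_act [Infinite M] (hu : u ≠ 0)
    (hne : ∀ i j, i ≠ j → α i * β j - α j * β i ≠ 0) (hh : 2 ≤ h)
    {a b c d : M} (hdet : a * d - b * c ≠ 0) {l : M} (hl : l ≠ 0) :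
    A (discN (h + h) (C (l ^ 2) * act (h + h) a b c d (C u * ∏ i, (C (α i) * X + C (β i))))) =
      (A l ^ 2 * A (a * d - b * c) ^ h) ^ (2 * (h + h - 1)) *
        A (discN (h + h) (C u * ∏ i, (C (α i) * X + C (β i)))) := by
  classical
  rw [sq_act_prod hdet]
  have hbr : ∀ i j, (α i * a + β i * c) * (α j * b + β j * d) -
      (α j * a + β j * c) * (α i * b + β i * d) = (a * d - b * c) * (α i * β j - α j * β i) := by
    intro i j; ring
  have h1 := abs_discN_prod_lin A (mul_ne_zero (pow_ne_zero 2 hl) hu)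
    (fun i => α i * a + β i * c) (fun i => α i * b + β i * d)
    (fun i j hij => by
      rw [hbr]; exact mul_ne_zero hdet (hne i j hij)) (by rw [Fintype.card_fin]; omega)
  have h2 := abs_discN_prod_lin A hu α β hne (by rw [Fintype.card_fin]; omega)
  rw [Fintype.card_fin] at h1 h2
  rw [h1, h2]
  simp only [hbr, map_mul, map_pow]
  have h3 : ∏ i : Fin (h + h), ∏ j ∈ univ.erase i,
      (A (a * d - b * c) * A (α i * β j - α j * β i)) =
      (A (a * d - b * c) ^ h) ^ (2 * (h + h - 1)) *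
        ∏ i, ∏ j ∈ univ.erase i, A (α i * β j - α j * β i) := by
    simp only [Finset.prod_mul_distrib, Finset.prod_const, Finset.card_erase_of_mem (mem_univ _),
      Finset.card_univ, Fintype.card_fin]
    congr 1
    rw [← pow_mul, ← pow_mul]
    congr 1
    ring
  rw [h3]
  ring

theorem pairs_le (hna : IsNonarchimedean A) [Infinite M] (e : Fin h ⊕ Fin h ≃ Fin (h + h))
    {a b c d : M} (hdet : a * d - b * c ≠ 0) (l : M) :
    (A l ^ 2 * A (a * d - b * c) ^ h) *
      (A u * ∏ i, A (α (e (Sum.inl i)) * β (e (Sum.inr i)) -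
          α (e (Sum.inr i)) * β (e (Sum.inl i)))) ≤
    (C (l ^ 2) * act (h + h) a b c d (C u * ∏ i, (C (α i) * X + C (β i)))).gaussNorm A 1 := by
  rw [sq_act_prod hdet, gaussNorm_prod_lin hna, prod_equiv e, map_mul, map_pow]
  have h1 : A (a * d - b * c) ^ h = ∏ _i : Fin h, A (a * d - b * c) := by simp
  have h2 : A l ^ 2 * A (a * d - b * c) ^ h * (A u * ∏ i, A (α (e (Sum.inl i)) * β (e (Sum.inr i)) -
          α (e (Sum.inr i)) * β (e (Sum.inl i)))) = A l ^ 2 * A u *
        ∏ i, (A (a * d - b * c) * A (α (e (Sum.inl i)) * β (e (Sum.inr i)) -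
          α (e (Sum.inr i)) * β (e (Sum.inl i)))) := by
    rw [Finset.prod_mul_distrib, ← h1]; ring
  rw [h2]
  refine mul_le_mul_of_nonneg_left ?_ (mul_nonneg (pow_nonneg (A.nonneg _) _) (A.nonneg _))
  refine Finset.prod_le_prod (fun i _ => mul_nonneg (A.nonneg _) (A.nonneg _)) fun i _ => ?_
  rw [← map_mul]
  set i1 := e (Sum.inl i)
  set i2 := e (Sum.inr i)
  have h3 : (a * d - b * c) * (α i1 * β i2 - α i2 * β i1) =
      (α i1 * a + β i1 * c) * (α i2 * b + β i2 * d) -
        (α i2 * a + β i2 * c) * (α i1 * b + β i1 * d) := by ring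
  rw [h3]
  refine (na_sub_le hna _ _).trans (max_le ?_ ?_)
  · rw [map_mul]
    exact mul_le_mul (le_max_left _ _) (le_max_right _ _) (A.nonneg _)
      (le_max_of_le_left (A.nonneg _))
  · rw [map_mul, mul_comm]
    exact mul_le_mul (le_max_right _ _) (le_max_left _ _) (A.nonneg _)
      (le_max_of_le_left (A.nonneg _))

theorem compare_disc (hna : IsNonarchimedean A) [Infinite M] (hu : u ≠ 0)
    (hne : ∀ i j, i ≠ j → α i * β j - α j * β i ≠ 0) (hh : 2 ≤ h)
    (e : Fin h ⊕ Fin h ≃ Fin (h + h)) {Q : ℝ} (hQ0 : 0 ≤ Q)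
    (hQ : Q ≤ A u * ∏ i, A (α (e (Sum.inl i)) * β (e (Sum.inr i)) -
          α (e (Sum.inr i)) * β (e (Sum.inl i))))
    {a b c d : M} (hdet : a * d - b * c ≠ 0) {l : M} (hl : l ≠ 0)
    (hint : (C (l ^ 2) * act (h + h) a b c d
      (C u * ∏ i, (C (α i) * X + C (β i)))).gaussNorm A 1 ≤ 1) :
    A (discN (h + h) (C (l ^ 2) * act (h + h) a b c d (C u * ∏ i, (C (α i) * X + C (β i))))) *
      Q ^ (2 * (h + h - 1)) ≤ A (discN (h + h) (C u * ∏ i, (C (α i) * X + C (β i)))) := by
  rw [disc_sq_act hu hne hh hdet hl]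
  set t := A l ^ 2 * A (a * d - b * c) ^ h with ht
  have ht0 : 0 ≤ t := mul_nonneg (pow_nonneg (A.nonneg _) _) (pow_nonneg (A.nonneg _) _)
  have h1 : t * Q ≤ 1 := by
    calc t * Q ≤ t * (A u * ∏ i, A (α (e (Sum.inl i)) * β (e (Sum.inr i)) -
          α (e (Sum.inr i)) * β (e (Sum.inl i)))) := mul_le_mul_of_nonneg_left hQ ht0
      _ ≤ 1 := (pairs_le hna e hdet l).trans hint
  have h2 : (t * Q) ^ (2 * (h + h - 1)) ≤ 1 := pow_le_one₀ (mul_nonneg ht0 hQ0) h1
  calc _ = (t * Q) ^ (2 * (h + h - 1)) *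
        A (discN (h + h) (C u * ∏ i, (C (α i) * X + C (β i)))) := by rw [mul_pow]; ring
    _ ≤ 1 * A (discN (h + h) (C u * ∏ i, (C (α i) * X + C (β i)))) :=
        mul_le_mul_of_nonneg_right h2 (A.nonneg _)
    _ = _ := one_mul _

end compare

end Pool.Agent.W318
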