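import Pool.Agent.W318.Disc

namespace Pool.Agent.W318

open Polynomial Finset

section factor

variable {M : Type*} [Field M] (A : AbsoluteValue M ℝ)

theorem exists_factor (n : ℕ) : ∀ (G : M[X]), G ≠ 0 → G.Splits → G.natDegree ≤ n →
    ∃ (u : M) (α β : Fin n → M), u ≠ 0 ∧ (∀ i, max (A (α i)) (A (β i)) = 1) ∧
      G = C u * ∏ i, (C (α i) * X + C (β i)) := by
  induction n with
  | zero =>
    intro G hG _ hd
    have h0 : G = C (G.coeff 0) := eq_C_of_natDegree_le_zero hd
    refine ⟨G.coeff 0, Fin.elim0, Fin.elim0, fun h => hG (by rw [h0, h, C_0]),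
      fun i => i.elim0, ?_⟩
    simpa using h0
  | succ n ih =>
    intro G hG hs hd
    by_cases hd' : G.natDegree ≤ n
    · obtain ⟨u, α, β, hu, hm, he⟩ := ih G hG hs hd'
      refine ⟨u, Fin.cons 0 α, Fin.cons 1 β, hu, ?_, ?_⟩
      · intro i
        refine Fin.cases ?_ (fun j => ?_) i
        · simp
        · simpa using hm j
      · rw [Fin.prod_univ_succ]
        simpa using he
    · have hdeg : G.natDegree = n + 1 := by omega
      obtain ⟨r, hr⟩ := hs.exists_eval_eq_zero (by
        intro h
        have := natDegree_eq_zero_iff_degree_le_zero.mpr h.le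
        omega)
      obtain ⟨G', hG'⟩ := dvd_iff_isRoot.mpr (show G.IsRoot r from hr)
      have hG'0 : G' ≠ 0 := by
        rintro rfl
        exact hG (by simpa using hG')
      have hs' : G'.Splits := by
        rw [hG'] at hs
        exact splits_X_sub_C_mul_iff.mp hs
      have hd'' : G'.natDegree ≤ n := by
        rw [hG', natDegree_mul (X_sub_C_ne_zero r) hG'0, natDegree_X_sub_C] at hdeg
        omega
      obtain ⟨u, α, β, hu, hm, he⟩ := ih G' hG'0 hs' hd''
      by_cases hr1 : A r ≤ 1
      · refine ⟨u, Fin.cons 1 α, Fin.cons (-r) β, hu, ?_, ?_⟩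
        · intro i
          refine Fin.cases ?_ (fun j => ?_) i
          · simpa using hr1
          · simpa using hm j
        · rw [Fin.prod_univ_succ, hG', he]
          simp only [Fin.cons_zero, Fin.cons_succ, C_1, C_neg]
          ring
      · push Not at hr1
        have hr0 : r ≠ 0 := by
          rintro rfl
          simp at hr1
          linarith
        refine ⟨u * r, Fin.cons (1 / r) α, Fin.cons (-1) β, mul_ne_zero hu hr0, ?_, ?_⟩
        · intro i
          refine Fin.cases ?_ (fun j => ?_) i
          · simp only [Fin.cons_zero, map_div₀, map_one, map_neg_eq_map]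
            exact max_eq_right (by rw [div_le_one (by linarith)]; exact hr1.le)
          · simpa using hm j
        · rw [Fin.prod_univ_succ, hG', he]
          simp only [Fin.cons_zero, Fin.cons_succ, C_1, C_neg]
          have : (C r * C (1 / r) : M[X]) = 1 := by
            rw [← C_mul, mul_one_div_cancel hr0, C_1]
          have h2 : (C (u * r) : M[X]) * ((C (1 / r) * X + -1) *
              ∏ i, (C (α i) * X + C (β i))) = C u * ((C r * C (1 / r)) * X - C r) *
              ∏ i, (C (α i) * X + C (β i)) := by
            rw [C_mul]; ring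
          rw [h2, this]
          ring

variable {A} (hna : IsNonarchimedean A)

theorem gaussNorm_lin (a b : M) : (C a * X + C b : M[X]).gaussNorm A 1 = max (A a) (A b) := by
  apply le_antisymm
  · obtain ⟨i, hi⟩ := (C a * X + C b : M[X]).exists_eq_gaussNorm A 1
    rw [hi, one_pow, mul_one]
    match i with
    | 0 => simp
    | 1 => simp
    | (j + 2) =>
      have : (C a * X + C b : M[X]).coeff (j + 2) = 0 := by
        apply coeff_eq_zero_of_natDegree_lt
        have := natDegree_lin_le a b
        omega
      rw [this, map_zero]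
      exact le_max_of_le_left (A.nonneg _)
  · have h0 := (C a * X + C b : M[X]).le_gaussNorm A zero_le_one 0
    have h1 := (C a * X + C b : M[X]).le_gaussNorm A zero_le_one 1
    simp at h0 h1
    exact max_le h1 h0

include hna in
theorem gaussNorm_prod_lin {ι : Type*} (s : Finset ι) (u : M) (α β : ι → M) :
    (C u * ∏ i ∈ s, (C (α i) * X + C (β i))).gaussNorm A 1 =
      A u * ∏ i ∈ s, max (A (α i)) (A (β i)) := by
  classical
  rw [gaussNorm_mul hna one_pos, gaussNorm_C]
  congr 1
  induction s using Finset.induction_on with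
  | empty =>
    rw [Finset.prod_empty, Finset.prod_empty, ← C_1, gaussNorm_C, map_one]
  | insert i s hi ih =>
    rw [Finset.prod_insert hi, Finset.prod_insert hi, gaussNorm_mul hna one_pos, ih,
      gaussNorm_lin]

theorem coeff_le_gaussNorm (F : M[X]) (i : ℕ) : A (F.coeff i) ≤ F.gaussNorm A 1 := by
  simpa using F.le_gaussNorm A zero_le_one i

theorem exists_coeff_eq_gaussNorm (F : M[X]) : ∃ i, F.gaussNorm A 1 = A (F.coeff i) := by
  simpa using F.exists_eq_gaussNorm A 1

theorem gaussNorm_le_one_iff (F : M[X]) : F.gaussNorm A 1 ≤ 1 ↔ ∀ i, A (F.coeff i) ≤ 1 := by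
  constructor
  · intro h i
    exact (coeff_le_gaussNorm F i).trans h
  · intro h
    obtain ⟨i, hi⟩ := exists_coeff_eq_gaussNorm (A := A) F
    rw [hi]; exact h i

end factor

end Pool.Agent.W318
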