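import Pool.Agent.W318.Cluster
import Pool.Agent.W318.Factor

namespace Pool.Agent.W318

open Polynomial Finset

section nonarch

variable {M : Type*} [Field M] {A : AbsoluteValue M ℝ} (hna : IsNonarchimedean A)

include hna

theorem na_sub_le (x y : M) : A (x - y) ≤ max (A x) (A y) := by
  rw [sub_eq_add_neg]
  have := hna x (-y)
  rwa [map_neg_eq_map] at this

theorem na_sub_eq {x y : M} (h : A y < A x) : A (x - y) = A x := by
  apply le_antisymm
  · exact (na_sub_le hna x y).trans (max_le le_rfl h.le)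
  · have h1 : A x ≤ max (A (x - y)) (A y) := by
      have := hna (x - y) y
      simpa using this
    rcases le_max_iff.mp h1 with h2 | h2
    · exact h2
    · linarith

theorem na_sum_le {ι : Type*} (s : Finset ι) (f : ι → M) {B : ℝ} (hB : 0 ≤ B)
    (h : ∀ i ∈ s, A (f i) ≤ B) : A (∑ i ∈ s, f i) ≤ B := by
  classical
  induction s using Finset.induction_on with
  | empty => simpa using hB
  | insert i s hi ih =>
    rw [Finset.sum_insert hi]
    refine (hna _ _).trans (max_le (h i (mem_insert_self _ _)) (ih fun j hj => h j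
      (mem_insert_of_mem hj)))

/-- chordal distance -/
theorem chord_ultra {ι : Type*} {α β : ι → M} (huni : ∀ i, max (A (α i)) (A (β i)) = 1)
    (i j k : ι) : A (α i * β k - α k * β i) ≤
      max (A (α i * β j - α j * β i)) (A (α j * β k - α k * β j)) := by
  have hα : ∀ i, A (α i) ≤ 1 := fun i => (le_max_left _ _).trans (huni i).le
  have hβ : ∀ i, A (β i) ≤ 1 := fun i => (le_max_right _ _).trans (huni i).le
  set x := α i * β j - α j * β i with hx
  set y := α j * β k - α k * β j with hy
  have key1 : A ((α i * β k - α k * β i) * α j) ≤ max (A x) (A y) := by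
    have : (α i * β k - α k * β i) * α j = x * α k + y * α i := by rw [hx, hy]; ring
    rw [this]
    refine (hna _ _).trans (max_le_max ?_ ?_)
    · rw [map_mul]; exact mul_le_of_le_one_right (A.nonneg _) (hα k)
    · rw [map_mul]; exact mul_le_of_le_one_right (A.nonneg _) (hα i)
  have key2 : A ((α i * β k - α k * β i) * β j) ≤ max (A x) (A y) := by
    have : (α i * β k - α k * β i) * β j = x * β k + y * β i := by rw [hx, hy]; ring
    rw [this]
    refine (hna _ _).trans (max_le_max ?_ ?_)
    · rw [map_mul]; exact mul_le_of_le_one_right (A.nonneg _) (hβ k)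
    · rw [map_mul]; exact mul_le_of_le_one_right (A.nonneg _) (hβ i)
  rcases le_total (A (α j)) (A (β j)) with hj | hj
  · have : A (β j) = 1 := by have := huni j; rwa [max_eq_right hj] at this
    rwa [map_mul, this, mul_one] at key2
  · have : A (α j) = 1 := by have := huni j; rwa [max_eq_left hj] at this
    rwa [map_mul, this, mul_one] at key1

end nonarch

section core

/-- The Gauss norm of the form `∏ (α i X + β i Z)` after substitution. -/
noncomputable def gn {K M : Type*} [Field K] [Field M] [Algebra K M] (A : AbsoluteValue M ℝ)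
    {h : ℕ} (α β : Fin (h + h) → M) (a b c d : K) : ℝ :=
  ∏ i, max (A (α i * algebraMap K M a + β i * algebraMap K M c))
    (A (α i * algebraMap K M b + β i * algebraMap K M d))

/-- Data for the local argument: a form of degree `2 h` over `K`, split over `M`, with integral
coefficients, whose discriminant cannot be made smaller by a `K`-rational substitution. -/
structure Core (K : Type*) {M : Type*} [Field K] [Field M] [Algebra K M] (A : AbsoluteValue M ℝ)
    (G : Subgroup (M ≃ₐ[K] M)) (q : ℝ) (ϖ : K) (h : ℕ) (u : M) (α β : Fin (h + h) → M) :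
    Prop where
  hna : IsNonarchimedean A
  hq0 : 0 < q
  hq1 : q < 1
  hϖ : A (algebraMap K M ϖ) = q
  hG : ∀ σ ∈ G, ∀ x, A (σ x) = A x
  dense : ∀ x : M, (∀ σ ∈ G, σ x = x) → ∀ ε > 0, ∃ a : K, A (x - algebraMap K M a) < ε
  hu : u ≠ 0
  hu1 : A u ≤ 1
  huni : ∀ i, max (A (α i)) (A (β i)) = 1
  hne : ∀ i j, i ≠ j → α i * β j - α j * β i ≠ 0
  hperm : ∀ σ ∈ G, ∀ j, ∃ j', α j' * σ (β j) = β j' * σ (α j)
  hgn : ∀ a b c d : K, a * d - b * c ≠ 0 → ∃ z : ℤ, A u * gn A α β a b c d = q ^ z
  hmin : ∀ a b c d l : K, a * d - b * c ≠ 0 → l ≠ 0 →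
    A (algebraMap K M l) ^ 2 * (A u * gn A α β a b c d) ≤ 1 →
    A (algebraMap K M l) ^ 2 * A (algebraMap K M (a * d - b * c)) ^ h ≤ 1

variable {K M : Type*} [Field K] [Field M] [Algebra K M] {A : AbsoluteValue M ℝ}
  {G : Subgroup (M ≃ₐ[K] M)} {q : ℝ} {ϖ : K} {h : ℕ} {u : M} {α β : Fin (h + h) → M}

theorem gn_swap (A : AbsoluteValue M ℝ) (α β : Fin (h + h) → M) (a b c d : K) :
    gn A β α a b c d = gn A α β c d a b := by
  unfold gn
  refine Finset.prod_congr rfl fun i _ => ?_
  rw [add_comm (β i * _) (α i * _), add_comm (β i * _) (α i * _)]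

theorem Core.swap (hc : Core K A G q ϖ h u α β) : Core K A G q ϖ h u β α where
  hna := hc.hna
  hq0 := hc.hq0
  hq1 := hc.hq1
  hϖ := hc.hϖ
  hG := hc.hG
  dense := hc.dense
  hu := hc.hu
  hu1 := hc.hu1
  huni i := by rw [max_comm]; exact hc.huni i
  hne i j hij h0 := hc.hne i j hij (by linear_combination -h0)
  hperm σ hσ j := by
    obtain ⟨j', hj'⟩ := hc.hperm σ hσ j
    exact ⟨j', hj'.symm⟩
  hgn a b c d h0 := by
    rw [gn_swap]
    exact hc.hgn c d a b (by intro h1; apply h0; linear_combination -h1)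
  hmin a b c d l h0 hl h1 := by
    rw [gn_swap] at h1
    have := hc.hmin c d a b l (by intro h1; apply h0; linear_combination -h1) hl h1
    have e : c * b - d * a = -(a * d - b * c) := by ring
    rwa [e, map_neg, map_neg_eq_map] at this

theorem Core.ϖ_ne (hc : Core K A G q ϖ h u α β) : ϖ ≠ 0 := by
  rintro rfl
  have := hc.hϖ
  rw [map_zero, map_zero] at this
  linarith [hc.hq0]

theorem Core.main1 [CharZero M] (hc : Core K A G q ϖ h u α β) (i₀ : Fin (h + h)) {s : ℝ}
    (hs0 : 0 < s) (hs1 : s < 1) {m : ℕ}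
    (hm : (univ.filter (fun j => A (α i₀ * β j - α j * β i₀) ≤ s)).card = m) (hm1 : h + 1 ≤ m)
    (hα0 : A (α i₀) = 1) :
    q ^ 2 * A (m : M) < s ∧ (A (m : M) = 1 → ∃ C : ℤ, C ≤ 2 * ((h / 2 : ℕ) : ℤ) + 1 ∧
      q ^ C ≤ A u * ∏ j, max q (max s (A (α i₀ * β j - α j * β i₀)))) := by
  classical
  set D := univ.filter (fun j => A (α i₀ * β j - α j * β i₀) ≤ s) with hD
  have hna := hc.hna
  have hq0 := hc.hq0
  have hq1 := hc.hq1
  have hϖ0 := hc.ϖ_ne
  have hα : ∀ i, A (α i) ≤ 1 := fun i => (le_max_left _ _).trans (hc.huni i).le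
  have hβ : ∀ i, A (β i) ≤ 1 := fun i => (le_max_right _ _).trans (hc.huni i).le
  have hmem : ∀ j, j ∈ D ↔ A (α i₀ * β j - α j * β i₀) ≤ s := by
    intro j; simp [hD]
  have hi₀D : i₀ ∈ D := by
    rw [hmem, mul_comm, sub_self, map_zero]; exact hs0.le
  -- members of the cluster are integral
  have hαD : ∀ j ∈ D, A (α j) = 1 := by
    intro j hj
    by_contra hne
    have hlt : A (α j) < 1 := lt_of_le_of_ne (hα j) hne
    have hβj : A (β j) = 1 := by
      have := hc.huni j
      rcases le_total (A (α j)) (A (β j)) with h1 | h1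
      · rwa [max_eq_right h1] at this
      · rw [max_eq_left h1] at this; exact absurd this hne
    have h1 : A (α i₀ * β j - α j * β i₀) = A (α i₀ * β j) := by
      apply na_sub_eq hna
      rw [map_mul, map_mul, hα0, hβj, mul_one]
      exact (mul_le_of_le_one_right (A.nonneg _) (hβ i₀)).trans_lt hlt
    rw [hmem, h1, map_mul, hα0, hβj, mul_one] at hj
    linarith
  set r : Fin (h + h) → M := fun j => -β j / α j with hr
  have hne0 : ∀ j, A (α j) = 1 → α j ≠ 0 := by
    intro j hj h0
    rw [h0, map_zero] at hj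
    exact zero_ne_one hj
  have hdr : ∀ j k, A (α j) = 1 → A (α k) = 1 → A (r j - r k) = A (α j * β k - α k * β j) := by
    intro j k hj hk
    have : r j - r k = (α j * β k - α k * β j) / (α j * α k) := by
      simp only [hr]
      have h1 := hne0 j hj
      have h2 := hne0 k hk
      field_simp
      ring
    rw [this, map_div₀, map_mul A (α j) (α k), hj, hk, one_mul, div_one]
  have hzero : ∀ j k, A (α j * β k - α k * β j) = 0 → j = k := by
    intro j k h0
    by_contra hjk
    exact hc.hne j k hjk (by rwa [AbsoluteValue.eq_zero] at h0)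
  have hDD : ∀ j ∈ D, ∀ k ∈ D, A (α j * β k - α k * β j) ≤ s := by
    intro j hj k hk
    rw [hmem] at hj hk
    refine (chord_ultra hna hc.huni j i₀ k).trans (max_le ?_ hk)
    have : α j * β i₀ - α i₀ * β j = -(α i₀ * β j - α j * β i₀) := by ring
    rwa [this, map_neg_eq_map]
  -- invariance of the sum of the roots in the cluster
  have hinv : ∀ σ ∈ G, σ (∑ k ∈ D, r k) = ∑ k ∈ D, r k := by
    intro σ hσ
    have hτ : ∀ j, ∃ j', A (α j) = 1 → A (α j') = 1 ∧ r j' = σ (r j) := by
      intro j
      obtain ⟨j', hj'⟩ := hc.hperm σ hσ j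
      refine ⟨j', fun hj => ?_⟩
      have hσα : A (σ (α j)) = 1 := by rw [hc.hG σ hσ]; exact hj
      have hσα0 : σ (α j) ≠ 0 := by
        intro h0; rw [h0, map_zero] at hσα; exact zero_ne_one hσα
      have hA : A (β j') = A (α j') * A (σ (β j)) := by
        have := congrArg A hj'
        rw [map_mul, map_mul, hσα, mul_one] at this
        exact this.symm
      have hle : A (β j') ≤ A (α j') := by
        rw [hA, hc.hG σ hσ]
        exact mul_le_of_le_one_right (A.nonneg _) (hβ j)
      have hone : A (α j') = 1 := by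
        have := hc.huni j'
        rwa [max_eq_left hle] at this
      refine ⟨hone, ?_⟩
      have h1 := hne0 j' hone
      simp only [hr, map_div₀, map_neg]
      rw [div_eq_div_iff h1 hσα0]
      linear_combination hj'
    choose τ hτ using hτ
    have hdτ : ∀ j k, A (α j) = 1 → A (α k) = 1 →
        A (α (τ j) * β (τ k) - α (τ k) * β (τ j)) = A (α j * β k - α k * β j) := by
      intro j k hj hk
      rw [← hdr _ _ (hτ j hj).1 (hτ k hk).1, (hτ j hj).2, (hτ k hk).2, ← map_sub,
        hc.hG σ hσ, hdr j k hj hk]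
    have hinj : Set.InjOn τ (D : Set (Fin (h + h))) := by
      intro j hj k hk hjk
      apply hzero
      rw [← hdτ j k (hαD j hj) (hαD k hk), hjk, mul_comm, sub_self, map_zero]
    have hcardI : (D.image τ).card = m := by rw [card_image_of_injOn hinj, hm]
    obtain ⟨x, hx⟩ := Finset.inter_nonempty_of_card_lt_card_add_card
      (subset_univ (D.image τ)) (subset_univ D)
      (by rw [card_univ, Fintype.card_fin, hcardI, hm]; omega)
    rw [mem_inter, mem_image] at hx
    obtain ⟨⟨j, hj, rfl⟩, hjD⟩ := hx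
    have hmaps : ∀ k ∈ D, τ k ∈ D := by
      intro k hk
      rw [hmem]
      refine (chord_ultra hna hc.huni i₀ (τ j) (τ k)).trans (max_le ((hmem _).mp hjD) ?_)
      rw [hdτ j k (hαD j hj) (hαD k hk)]
      exact hDD j hj k hk
    have himage : D.image τ = D := by
      apply Finset.eq_of_subset_of_card_le
      · intro x hx
        rw [mem_image] at hx
        obtain ⟨k, hk, rfl⟩ := hx
        exact hmaps k hk
      · rw [hcardI, hm]
    rw [map_sum]
    conv_rhs => rw [← himage]
    rw [Finset.sum_image hinj]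
    exact Finset.sum_congr rfl fun k hk => ((hτ k (hαD k hk)).2).symm
  have hmpos : 0 < m := by omega
  have hmM : (m : M) ≠ 0 := Nat.cast_ne_zero.mpr (by omega)
  have hAm : 0 < A (m : M) := A.pos hmM
  have hAm1 : A (m : M) ≤ 1 := hna.apply_natCast_le_one
  set b : M := (∑ k ∈ D, r k) / m with hb
  have hbinv : ∀ σ ∈ G, σ b = b := by
    intro σ hσ
    rw [hb, map_div₀, hinv σ hσ, map_natCast]
  have hbr : A (b - r i₀) ≤ s / A (m : M) := by
    have : b - r i₀ = (∑ k ∈ D, (r k - r i₀)) / m := by
      rw [Finset.sum_sub_distrib, Finset.sum_const, hm, nsmul_eq_mul, hb]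
      field_simp
    rw [this, map_div₀]
    gcongr
    apply na_sum_le hna _ _ hs0.le
    intro k hk
    rw [hdr k i₀ (hαD k hk) hα0]
    exact hDD k hk i₀ hi₀D
  have hs' : 0 < s / A (m : M) := div_pos hs0 hAm
  have hss' : s ≤ s / A (m : M) := by
    rw [le_div_iff₀ hAm]
    exact mul_le_of_le_one_right hs0.le hAm1
  obtain ⟨a, ha⟩ := hc.dense b hbinv _ hs'
  set a' := algebraMap K M a with ha'
  have har0 : A (a' - r i₀) ≤ s / A (m : M) := by
    have : a' - r i₀ = (b - r i₀) - (b - a') := by ring
    rw [this]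
    exact (na_sub_le hna _ _).trans (max_le hbr ha.le)
  have har : ∀ j ∈ D, A (a' - r j) ≤ s / A (m : M) := by
    intro j hj
    have : a' - r j = (a' - r i₀) + (r i₀ - r j) := by ring
    rw [this]
    refine (hna _ _).trans (max_le har0 ?_)
    rw [hdr i₀ j hα0 (hαD j hj)]
    exact ((hmem j).mp hj).trans hss'
  have hAr : A (r i₀) ≤ 1 := by
    simp only [hr, map_div₀, map_neg_eq_map, hα0, div_one]
    exact hβ i₀
  constructor
  · -- first bound
    by_contra hcon
    push Not at hcon
    have hs'2 : s / A (m : M) ≤ q ^ 2 := by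
      rw [div_le_iff₀ hAm]; exact hcon
    have hq2 : q ^ 2 < 1 := pow_lt_one₀ hq0.le hq1 (by norm_num)
    have ha1 : A a' ≤ 1 := by
      have : a' = (a' - r i₀) + r i₀ := by ring
      rw [this]
      exact (hna _ _).trans (max_le (by linarith) hAr)
    have hdet : ϖ ^ 2 * 1 - a * 0 ≠ 0 := by
      simpa using pow_ne_zero 2 hϖ0
    have hl : (ϖ⁻¹) ^ (h + 1) ≠ 0 := pow_ne_zero _ (inv_ne_zero hϖ0)
    have hterm : ∀ i, max (A (α i * algebraMap K M (ϖ ^ 2) + β i * algebraMap K M 0))
        (A (α i * algebraMap K M a + β i * algebraMap K M 1)) ≤ if i ∈ D then q ^ 2 else 1 := by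
      intro i
      have h1 : A (α i * algebraMap K M (ϖ ^ 2) + β i * algebraMap K M 0) ≤ q ^ 2 := by
        rw [map_zero, mul_zero, add_zero, map_mul, map_pow, map_pow, hc.hϖ]
        exact mul_le_of_le_one_left (by positivity) (hα i)
      split_ifs with hi
      · refine max_le h1 ?_
        have h2 := hne0 i (hαD i hi)
        have : α i * algebraMap K M a + β i * algebraMap K M 1 = α i * (a' - r i) := by
          rw [map_one, ← ha']
          simp only [hr]
          field_simp
          ring
        rw [this, map_mul, hαD i hi, one_mul]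
        exact (har i hi).trans hs'2
      · refine max_le (h1.trans hq2.le) ?_
        refine (hna _ _).trans (max_le ?_ ?_)
        · rw [map_mul]
          exact mul_le_one₀ (hα i) (A.nonneg _) ha1
        · rw [map_one, mul_one]; exact hβ i
    have hgn : gn A α β (ϖ ^ 2) a 0 1 ≤ (q ^ 2) ^ (h + 1) := by
      unfold gn
      calc _ ≤ ∏ i, (if i ∈ D then q ^ 2 else 1) :=
            Finset.prod_le_prod (fun i _ => le_max_of_le_left (A.nonneg _)) fun i _ => hterm i
        _ = (q ^ 2) ^ m := by
            rw [Finset.prod_ite, Finset.prod_const, Finset.prod_const_one, mul_one]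
            congr 1
            rw [← hm]
            congr 1
            ext j; simp
        _ ≤ (q ^ 2) ^ (h + 1) := pow_le_pow_of_le_one (by positivity) hq2.le hm1
    have := hc.hmin (ϖ ^ 2) a 0 1 _ hdet hl (by
      rw [map_pow, map_pow, map_inv₀, map_inv₀, hc.hϖ]
      calc (q⁻¹ ^ (h + 1)) ^ 2 * (A u * gn A α β (ϖ ^ 2) a 0 1)
          ≤ (q⁻¹ ^ (h + 1)) ^ 2 * (1 * (q ^ 2) ^ (h + 1)) := by
            gcongr
            · exact Finset.prod_nonneg fun i _ => le_max_of_le_left (A.nonneg _)
            · exact hc.hu1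
        _ = 1 := by
            rw [one_mul, ← pow_mul, ← pow_mul, mul_comm (h + 1) 2, ← mul_pow,
              inv_mul_cancel₀ hq0.ne', one_pow])
    rw [map_pow, map_pow, map_inv₀, map_inv₀, hc.hϖ] at this
    have e : A (algebraMap K M (ϖ ^ 2 * 1 - a * 0)) = q ^ 2 := by
      rw [mul_one, mul_zero, sub_zero, map_pow, map_pow, hc.hϖ]
    rw [e] at this
    have e2 : (q⁻¹ ^ (h + 1)) ^ 2 * (q ^ 2) ^ h = (q ^ 2)⁻¹ := by
      have hq := hq0.ne'
      rw [inv_pow, inv_pow, ← pow_mul, ← pow_mul]
      have : q ^ ((h + 1) * 2) = q ^ (2 * h) * q ^ 2 := by rw [← pow_add]; ring_nf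
      rw [this]
      field_simp
    rw [e2] at this
    have h3 : 1 < (q ^ 2)⁻¹ := (one_lt_inv₀ (by positivity)).mpr hq2
    linarith
  · intro hAm1'
    rw [hAm1', div_one] at har0
    have hdet : ϖ * 1 - a * 0 ≠ 0 := by simpa using hϖ0
    obtain ⟨C, hC⟩ := hc.hgn ϖ a 0 1 hdet
    refine ⟨C, ?_, ?_⟩
    · have hl : ϖ ^ (-(C / 2)) ≠ 0 := zpow_ne_zero _ hϖ0
      have := hc.hmin ϖ a 0 1 _ hdet hl (by
        rw [hC, map_zpow₀, map_zpow₀, hc.hϖ, ← zpow_natCast, ← zpow_mul, ← zpow_add₀ hq0.ne']
        apply zpow_le_one₀ hq0 hq1.le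
        push_cast
        omega)
      rw [map_zpow₀, map_zpow₀, hc.hϖ] at this
      have e : A (algebraMap K M (ϖ * 1 - a * 0)) = q := by
        rw [mul_one, mul_zero, sub_zero, hc.hϖ]
      rw [e, ← zpow_natCast, ← zpow_mul, ← zpow_natCast q h, ← zpow_add₀ hq0.ne'] at this
      by_contra hcon
      push Not at hcon
      have hneg : -(C / 2) * ((2 : ℕ) : ℤ) + (h : ℤ) < 0 := by
        push_cast
        omega
      have h3 : 1 < q ^ (-(C / 2) * ((2 : ℕ) : ℤ) + (h : ℤ)) := one_lt_zpow_of_neg₀ hq0 hq1 hneg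
      linarith
    · rw [← hC]
      gcongr
      unfold gn
      refine Finset.prod_le_prod (fun i _ => le_max_of_le_left (A.nonneg _)) fun i _ => ?_
      refine max_le_max ?_ ?_
      · rw [map_zero, mul_zero, add_zero, map_mul, hc.hϖ]
        exact mul_le_of_le_one_left hq0.le (hα i)
      · have h1 := hne0 i₀ hα0
        have : α i * algebraMap K M a + β i * algebraMap K M 1 =
            α i * (a' - r i₀) + (α i₀ * β i - α i * β i₀) / α i₀ := by
          rw [map_one, ← ha']
          simp only [hr]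
          field_simp
          ring
        rw [this]
        refine (hna _ _).trans (max_le_max ?_ ?_)
        · rw [map_mul]
          calc _ ≤ 1 * s := mul_le_mul (hα i) har0 (A.nonneg _) zero_le_one
            _ = s := one_mul s
        · rw [map_div₀, hα0, div_one]

end core

end Pool.Agent.W318
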