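import Pool.Agent.W318.Act

namespace Pool.Agent.W318

open Polynomial Finset

section disc

variable {k : Type*} [Field k]

/-- The discriminant of `F` regarded as a binary form of degree `n`
(for `F` of degree `n` or `n - 1`). -/
noncomputable def discN (n : ℕ) (F : k[X]) : k :=
  if F.natDegree = n then F.discr else F.leadingCoeff ^ 2 * F.discr

variable {ι : Type*}

theorem prod_lin_eq (s : Finset ι) (u : k) (α β : ι → k) (hα : ∀ i ∈ s, α i ≠ 0) :
    C u * ∏ i ∈ s, (C (α i) * X + C (β i)) =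
      C (u * ∏ i ∈ s, α i) * ∏ i ∈ s, (X - C (-β i / α i)) := by
  rw [C_mul, mul_assoc, map_prod, ← Finset.prod_mul_distrib]
  congr 1
  refine Finset.prod_congr rfl fun i hi => ?_
  have h1 : C (α i) * C (-β i / α i) = (C (-β i) : k[X]) := by
    rw [← C_mul]
    congr 1
    field_simp [hα i hi]
  rw [mul_sub, h1, C_neg, sub_neg_eq_add]

theorem natDegree_prod_lin (s : Finset ι) {u : k} (hu : u ≠ 0) (α β : ι → k)
    (hα : ∀ i ∈ s, α i ≠ 0) :
    (C u * ∏ i ∈ s, (C (α i) * X + C (β i))).natDegree = s.card := by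
  rw [prod_lin_eq s u α β hα, natDegree_C_mul
    (mul_ne_zero hu (Finset.prod_ne_zero_iff.mpr hα)), natDegree_finsetProd_X_sub_C_eq_card]

theorem leadingCoeff_prod_lin (s : Finset ι) {u : k} (α β : ι → k)
    (hα : ∀ i ∈ s, α i ≠ 0) :
    (C u * ∏ i ∈ s, (C (α i) * X + C (β i))).leadingCoeff = u * ∏ i ∈ s, α i := by
  rw [prod_lin_eq s u α β hα, leadingCoeff_mul, leadingCoeff_C,
    (monic_prod_of_monic _ _ fun i _ => monic_X_sub_C _).leadingCoeff, mul_one]

theorem roots_prod_lin (s : Finset ι) {u : k} (hu : u ≠ 0) (α β : ι → k)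
    (hα : ∀ i ∈ s, α i ≠ 0) :
    (C u * ∏ i ∈ s, (C (α i) * X + C (β i))).roots = s.val.map fun i => -β i / α i := by
  rw [prod_lin_eq s u α β hα, roots_C_mul _ (mul_ne_zero hu (Finset.prod_ne_zero_iff.mpr hα))]
  have : (∏ i ∈ s, (X - C (-β i / α i)) : k[X]) =
      ((s.val.map fun i => -β i / α i).map fun a => X - C a).prod := by
    rw [Multiset.map_map]; rfl
  rw [this, roots_multiset_prod_X_sub_C]

theorem splits_prod_lin (s : Finset ι) {u : k} (α β : ι → k)
    (hα : ∀ i ∈ s, α i ≠ 0) :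
    (C u * ∏ i ∈ s, (C (α i) * X + C (β i))).Splits := by
  rw [prod_lin_eq s u α β hα]
  exact (Splits.C _).mul (Splits.prod fun i _ => Splits.X_sub_C _)

variable [DecidableEq ι]

theorem derivative_eval_prod_lin (s : Finset ι) (u : k) (α β : ι → k) {i : ι} (hi : i ∈ s)
    (hα : α i ≠ 0) :
    (C u * ∏ i ∈ s, (C (α i) * X + C (β i))).derivative.eval (-β i / α i) =
      u * α i * ∏ j ∈ s.erase i, ((α i * β j - α j * β i) / α i) := by
  have : C u * ∏ i ∈ s, (C (α i) * X + C (β i)) =
      (C (α i) * X + C (β i)) * (C u * ∏ i ∈ s.erase i, (C (α i) * X + C (β i))) := by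
    rw [← Finset.mul_prod_erase s _ hi]; ring
  rw [this, derivative_mul, eval_add, eval_mul, eval_mul, eval_mul]
  have h0 : (C (α i) * X + C (β i) : k[X]).eval (-β i / α i) = 0 := by
    simp only [eval_add, eval_mul, eval_C, eval_X]
    field_simp
    ring
  rw [h0, zero_mul, add_zero]
  have h1 : (C (α i) * X + C (β i) : k[X]).derivative = C (α i) := by
    simp [derivative_mul]
  rw [h1, eval_C, eval_C, eval_prod]
  have h2 : ∀ j ∈ s.erase i, (C (α j) * X + C (β j) : k[X]).eval (-β i / α i) =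
      (α i * β j - α j * β i) / α i := by
    intro j _
    simp only [eval_add, eval_mul, eval_C, eval_X]
    field_simp
    ring
  rw [Finset.prod_congr rfl h2]
  ring

theorem abs_discr_prod_lin (A : AbsoluteValue k ℝ) (s : Finset ι) {u : k} (hu : u ≠ 0)
    (α β : ι → k) (hα : ∀ i ∈ s, α i ≠ 0) (hs : 2 ≤ s.card) :
    A (C u * ∏ i ∈ s, (C (α i) * X + C (β i))).discr =
      A u ^ (2 * (s.card - 1)) * ∏ i ∈ s, ∏ j ∈ s.erase i, A (α i * β j - α j * β i) := by
  set F := C u * ∏ i ∈ s, (C (α i) * X + C (β i)) with hF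
  have hdeg : F.natDegree = s.card := natDegree_prod_lin s hu α β hα
  have hpos : 0 < F.degree := by
    rw [← natDegree_pos_iff_degree_pos]; omega
  have h1 := resultant_deriv hpos
  have h2 := resultant_eq_prod_eval F F.derivative (F.natDegree - 1) (natDegree_derivative_le F)
    (splits_prod_lin s α β hα)
  rw [h1, roots_prod_lin s hu α β hα, Multiset.map_map] at h2
  have h3 : (Multiset.map ((fun x => eval x (derivative F)) ∘ fun i => -β i / α i) s.val).prod =
      ∏ i ∈ s, (u * α i * ∏ j ∈ s.erase i, ((α i * β j - α j * β i) / α i)) := by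
    change ∏ i ∈ s, eval (-β i / α i) (derivative F) = _
    exact Finset.prod_congr rfl fun i hi => derivative_eval_prod_lin s u α β hi (hα i hi)
  rw [h3] at h2
  have h4 := congrArg A h2
  obtain ⟨m, hm⟩ : ∃ m, s.card = m + 2 := ⟨s.card - 2, by omega⟩
  have hP : (0 : ℝ) < ∏ i ∈ s, A (α i) := Finset.prod_pos fun i hi => A.pos (hα i hi)
  have hU : 0 < A u := A.pos hu
  have hlc : A F.leadingCoeff = A u * ∏ i ∈ s, A (α i) := by
    rw [hF, leadingCoeff_prod_lin s α β hα, map_mul, map_prod]
  have hprod : A (∏ i ∈ s, (u * α i * ∏ j ∈ s.erase i, ((α i * β j - α j * β i) / α i))) =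
      A u ^ s.card * (∏ i ∈ s, A (α i)) *
        ((∏ i ∈ s, ∏ j ∈ s.erase i, A (α i * β j - α j * β i)) /
          (∏ i ∈ s, A (α i)) ^ (s.card - 1)) := by
    rw [map_prod]
    have : ∀ i ∈ s, A (u * α i * ∏ j ∈ s.erase i, ((α i * β j - α j * β i) / α i)) =
        A u * A (α i) * ((∏ j ∈ s.erase i, A (α i * β j - α j * β i)) /
          A (α i) ^ (s.card - 1)) := by
      intro i hi
      rw [map_mul, map_mul, map_prod]
      congr 1
      simp only [map_div₀]
      rw [Finset.prod_div_distrib, Finset.prod_const, Finset.card_erase_of_mem hi]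
    rw [Finset.prod_congr rfl this, Finset.prod_mul_distrib, Finset.prod_mul_distrib,
      Finset.prod_const, Finset.prod_div_distrib, Finset.prod_pow]
  rw [map_mul, map_mul, map_mul, map_pow, map_pow, hprod, hdeg, hlc] at h4
  simp only [map_neg_eq_map, map_one, one_pow, one_mul] at h4
  rw [hm] at h4 ⊢
  simp only [show m + 2 - 1 = m + 1 by omega] at h4 ⊢
  generalize ∏ i ∈ s, A (α i) = P at *
  generalize ∏ i ∈ s, ∏ j ∈ s.erase i, A (α i * β j - α j * β i) = Q at *
  generalize A u = U at *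
  have h5 : U * P * A F.discr = U * P * (U ^ (2 * (m + 1)) * Q) := by
    rw [h4]
    field_simp
    ring
  exact mul_left_cancel₀ (mul_pos hU hP).ne' h5

theorem abs_discN_prod_lin (A : AbsoluteValue k ℝ) [Fintype ι] {u : k} (hu : u ≠ 0)
    (α β : ι → k) (hne : ∀ i j, i ≠ j → α i * β j - α j * β i ≠ 0)
    (hn : 3 ≤ Fintype.card ι) :
    A (discN (Fintype.card ι) (C u * ∏ i, (C (α i) * X + C (β i)))) =
      A u ^ (2 * (Fintype.card ι - 1)) *
        ∏ i, ∏ j ∈ univ.erase i, A (α i * β j - α j * β i) := by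
  by_cases hall : ∀ i, α i ≠ 0
  · have hdeg := natDegree_prod_lin univ hu α β fun i _ => hall i
    rw [Finset.card_univ] at hdeg
    rw [discN, if_pos hdeg, abs_discr_prod_lin A univ hu α β (fun i _ => hall i)
      (by rw [Finset.card_univ]; omega), Finset.card_univ]
  · push Not at hall
    obtain ⟨i₀, hi₀⟩ := hall
    have hβ : β i₀ ≠ 0 := by
      intro h0
      obtain ⟨j, hj⟩ : ∃ j, j ≠ i₀ := by
        have : 1 < Fintype.card ι := by omega
        rw [Fintype.one_lt_card_iff_nontrivial] at this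
        exact exists_ne i₀
      exact hne i₀ j hj.symm (by rw [hi₀, h0]; ring)
    have hα : ∀ i ∈ univ.erase i₀, α i ≠ 0 := by
      intro i hi h0
      exact hne i i₀ (Finset.ne_of_mem_erase hi) (by rw [hi₀, h0]; ring)
    have hFe : C u * ∏ i, (C (α i) * X + C (β i)) =
        C (u * β i₀) * ∏ i ∈ univ.erase i₀, (C (α i) * X + C (β i)) := by
      rw [← Finset.mul_prod_erase univ _ (Finset.mem_univ i₀), hi₀, C_mul]
      simp only [C_0, zero_mul, zero_add]
      ring
    have huβ : u * β i₀ ≠ 0 := mul_ne_zero hu hβ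
    have hcard : (univ.erase i₀ : Finset ι).card = Fintype.card ι - 1 := by
      rw [Finset.card_erase_of_mem (Finset.mem_univ _), Finset.card_univ]
    have hdeg := natDegree_prod_lin (univ.erase i₀) huβ α β hα
    rw [hcard] at hdeg
    rw [discN, hFe, if_neg (by omega), map_mul, map_pow, leadingCoeff_prod_lin _ α β hα,
      abs_discr_prod_lin A (univ.erase i₀) huβ α β hα (by omega), hcard]
    -- split off the index i₀ on the right
    have hR : ∏ i, ∏ j ∈ univ.erase i, A (α i * β j - α j * β i) =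
        (∏ j ∈ univ.erase i₀, A (α i₀ * β j - α j * β i₀)) *
          ∏ i ∈ univ.erase i₀, (A (α i * β i₀ - α i₀ * β i) *
            ∏ j ∈ (univ.erase i₀).erase i, A (α i * β j - α j * β i)) := by
      rw [← Finset.mul_prod_erase univ _ (Finset.mem_univ i₀)]
      congr 1
      refine Finset.prod_congr rfl fun i hi => ?_
      rw [Finset.erase_right_comm, Finset.mul_prod_erase (univ.erase i)
        (fun j => A (α i * β j - α j * β i))]
      exact Finset.mem_erase.mpr ⟨(Finset.ne_of_mem_erase hi).symm, Finset.mem_univ _⟩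
    rw [hR, Finset.prod_mul_distrib]
    have hA1 : ∏ j ∈ univ.erase i₀, A (α i₀ * β j - α j * β i₀) =
        (∏ j ∈ univ.erase i₀, A (α j)) * A (β i₀) ^ (Fintype.card ι - 1) := by
      rw [← hcard, ← Finset.prod_const, ← Finset.prod_mul_distrib]
      refine Finset.prod_congr rfl fun j _ => ?_
      rw [hi₀, zero_mul, zero_sub, map_neg_eq_map, map_mul]
    have hA2 : ∏ i ∈ univ.erase i₀, A (α i * β i₀ - α i₀ * β i) =
        (∏ j ∈ univ.erase i₀, A (α j)) * A (β i₀) ^ (Fintype.card ι - 1) := by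
      rw [← hcard, ← Finset.prod_const, ← Finset.prod_mul_distrib]
      refine Finset.prod_congr rfl fun j _ => ?_
      rw [hi₀, zero_mul, sub_zero, map_mul]
    rw [hA1, hA2, map_mul, map_mul, map_prod]
    obtain ⟨m, hm⟩ : ∃ m, Fintype.card ι = m + 3 := ⟨Fintype.card ι - 3, by omega⟩
    rw [hm]
    simp only [show m + 3 - 1 = m + 2 by omega, show m + 2 - 1 = m + 1 by omega]
    ring

end disc

end Pool.Agent.W318
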