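import Pool.Agent.W318.Eqv
import Pool.Agent.W318.Compare

namespace Pool.Agent.W318

open Polynomial Finset

section props

variable {k : Type*} [Field k]

/-- a form of degree `2 h` with distinct roots -/
def GoodForm (h : ℕ) (F : k[X]) : Prop :=
  Squarefree F ∧ (F.natDegree = h + h ∨ F.natDegree + 1 = h + h)

theorem goodForm_prod {h : ℕ} (hh : 1 ≤ h) {u : k} (hu : u ≠ 0) (α β : Fin (h + h) → k)
    (hne : ∀ i j, i ≠ j → α i * β j - α j * β i ≠ 0) :
    GoodForm h (C u * ∏ i, (C (α i) * X + C (β i))) := by
  classical
  have huC : IsUnit (C u : k[X]) := isUnit_C.mpr hu.isUnit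
  constructor
  · rw [(associated_isUnit_mul_left_iff huC).mpr (Associated.refl _) |>.squarefree_iff]
    apply Finset.squarefree_prod_of_pairwise_isCoprime
    · intro i _ j _ hij
      have h1 := hne i j hij
      change IsRelPrime (C (α i) * X + C (β i)) (C (α j) * X + C (β j))
      apply IsCoprime.isRelPrime
      refine ⟨C (α j / (α j * β i - α i * β j)), C (-α i / (α j * β i - α i * β j)), ?_⟩
      have h2 : α j * β i - α i * β j ≠ 0 := by
        intro h0; apply h1; linear_combination -h0
      rw [mul_add, mul_add, ← mul_assoc, ← mul_assoc, ← C_mul, ← C_mul, ← C_mul, ← C_mul]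
      have e1 : α j / (α j * β i - α i * β j) * α i + -α i / (α j * β i - α i * β j) * α j = 0 := by
        field_simp; ring
      have e2 : α j / (α j * β i - α i * β j) * β i + -α i / (α j * β i - α i * β j) * β j = 1 := by
        field_simp; ring
      calc _ = C (α j / (α j * β i - α i * β j) * α i + -α i / (α j * β i - α i * β j) * α j) * X +
          C (α j / (α j * β i - α i * β j) * β i + -α i / (α j * β i - α i * β j) * β j) := by
            rw [C_add, C_add]; ring
        _ = 1 := by rw [e1, e2]; simp
    · intro i _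
      by_cases hi : α i = 0
      · have hβ : β i ≠ 0 := by
          intro h0
          obtain ⟨j, hj⟩ : ∃ j : Fin (h + h), j ≠ i := by
            have : Nontrivial (Fin (h + h)) := Fin.nontrivial_iff_two_le.mpr (by omega)
            exact exists_ne i
          exact hne i j hj.symm (by rw [hi, h0]; ring)
        rw [hi, C_0, zero_mul, zero_add]
        exact (isUnit_C.mpr hβ.isUnit).squarefree
      · exact (irreducible_of_degree_eq_one (degree_linear hi)).squarefree
  · by_cases hall : ∀ i, α i ≠ 0
    · left
      rw [natDegree_prod_lin univ hu α β fun i _ => hall i, card_univ, Fintype.card_fin]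
    · right
      push Not at hall
      obtain ⟨i₀, hi₀⟩ := hall
      have hβ : β i₀ ≠ 0 := by
        intro h0
        obtain ⟨j, hj⟩ : ∃ j : Fin (h + h), j ≠ i₀ := by
          have : Nontrivial (Fin (h + h)) := Fin.nontrivial_iff_two_le.mpr (by omega)
          exact exists_ne i₀
        exact hne i₀ j hj.symm (by rw [hi₀, h0]; ring)
      have hα : ∀ i ∈ univ.erase i₀, α i ≠ 0 := by
        intro i hi h0
        exact hne i i₀ (Finset.ne_of_mem_erase hi) (by rw [hi₀, h0]; ring)
      have hFe : C u * ∏ i, (C (α i) * X + C (β i)) =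
          C (u * β i₀) * ∏ i ∈ univ.erase i₀, (C (α i) * X + C (β i)) := by
        rw [← Finset.mul_prod_erase univ _ (Finset.mem_univ i₀), hi₀, C_mul]
        simp only [C_0, zero_mul, zero_add]
        ring
      rw [hFe, natDegree_prod_lin _ (mul_ne_zero hu hβ) α β hα,
        card_erase_of_mem (mem_univ _), card_univ, Fintype.card_fin]
      omega

theorem discr_ne_zero [CharZero k] {F : k[X]} (hF : Squarefree F) (hd : 0 < F.natDegree) :
    F.discr ≠ 0 := by
  have hsep : F.Separable := PerfectField.separable_iff_squarefree.mpr hF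
  have h1 := resultant_deriv (natDegree_pos_iff_degree_pos.mp hd)
  have h2 := resultant_ne_zero F F.derivative hsep
  have h3 : F.derivative.natDegree = F.natDegree - 1 := by
    have := degree_derivative (p := F) hd.ne'
    exact natDegree_eq_of_degree_eq_some this
  rw [h3, h1] at h2
  exact right_ne_zero_of_mul h2

theorem discN_ne_zero [CharZero k] {h : ℕ} (hh : 1 ≤ h) {F : k[X]} (hF : GoodForm h F) :
    discN (h + h) F ≠ 0 := by
  have hd : 0 < F.natDegree := by have := hF.2; omega
  have h1 := discr_ne_zero hF.1 hd
  unfold discN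
  split_ifs
  · exact h1
  · exact mul_ne_zero (pow_ne_zero _ (leadingCoeff_ne_zero.mpr hF.1.ne_zero)) h1

theorem GoodForm.of_map {k' : Type*} [Field k'] (f : k →+* k') {h : ℕ} {F : k[X]}
    (hF : GoodForm h (F.map f)) : GoodForm h F := by
  refine ⟨?_, by have := hF.2; rwa [natDegree_map] at this⟩
  intro x hx
  have h1 : x.map f * x.map f ∣ F.map f := by
    rw [← Polynomial.map_mul]; exact Polynomial.map_dvd f hx
  have h2 := hF.1 _ h1
  have h3 := natDegree_eq_zero_of_isUnit h2
  rw [natDegree_map] at h3
  have hx0 : x ≠ 0 := by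
    rintro rfl
    rw [Polynomial.map_zero] at h2
    exact not_isUnit_zero h2
  rw [eq_C_of_natDegree_eq_zero h3] at hx0 ⊢
  rw [isUnit_C]
  exact (by simpa using hx0 : x.coeff 0 ≠ 0).isUnit

theorem GoodForm.map [CharZero k] {k' : Type*} [Field k'] (f : k →+* k') {h : ℕ} {F : k[X]}
    (hF : GoodForm h F) : GoodForm h (F.map f) := by
  refine ⟨?_, by rw [natDegree_map]; exact hF.2⟩
  have hsep : F.Separable := PerfectField.separable_iff_squarefree.mpr hF.1
  exact (hsep.map).squarefree

end props

end Pool.Agent.W318
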