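import Pool.Agent.W318.LocalMin

namespace Pool.Agent.W318

open Polynomial Finset NumberField IsDedekindDomain WithZero

section

variable {K : Type} [Field K] [NumberField K]

theorem finite_val_ne_one {x : K} (hx : x ≠ 0) :
    {v : HeightOneSpectrum (𝓞 K) | v.valuation K x ≠ 1}.Finite := by
  refine ((HeightOneSpectrum.Support.finite (R := 𝓞 K) x).union
    (HeightOneSpectrum.Support.finite (R := 𝓞 K) x⁻¹)).subset ?_
  intro v hv
  rw [Set.mem_ofPred_eq] at hv
  rcases lt_or_gt_of_ne hv with h | h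
  · right
    change 1 < v.valuation K x⁻¹
    rw [map_inv₀]
    exact (one_lt_inv₀ (by
      rw [zero_lt_iff]; exact (Valuation.ne_zero_iff _).mpr hx)).mpr h
  · left
    exact h

theorem finite_bad {g : ℕ} {F : K[X]} (hF : IsHyp g F) :
    {v : HeightOneSpectrum (𝓞 K) | minExp g F v ≠ 0}.Finite := by
  classical
  have h1 : (⋃ i ∈ F.support, {v : HeightOneSpectrum (𝓞 K) | v.valuation K (F.coeff i) ≠ 1}).Finite := by
    apply Set.Finite.biUnion (Finset.finite_toSet _)
    intro i hi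
    exact finite_val_ne_one (by simpa using hi)
  have h2 := finite_val_ne_one (K := K) (x := 2) two_ne_zero
  have h3 := finite_val_ne_one (discN_ne_zero (by omega) hF.good)
  refine ((h1.union h2).union h3).subset ?_
  intro v hv
  by_contra hcon
  simp only [Set.mem_union, not_or] at hcon
  obtain ⟨⟨hc1, hc2⟩, hc3⟩ := hcon
  simp only [Set.mem_iUnion, Set.mem_ofPred_eq, not_exists, not_not] at hc1
  rw [Set.mem_ofPred_eq, not_not] at hc2 hc3
  have hint : ∀ i, v.valuation K (F.coeff i) ≤ 1 := by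
    intro i
    by_cases hi : i ∈ F.support
    · exact (hc1 i hi).le
    · rw [notMem_support_iff.mp hi, map_zero]; exact zero_le
  have hd : F.natDegree ≤ g + 1 + (g + 1) := by have := hF.2; omega
  obtain ⟨k, hk, _, hle⟩ := minExp_le hF v (Eqv.refl hd) hint (t := 0)
    (by rw [hc2]; simp)
  rw [hc3, ← exp_zero, exp_inj] at hk
  apply hv
  have : k = 0 := by omega
  rw [this] at hle
  simpa using hle

theorem exists_mu (g : ℕ) (v : HeightOneSpectrum (𝓞 K)) :
    ∃ μ : ℕ, ∀ m : ℕ, 1 ≤ m → m ≤ 2 * g + 2 → exp (-(μ : ℤ)) ≤ v.valuation K (m : K) := by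
  have h1 : ∀ m : ℕ, ∃ k : ℕ, 1 ≤ m → exp (-(k : ℤ)) ≤ v.valuation K (m : K) := by
    intro m
    by_cases hm : 1 ≤ m
    · obtain ⟨j, hj⟩ := exists_exp v (Nat.cast_ne_zero.mpr (by omega : m ≠ 0) : (m : K) ≠ 0)
      refine ⟨(-j).toNat, fun _ => ?_⟩
      rw [hj, exp_le_exp]
      have := Int.self_le_toNat (-j)
      omega
    · exact ⟨0, fun h => absurd h hm⟩
  choose k hk using h1
  refine ⟨∑ m ∈ range (2 * g + 3), k m, fun m hm1 hm2 => ?_⟩
  refine le_trans ?_ (hk m hm1)
  rw [exp_le_exp, neg_le_neg_iff]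
  exact_mod_cast Finset.single_le_sum (fun _ _ => Nat.zero_le _) (mem_range.mpr (by omega))

theorem finite_small (K : Type) [Field K] [NumberField K] (g : ℕ) :
    {v : HeightOneSpectrum (𝓞 K) | ∃ m : ℕ, 1 ≤ m ∧ m ≤ 2 * g + 2 ∧
      v.valuation K (m : K) ≠ 1}.Finite := by
  have h1 : (⋃ m ∈ Finset.Icc 1 (2 * g + 2),
      {v : HeightOneSpectrum (𝓞 K) | v.valuation K (m : K) ≠ 1}).Finite := by
    apply Set.Finite.biUnion (Finset.finite_toSet _)
    intro m hm
    rw [Finset.coe_Icc, Set.mem_Icc] at hm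
    exact finite_val_ne_one (Nat.cast_ne_zero.mpr (by omega))
  refine h1.subset ?_
  rintro v ⟨m, h1, h2, h3⟩
  simp only [Set.mem_iUnion]
  exact ⟨m, Finset.mem_Icc.mpr ⟨h1, h2⟩, h3⟩

/-- The local error constant. -/
theorem exists_const (g : ℕ) (hg : 2 ≤ g) (v : HeightOneSpectrum (𝓞 K)) :
    ∃ Cv : ℕ, ((∀ m : ℕ, 1 ≤ m → m ≤ 2 * g + 2 → v.valuation K (m : K) = 1) → Cv = 0) ∧
      ∀ (F : K[X]), IsHyp g F → ∀ (L : Type) [Field L] [NumberField L] [Algebra K L]
        (w : HeightOneSpectrum (𝓞 L)) [w.asIdeal.LiesOver v.asIdeal],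
        v.asIdeal.ramificationIdx' w.asIdeal * minExp g F v ≤
          minExp g (F.map (algebraMap K L)) w +
            v.asIdeal.ramificationIdx' w.asIdeal * (kap g + Cv) := by
  obtain ⟨t, ht⟩ := exists_two_exp v
  by_cases htame : ∀ m : ℕ, 1 ≤ m → m ≤ 2 * g + 2 → v.valuation K (m : K) = 1
  · refine ⟨0, fun _ => rfl, fun F hF L _ _ _ w _ => ?_⟩
    exact (local_minExp hg hF v w ht).2 htame
  · obtain ⟨μ, hμ⟩ := exists_mu g v
    refine ⟨2 * (2 * g + 1) * (1 + (2 + μ) * (g + 1)) + (8 * g + 4) * t,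
      fun h => absurd h htame, fun F hF L _ _ _ w _ => ?_⟩
    refine ((local_minExp hg hF v w ht).1 μ hμ).trans ?_
    exact Nat.add_le_add_left (Nat.mul_le_mul_left _ (Nat.le_add_left _ _)) _

theorem exists_over {L : Type} [Field L] [NumberField L] [Algebra K L]
    (v : HeightOneSpectrum (𝓞 K)) : ∃ T : Finset (HeightOneSpectrum (𝓞 L)),
      (∀ w, w ∈ T ↔ w.asIdeal.LiesOver v.asIdeal) ∧
      ∑ w ∈ T, v.asIdeal.ramificationIdx' w.asIdeal * v.asIdeal.inertiaDeg' w.asIdeal =
        Module.finrank K L := by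
  classical
  have hmax : v.asIdeal.IsMaximal := v.isMaximal
  have hinj : Function.Injective (HeightOneSpectrum.asIdeal : HeightOneSpectrum (𝓞 L) → _) := by
    intro a b hab
    exact HeightOneSpectrum.ext hab
  have hfin : {w : HeightOneSpectrum (𝓞 L) | w.asIdeal.LiesOver v.asIdeal}.Finite := by
    apply Set.Finite.of_finite_image _ hinj.injOn
    apply (IsDedekindDomain.primesOverFinset v.asIdeal (𝓞 L)).finite_toSet.subset
    rintro P ⟨w, hw, rfl⟩
    rw [Finset.mem_coe, IsDedekindDomain.mem_primesOverFinset_iff v.ne_bot]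
    exact ⟨w.isPrime, hw⟩
  refine ⟨hfin.toFinset, fun w => by simp, ?_⟩
  rw [← Ideal.sum_ramification_inertia (𝓞 L) K L v.ne_bot]
  have himage : IsDedekindDomain.primesOverFinset v.asIdeal (𝓞 L) =
      hfin.toFinset.image HeightOneSpectrum.asIdeal := by
    ext P
    rw [IsDedekindDomain.mem_primesOverFinset_iff v.ne_bot, Finset.mem_image]
    constructor
    · rintro ⟨h1, h2⟩
      have hP : P ≠ ⊥ := by
        rintro rfl
        apply v.ne_bot
        rw [h2.over]
        exact Ideal.comap_bot_of_injective _ (FaithfulSMul.algebraMap_injective _ _)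
      exact ⟨⟨P, h1, hP⟩, by simpa using h2, rfl⟩
    · rintro ⟨w, hw, rfl⟩
      exact ⟨w.isPrime, by simpa using hw⟩
  rw [himage, Finset.sum_image hinj.injOn]

theorem one_le_absNorm (v : HeightOneSpectrum (𝓞 K)) : 1 ≤ Ideal.absNorm v.asIdeal :=
  Nat.one_le_iff_ne_zero.mpr (Ideal.absNorm_ne_zero_iff_mem_nonZeroDivisors.mpr
    (mem_nonZeroDivisors_of_ne_zero v.ne_bot))

theorem prod_over_ineq {L : Type} [Field L] [NumberField L] [Algebra K L]
    (v : HeightOneSpectrum (𝓞 K)) {T : Finset (HeightOneSpectrum (𝓞 L))}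
    (hT : ∀ w, w ∈ T ↔ w.asIdeal.LiesOver v.asIdeal)
    (hsum : ∑ w ∈ T, v.asIdeal.ramificationIdx' w.asIdeal * v.asIdeal.inertiaDeg' w.asIdeal =
        Module.finrank K L) {n κ : ℕ} {m : HeightOneSpectrum (𝓞 L) → ℕ}
    (hle : ∀ w ∈ T, v.asIdeal.ramificationIdx' w.asIdeal * n ≤
      m w + v.asIdeal.ramificationIdx' w.asIdeal * κ) :
    Ideal.absNorm v.asIdeal ^ (n * Module.finrank K L) ≤
      Ideal.absNorm v.asIdeal ^ (κ * Module.finrank K L) *
        ∏ w ∈ T, Ideal.absNorm w.asIdeal ^ m w := by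
  have hN := one_le_absNorm v
  set N := Ideal.absNorm v.asIdeal with hNdef
  have h1 : ∀ w ∈ T, Ideal.absNorm w.asIdeal = N ^ (v.asIdeal.inertiaDeg' w.asIdeal) := by
    intro w hw
    have := (hT w).mp hw
    exact Ideal.absNorm_eq_pow_inertiaDeg'_of_liesOver w.asIdeal v.asIdeal v.isPrime v.ne_bot
  have h2 : ∏ w ∈ T, Ideal.absNorm w.asIdeal ^ m w =
      N ^ (∑ w ∈ T, v.asIdeal.inertiaDeg' w.asIdeal * m w) := by
    rw [← Finset.prod_pow_eq_pow_sum]
    refine Finset.prod_congr rfl fun w hw => ?_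
    rw [h1 w hw, ← pow_mul]
  rw [h2, ← pow_add]
  apply Nat.pow_le_pow_right hN
  rw [← hsum, Finset.mul_sum, Finset.mul_sum, ← Finset.sum_add_distrib]
  refine Finset.sum_le_sum fun w hw => ?_
  have := Nat.mul_le_mul_left (v.asIdeal.inertiaDeg' w.asIdeal) (hle w hw)
  nlinarith

theorem discNorm_eq {g : ℕ} {F : K[X]} (S : Finset (HeightOneSpectrum (𝓞 K)))
    (hS : ∀ v, minExp g F v ≠ 0 → v ∈ S) :
    discNorm g F = ∏ v ∈ S, Ideal.absNorm v.asIdeal ^ minExp g F v := by
  apply finprod_eq_prod_of_mulSupport_subset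
  intro v hv
  rw [Function.mem_mulSupport] at hv
  apply hS
  intro h0
  rw [h0, pow_zero] at hv
  exact hv rfl

theorem badNorm_eq {g : ℕ} {F : K[X]} (S : Finset (HeightOneSpectrum (𝓞 K)))
    (hS : ∀ v, v ∈ S ↔ minExp g F v ≠ 0) :
    badNorm g F = ∏ v ∈ S, Ideal.absNorm v.asIdeal := by
  unfold badNorm
  rw [finprod_eq_prod_of_mulSupport_subset (s := S)]
  · refine Finset.prod_congr rfl fun v hv => ?_
    rw [if_neg ((hS v).mp hv)]
  · intro v hv
    rw [Function.mem_mulSupport] at hv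
    rw [Finset.mem_coe, hS]
    intro h0
    rw [if_pos h0] at hv
    exact hv rfl

end

theorem global_ineq (K : Type) [Field K] [NumberField K] (g : ℕ) (hg : 2 ≤ g) :
    ∃ c : ℕ, 0 < c ∧ ∀ F : K[X], IsHyp g F →
      ∀ (L : Type) [Field L] [NumberField L] [Algebra K L],
        discNorm g F ^ Module.finrank K L ≤ (c * badNorm g F ^ kap g) ^ Module.finrank K L *
          discNorm g (F.map (algebraMap K L)) := by
  classical
  choose Cv hCv0 hCv using fun v : HeightOneSpectrum (𝓞 K) => exists_const g hg v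
  have hfin := finite_small K g
  set S0 := hfin.toFinset with hS0
  refine ⟨∏ v ∈ S0, Ideal.absNorm v.asIdeal ^ Cv v,
    Finset.prod_pos fun v _ => Nat.pow_pos (one_le_absNorm v), ?_⟩
  intro F hF L _ _ _
  set d := Module.finrank K L with hd
  have hFL : IsHyp g (F.map (algebraMap K L)) := by
    have := hF.good.map (algebraMap K L)
    refine ⟨this.1, by have := this.2; omega⟩
  have hB := finite_bad hF
  have hBL := finite_bad hFL
  set B := hB.toFinset with hBdef
  have hBmem : ∀ v, v ∈ B ↔ minExp g F v ≠ 0 := fun v => by simp [hBdef]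
  choose T hT hsum using fun v : HeightOneSpectrum (𝓞 K) => exists_over (L := L) v
  set BL := hBL.toFinset ∪ B.biUnion T with hBLdef
  rw [discNorm_eq B (fun v hv => (hBmem v).mpr hv), badNorm_eq B hBmem,
    discNorm_eq BL (fun w hw => by
      rw [hBLdef, Finset.mem_union]; left; simpa using hw)]
  -- per place inequality
  have hv : ∀ v ∈ B, (Ideal.absNorm v.asIdeal ^ minExp g F v) ^ d ≤
      (Ideal.absNorm v.asIdeal ^ (kap g + Cv v)) ^ d *
        ∏ w ∈ T v, Ideal.absNorm w.asIdeal ^ minExp g (F.map (algebraMap K L)) w := by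
    intro v _
    rw [← pow_mul, ← pow_mul]
    apply prod_over_ineq v (hT v) (hsum v)
    intro w hw
    have := (hT v w).mp hw
    exact hCv v F hF L w
  have hdisj : (B : Set (HeightOneSpectrum (𝓞 K))).PairwiseDisjoint T := by
    intro v _ v' _ hne
    rw [Function.onFun, Finset.disjoint_left]
    intro w h1 h2
    apply hne
    have e1 := ((hT v w).mp h1).over
    have e2 := ((hT v' w).mp h2).over
    exact HeightOneSpectrum.ext (by rw [e1, e2])
  have hc : ∏ v ∈ B, Ideal.absNorm v.asIdeal ^ Cv v ≤ ∏ v ∈ S0, Ideal.absNorm v.asIdeal ^ Cv v := by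
    have h1 : ∏ v ∈ B, Ideal.absNorm v.asIdeal ^ Cv v =
        ∏ v ∈ B.filter (fun v => v ∈ S0), Ideal.absNorm v.asIdeal ^ Cv v := by
      rw [Finset.prod_filter]
      refine Finset.prod_congr rfl fun v _ => ?_
      split_ifs with h
      · rfl
      · have : Cv v = 0 := by
          apply hCv0
          intro m hm1 hm2
          by_contra hne
          apply h
          rw [hS0, Set.Finite.mem_toFinset]
          exact ⟨m, hm1, hm2, hne⟩
        rw [this, pow_zero]
    rw [h1]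
    apply Finset.prod_le_prod_of_subset_of_one_le'
    · intro v hv
      exact (Finset.mem_filter.mp hv).2
    · intro v _ _
      exact Nat.one_le_pow _ _ (one_le_absNorm v)
  calc (∏ v ∈ B, Ideal.absNorm v.asIdeal ^ minExp g F v) ^ d
      = ∏ v ∈ B, (Ideal.absNorm v.asIdeal ^ minExp g F v) ^ d := by rw [Finset.prod_pow]
    _ ≤ ∏ v ∈ B, ((Ideal.absNorm v.asIdeal ^ (kap g + Cv v)) ^ d *
        ∏ w ∈ T v, Ideal.absNorm w.asIdeal ^ minExp g (F.map (algebraMap K L)) w) :=
        Finset.prod_le_prod' hv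
    _ = ((∏ v ∈ B, Ideal.absNorm v.asIdeal ^ Cv v) *
          (∏ v ∈ B, Ideal.absNorm v.asIdeal) ^ kap g) ^ d *
        ∏ w ∈ B.biUnion T, Ideal.absNorm w.asIdeal ^ minExp g (F.map (algebraMap K L)) w := by
        rw [Finset.prod_biUnion hdisj, Finset.prod_mul_distrib, Finset.prod_pow]
        congr 2
        rw [← Finset.prod_pow, ← Finset.prod_mul_distrib]
        refine Finset.prod_congr rfl fun v _ => ?_
        rw [pow_add, mul_comm]
    _ ≤ ((∏ v ∈ S0, Ideal.absNorm v.asIdeal ^ Cv v) *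
          (∏ v ∈ B, Ideal.absNorm v.asIdeal) ^ kap g) ^ d *
        ∏ w ∈ BL, Ideal.absNorm w.asIdeal ^ minExp g (F.map (algebraMap K L)) w := by
        refine Nat.mul_le_mul (Nat.pow_le_pow_left (Nat.mul_le_mul_right _ hc) d) ?_
        apply Finset.prod_le_prod_of_subset_of_one_le'
        · rw [hBLdef]; exact Finset.subset_union_right
        · intro w _ _
          exact Nat.one_le_pow _ _ (one_le_absNorm w)

end Pool.Agent.W318
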