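import Pool.Agent.W318.Core

namespace Pool.Agent.W318

open Polynomial Finset Real

variable {K M : Type*} [Field K] [Field M] [Algebra K M] {A : AbsoluteValue M ℝ}
  {G : Subgroup (M ≃ₐ[K] M)} {q : ℝ} {ϖ : K} {h : ℕ} {u : M} {α β : Fin (h + h) → M}

theorem Core.main2 [CharZero M] (hc : Core K A G q ϖ h u α β) (i₀ : Fin (h + h)) {s : ℝ}
    (hs0 : 0 < s) (hs1 : s < 1) {m : ℕ}
    (hm : (univ.filter (fun j => A (α i₀ * β j - α j * β i₀) ≤ s)).card = m) (hm1 : h + 1 ≤ m) :
    q ^ 2 * A (m : M) < s ∧ (A (m : M) = 1 → ∃ C : ℤ, C ≤ 2 * ((h / 2 : ℕ) : ℤ) + 1 ∧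
      q ^ C ≤ A u * ∏ j, max q (max s (A (α i₀ * β j - α j * β i₀)))) := by
  have h1 := hc.huni i₀
  rcases le_total (A (α i₀)) (A (β i₀)) with h2 | h2
  · rw [max_eq_right h2] at h1
    have e : ∀ j, A (β i₀ * α j - β j * α i₀) = A (α i₀ * β j - α j * β i₀) := by
      intro j
      have : β i₀ * α j - β j * α i₀ = -(α i₀ * β j - α j * β i₀) := by ring
      rw [this, map_neg_eq_map]
    have := hc.swap.main1 i₀ hs0 hs1 (m := m) (by simpa only [e] using hm) hm1 h1
    simpa only [e] using this
  · rw [max_eq_left h2] at h1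
    exact hc.main1 i₀ hs0 hs1 hm hm1 h1

theorem Core.content (hc : Core K A G q ϖ h u α β) : ∃ z : ℤ, 0 ≤ z ∧ z ≤ 1 ∧ A u = q ^ z := by
  have hq0 := hc.hq0
  have hq1 := hc.hq1
  have hg : gn A α β (1 : K) 0 0 1 = 1 := by
    unfold gn
    simp [hc.huni]
  have hdet : (1 : K) * 1 - 0 * 0 ≠ 0 := by simp
  obtain ⟨z, hz⟩ := hc.hgn 1 0 0 1 hdet
  rw [hg, mul_one] at hz
  refine ⟨z, ?_, ?_, hz⟩
  · have := hc.hu1
    rw [hz, zpow_le_one_iff_right_of_lt_one₀ hq0 hq1] at this
    exact this
  · by_contra hcon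
    push Not at hcon
    have hϖ0 := hc.ϖ_ne
    have := hc.hmin 1 0 0 1 ϖ⁻¹ hdet (inv_ne_zero hϖ0) (by
      rw [hg, mul_one, hz, map_inv₀, map_inv₀, hc.hϖ, inv_pow, ← zpow_natCast, ← zpow_neg,
        ← zpow_add₀ hq0.ne']
      apply zpow_le_one₀ hq0 hq1.le
      push_cast
      omega)
    rw [map_inv₀, map_inv₀, hc.hϖ] at this
    simp only [mul_one, mul_zero, sub_zero, map_one, one_pow] at this
    rw [inv_pow] at this
    have h3 : 1 < (q ^ 2)⁻¹ :=
      (one_lt_inv₀ (by positivity)).mpr (pow_lt_one₀ hq0.le hq1 (by norm_num))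
    linarith

theorem prod_equiv {h : ℕ} (e : Fin h ⊕ Fin h ≃ Fin (h + h)) (f : Fin (h + h) → ℝ) :
    ∏ j, f j = ∏ i, f (e (Sum.inl i)) * f (e (Sum.inr i)) := by
  rw [← Equiv.prod_comp e, Fintype.prod_sum_type, Finset.prod_mul_distrib]

theorem Core.local_bound [CharZero M] (hc : Core K A G q ϖ h u α β) (hh : 2 ≤ h) :
    ∃ e : Fin h ⊕ Fin h ≃ Fin (h + h),
      (∀ μ : ℕ, (∀ m : ℕ, 1 ≤ m → m ≤ h + h → q ^ μ ≤ A (m : M)) →
        q ^ (1 + (2 + μ) * h) ≤ A u * ∏ i, A (α (e (Sum.inl i)) * β (e (Sum.inr i)) -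
          α (e (Sum.inr i)) * β (e (Sum.inl i)))) ∧
      ((∀ m : ℕ, 1 ≤ m → m ≤ h + h → A (m : M) = 1) →
        q ^ (h / 2 + 1) ≤ A u * ∏ i, A (α (e (Sum.inl i)) * β (e (Sum.inr i)) -
          α (e (Sum.inr i)) * β (e (Sum.inl i)))) := by
  classical
  have hna := hc.hna
  have hq0 := hc.hq0
  have hq1 := hc.hq1
  set d : Fin (h + h) → Fin (h + h) → ℝ := fun i j => A (α i * β j - α j * β i) with hd
  have hα : ∀ i, A (α i) ≤ 1 := fun i => (le_max_left _ _).trans (hc.huni i).le
  have hβ : ∀ i, A (β i) ≤ 1 := fun i => (le_max_right _ _).trans (hc.huni i).le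
  have hd1 : ∀ i j, d i j ≤ 1 := by
    intro i j
    refine (na_sub_le hna _ _).trans (max_le ?_ ?_)
    · rw [map_mul]; exact mul_le_one₀ (hα _) (A.nonneg _) (hβ _)
    · rw [map_mul]; exact mul_le_one₀ (hα _) (A.nonneg _) (hβ _)
  have hdpos : ∀ i j, i ≠ j → 0 < d i j := fun i j hij => A.pos (hc.hne i j hij)
  obtain ⟨s, i₀, e, hs0, hs1, hcard, hprod⟩ := exists_cluster h (by omega) d
    (by intro i; simp only [hd]; rw [mul_comm, sub_self, map_zero])
    (by
      intro i j
      simp only [hd]
      have : α i * β j - α j * β i = -(α j * β i - α i * β j) := by ring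
      rw [this, map_neg_eq_map]) hd1 hdpos
    (fun i j k => chord_ultra hna hc.huni i j k)
  obtain ⟨z, hz0, hz1, hz⟩ := hc.content
  refine ⟨e, ?_⟩
  set P := ∏ i, d (e (Sum.inl i)) (e (Sum.inr i)) with hP
  have hPpos : 0 < P := Finset.prod_pos fun i _ => hdpos _ _ (by
    intro h0
    have := e.injective h0
    exact Sum.inl_ne_inr this)
  have hPeq : P * s ^ h = ∏ j, max s (d i₀ j) := by
    rw [prod_equiv e, hP, ← Fin.prod_const, ← Finset.prod_mul_distrib]
    exact Finset.prod_congr rfl fun i _ => hprod i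
  set w : Fin (h + h) → ℝ := fun j => max s (d i₀ j) with hw
  have hw0 : ∀ j, 0 < w j := fun j => lt_max_of_lt_left hs0
  have hw1 : ∀ j, w j ≤ 1 := fun j => max_le hs1 (hd1 _ _)
  have hws : ∀ j, s ≤ w j := fun j => le_max_left _ _
  set L : ℝ → ℝ := fun x => logb q x with hL
  have hLanti : ∀ {x y : ℝ}, 0 < x → x ≤ y → L y ≤ L x := by
    intro x y hx hxy
    exact (logb_le_logb_of_base_lt_one hq0 hq1 (hx.trans_le hxy) hx).mpr hxy
  have hLnn : ∀ {x : ℝ}, 0 < x → x ≤ 1 → 0 ≤ L x := fun hx hx1 =>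
    logb_nonneg_of_base_lt_one hq0 hq1 hx hx1
  have hLz : ∀ z : ℤ, L (q ^ z) = z := by
    intro z
    simp only [hL]
    rw [← rpow_intCast, logb_rpow hq0 hq1.ne]
  have hLn : ∀ n : ℕ, L (q ^ n) = n := by
    intro n
    simp only [hL]
    rw [← rpow_natCast, logb_rpow hq0 hq1.ne]
  have hLP : L P + h * L s = ∑ j, L (w j) := by
    have h1 : L (P * s ^ h) = L P + h * L s := by
      simp only [hL]
      rw [logb_mul hPpos.ne' (pow_pos hs0 h).ne', logb_pow]
    rw [← h1, hPeq]
    simp only [hL]
    rw [logb_prod _ _ fun j _ => (hw0 j).ne']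
  have hfin : ∀ n : ℕ, (z : ℝ) + L P ≤ n → q ^ n ≤ A u * P := by
    intro n hn
    have h1 : 0 < A u * P := mul_pos (A.pos hc.hu) hPpos
    have h2 : L (A u * P) = z + L P := by
      rw [hz]
      simp only [hL]
      rw [logb_mul (zpow_pos hq0 z).ne' hPpos.ne']
      congr 1
      exact hLz z
    rw [← h2] at hn
    rw [← rpow_natCast]
    exact (logb_le_iff_le_rpow_of_base_lt_one hq0 hq1 h1).mp hn
  have hz1' : (z : ℝ) ≤ 1 := by exact_mod_cast hz1
  have hz0' : (0 : ℝ) ≤ z := by exact_mod_cast hz0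
  rcases hs1.lt_or_eq with hs1' | hs1'
  · -- a genuine cluster
    obtain ⟨hM1, hM2⟩ := hc.main2 i₀ hs0 hs1' rfl hcard
    set m := (univ.filter (fun j => A (α i₀ * β j - α j * β i₀) ≤ s)).card with hm
    have hmle : m ≤ h + h := by
      have := card_le_univ (univ.filter (fun j => A (α i₀ * β j - α j * β i₀) ≤ s))
      rwa [Fintype.card_fin] at this
    have hcard' : h + 1 ≤ m := hcard
    have hLs : 0 ≤ L s := hLnn hs0 hs1
    have hLw : ∀ j, L (w j) ≤ L s := fun j => hLanti hs0 (hws j)
    have hLw0 : ∀ j, 0 ≤ L (w j) := fun j => hLnn (hw0 j) (hw1 j)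
    have hsum : ∑ j, L (w j) ≤ (h + h : ℕ) * L s := by
      calc _ ≤ ∑ _j : Fin (h + h), L s := Finset.sum_le_sum fun j _ => hLw j
        _ = _ := by simp
    constructor
    · intro μ hμ
      apply hfin
      have h1 := hμ m (by omega) hmle
      have h2 : q ^ (2 + μ) ≤ s := by
        rw [pow_add]
        exact (mul_le_mul_of_nonneg_left h1 (by positivity)).trans hM1.le
      have h3 : L s ≤ (2 + μ : ℕ) := by
        rw [← hLn]; exact hLanti (by positivity) h2
      have h4 : L P ≤ h * L s := by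
        have : ((h + h : ℕ) : ℝ) = h + h := by push_cast; ring
        rw [this] at hsum
        nlinarith
      have h5 : (h : ℝ) * L s ≤ h * (2 + μ : ℕ) := by gcongr
      push_cast at *
      nlinarith
    · intro htame
      have hAm := htame m (by omega) hmle
      obtain ⟨C, hC1, hC2⟩ := hM2 hAm
      rw [hAm, mul_one] at hM1
      have hLs2 : L s < 2 := by
        have := logb_lt_logb_of_base_lt_one hq0 hq1 (by positivity) hM1
        have h2 := hLn 2
        simp only [hL] at h2 ⊢
        rw [h2] at this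
        exact_mod_cast this
      apply hfin
      have hx0 : ∀ j, 0 < max q (w j) := fun j => lt_max_of_lt_left hq0
      have hCL : (z : ℝ) + ∑ j, L (max q (w j)) ≤ C := by
        have h1 : 0 < A u * ∏ j, max q (w j) :=
          mul_pos (A.pos hc.hu) (Finset.prod_pos fun j _ => hx0 j)
        have h2 : L (A u * ∏ j, max q (w j)) = z + ∑ j, L (max q (w j)) := by
          rw [hz]
          simp only [hL]
          rw [logb_mul (zpow_pos hq0 z).ne' (Finset.prod_pos fun j _ => hx0 j).ne',
            logb_prod _ _ fun j _ => (hx0 j).ne']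
          congr 1
          exact hLz z
        rw [← h2, ← hLz C]
        exact hLanti (zpow_pos hq0 _) hC2
      have hC1' : (C : ℝ) ≤ 2 * ((h / 2 : ℕ) : ℝ) + 1 := by
        generalize h / 2 = k at hC1
        exact_mod_cast hC1
      rcases le_or_gt q s with hqs | hqs
      · have h1 : ∀ j, max q (w j) = w j := fun j => max_eq_right (hqs.trans (hws j))
        simp only [h1] at hCL
        have : ((h + h : ℕ) : ℝ) = h + h := by push_cast; ring
        rw [this] at hsum
        push_cast
        nlinarith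
      · -- deep cluster
        have hD1 : ∀ j, d i₀ j ≤ s → L (max q (w j)) = 1 := by
          intro j hj
          have : w j = s := max_eq_left hj
          rw [this, max_eq_left hqs.le]
          have := hLn 1
          simpa using this
        have hLx0 : ∀ j, 0 ≤ L (max q (w j)) := fun j => hLnn (hx0 j) (max_le hq1.le (hw1 j))
        have hh2 : 2 * (h / 2) ≤ h := Nat.mul_div_le h 2
        have hh2' : 2 * ((h / 2 : ℕ) : ℝ) ≤ h := by exact_mod_cast hh2
        have hm' : (h : ℝ) + 1 ≤ m := by exact_mod_cast hcard'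
        have hsplit : ∑ j, L (max q (w j)) = m + ∑ j ∈ univ.filter (fun j => ¬ d i₀ j ≤ s),
            L (max q (w j)) := by
          rw [← Finset.sum_filter_add_sum_filter_not univ (fun j => d i₀ j ≤ s)]
          congr 1
          rw [Finset.sum_congr rfl fun j hj => hD1 j (by simpa using hj)]
          simp [hm, hd]
        have hout0 : 0 ≤ ∑ j ∈ univ.filter (fun j => ¬ d i₀ j ≤ s), L (max q (w j)) :=
          Finset.sum_nonneg fun j _ => hLx0 j
        rw [hsplit] at hCL
        have hout : ∑ j ∈ univ.filter (fun j => ¬ d i₀ j ≤ s), L (max q (w j)) = 0 := by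
          apply le_antisymm _ hout0
          linarith
        have hzz : (z : ℝ) = 0 := by linarith
        have hmh : (m : ℝ) = h + 1 := by linarith
        have hLwout : ∀ j, ¬ d i₀ j ≤ s → L (w j) = 0 := by
          intro j hj
          have h1 := (Finset.sum_eq_zero_iff_of_nonneg fun j _ => hLx0 j).mp hout j (by simpa using hj)
          have h2 : max q (w j) = 1 :=
            eq_one_of_pos_of_logb_eq_zero_of_base_lt_one hq0 hq1 (hx0 j) h1
          have h3 : w j = 1 := by
            rcases le_total q (w j) with h4 | h4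
            · rwa [max_eq_right h4] at h2
            · rw [max_eq_left h4] at h2; linarith
          rw [h3]; simp [hL]
        have hLwin : ∀ j, d i₀ j ≤ s → L (w j) = L s := by
          intro j hj
          have : w j = s := max_eq_left hj
          rw [this]
        have hsumw : ∑ j, L (w j) = m * L s := by
          rw [← Finset.sum_filter_add_sum_filter_not univ (fun j => d i₀ j ≤ s),
            Finset.sum_congr rfl fun j hj => hLwin j (by simpa using hj),
            Finset.sum_eq_zero fun j hj => hLwout j (by simpa using hj)]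
          simp [hm, hd]
        rw [hsumw, hmh] at hLP
        have hLPs : L P = L s := by linarith
        rw [hLPs, hzz]
        have : 1 ≤ h / 2 := by omega
        have : (1 : ℝ) ≤ ((h / 2 : ℕ) : ℝ) := by exact_mod_cast this
        push_cast
        linarith
  · -- no cluster
    have hw1' : ∀ j, w j = 1 := by
      intro j
      simp only [hw, hs1']
      exact max_eq_left (hd1 _ _)
    have hLP0 : L P = 0 := by
      have : ∑ j, L (w j) = 0 := by
        apply Finset.sum_eq_zero
        intro j _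
        rw [hw1']; simp [hL]
      rw [this, hs1'] at hLP
      simpa [hL] using hLP
    constructor
    · intro μ _
      apply hfin
      rw [hLP0]
      push_cast
      have : (0 : ℝ) ≤ (2 + μ) * h := by positivity
      linarith
    · intro _
      apply hfin
      rw [hLP0]
      push_cast
      have : (0 : ℝ) ≤ ((h / 2 : ℕ) : ℝ) := by positivity
      linarith

end Pool.Agent.W318
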