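import Pool.Agent.W318.MinExists
import Pool.Agent.W318.BigField

namespace Pool.Agent.W318

open Polynomial Finset NumberField IsDedekindDomain WithZero

theorem absW_liesOver {L M : Type} [Field L] [NumberField L] [Field M] [NumberField M]
    [Algebra L M] (w : HeightOneSpectrum (𝓞 L)) (W : HeightOneSpectrum (𝓞 M))
    [W.asIdeal.LiesOver w.asIdeal] {x : L} {k : ℤ} (h : w.valuation L x = exp k) :
    W.valuation M (algebraMap L M x) =
      exp ((w.asIdeal.ramificationIdx' W.asIdeal : ℤ) * k) := by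
  rw [← HeightOneSpectrum.valuation_liesOver M w W x, h, ← exp_nsmul, nsmul_eq_mul]

theorem ram_pos {L M : Type} [Field L] [NumberField L] [Field M] [NumberField M]
    [Algebra L M] (w : HeightOneSpectrum (𝓞 L)) (W : HeightOneSpectrum (𝓞 M))
    [W.asIdeal.LiesOver w.asIdeal] : 1 ≤ w.asIdeal.ramificationIdx' W.asIdeal :=
  Nat.one_le_iff_ne_zero.mpr
    (Ideal.IsDedekindDomain.ramificationIdx'_ne_zero_of_liesOver W.asIdeal w.ne_bot)

theorem local_ineq {K L : Type} [Field K] [NumberField K] [Field L] [NumberField L]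
    [Algebra K L] (v : HeightOneSpectrum (𝓞 K)) (w : HeightOneSpectrum (𝓞 L))
    [hvw : w.asIdeal.LiesOver v.asIdeal] {h : ℕ} (hh : 2 ≤ h) {F : K[X]} (hF : MinForm v h F)
    {F' : L[X]} (hE : Eqv h (F.map (algebraMap K L)) F')
    (hint : ∀ i, w.valuation L (F'.coeff i) ≤ 1) {k k' : ℤ}
    (hk : v.valuation K (discN (h + h) F) = exp (-k))
    (hk' : w.valuation L (discN (h + h) F') = exp (-k')) :
    (∀ μ : ℕ, (∀ m : ℕ, 1 ≤ m → m ≤ h + h → exp (-(μ : ℤ)) ≤ v.valuation K (m : K)) →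
      (v.asIdeal.ramificationIdx' w.asIdeal : ℤ) * k ≤ k' +
        (v.asIdeal.ramificationIdx' w.asIdeal : ℤ) *
          ((2 * (h + h - 1) * (1 + (2 + μ) * h) : ℕ) : ℤ)) ∧
    ((∀ m : ℕ, 1 ≤ m → m ≤ h + h → v.valuation K (m : K) = 1) →
      (v.asIdeal.ramificationIdx' w.asIdeal : ℤ) * k ≤ k' +
        (v.asIdeal.ramificationIdx' w.asIdeal : ℤ) *
          ((2 * (h + h - 1) * (h / 2 + 1) : ℕ) : ℤ)) := by
  classical
  obtain ⟨M, _, _, _, _, _, _, hsplit⟩ := exists_bigField (K := K) (F.map (algebraMap K L))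
  obtain ⟨W, hW⟩ := exists_prime_over (M := M) w
  rw [Polynomial.map_map, ← IsScalarTower.algebraMap_eq] at hsplit
  set e := v.asIdeal.ramificationIdx' w.asIdeal with he
  set e' := w.asIdeal.ramificationIdx' W.asIdeal with he'
  have he1 : 1 ≤ e := ram_pos v w
  have he'1 : 1 ≤ e' := ram_pos w W
  have hvW : ∀ (x : K) (k : ℤ), v.valuation K x = exp k →
      W.valuation M (algebraMap K M x) = exp ((e' : ℤ) * ((e : ℤ) * k)) := by
    intro x k hx
    have h1 := absW_liesOver v w hx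
    have h2 := absW_liesOver w W h1
    rwa [← IsScalarTower.algebraMap_apply] at h2
  have hc : Compat v W (e * e') := by
    refine ⟨Nat.mul_pos he1 he'1, fun x k hx => ?_⟩
    rw [absW_exp W (hvW x k hx)]
    congr 1
    push_cast
    ring
  have hcw : Compat w W e' := by
    refine ⟨he'1, fun x k hx => ?_⟩
    rw [absW_exp W (absW_liesOver w W hx)]
    congr 1
    ring
  obtain ⟨u, α, β, hu, huni, hne, hfac⟩ := exists_factor_form (absW W) (by omega) hF.deg hF.sqf
    hsplit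
  obtain ⟨ϖ, hϖ⟩ := v.valuation_exists_uniformizer K
  have hcore := hF.core hh hc hu huni hne hfac hϖ
  obtain ⟨e₀, hgen, htame⟩ := hcore.local_bound hh
  set q : ℝ := (2 : ℝ) ^ (-((e * e' : ℕ) : ℤ)) with hq
  have hq0 : 0 < q := by positivity
  -- the comparison
  obtain ⟨a, b, c, d, l, hdet, hl, hF'⟩ := hE
  set φ := algebraMap L M with hφ
  have hdet' : φ a * φ d - φ b * φ c ≠ 0 := by
    rw [← map_mul, ← map_mul, ← map_sub, Ne, map_eq_zero]
    exact hdet
  have hl' : φ l ≠ 0 := by rwa [Ne, map_eq_zero]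
  have hFF : (F.map (algebraMap K L)).map φ = F.map (algebraMap K M) := by
    rw [Polynomial.map_map, hφ, ← IsScalarTower.algebraMap_eq]
  have hmap : F'.map φ = C (φ l ^ 2) * act (h + h) (φ a) (φ b) (φ c) (φ d)
      (C u * ∏ i, (C (α i) * X + C (β i))) := by
    rw [hF', Polynomial.map_mul, Polynomial.map_C, map_pow, act_map, hFF, hfac]
  have hint' : (C (φ l ^ 2) * act (h + h) (φ a) (φ b) (φ c) (φ d)
      (C u * ∏ i, (C (α i) * X + C (β i)))).gaussNorm (absW W) 1 ≤ 1 := by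
    rw [← hmap]
    exact (hcw.int_iff F').mpr hint
  have hmain : ∀ B : ℕ, q ^ B ≤ absW W u * ∏ i, absW W (α (e₀ (Sum.inl i)) *
      β (e₀ (Sum.inr i)) - α (e₀ (Sum.inr i)) * β (e₀ (Sum.inl i))) →
      (e : ℤ) * k ≤ k' + (e : ℤ) * ((2 * (h + h - 1) * B : ℕ) : ℤ) := by
    intro B hB
    have h1 := compare_disc (absW_na W) hu hne hh e₀ (by positivity) hB hdet' hl' hint'
    rw [← hmap, ← hfac, discN_map, discN_map, absW_exp W (hvW _ _ hk),
      absW_exp W (absW_liesOver w W hk'), hq, ← zpow_natCast, ← zpow_natCast, ← zpow_mul,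
      ← zpow_mul, ← zpow_add₀ (by norm_num), zpow_le_zpow_iff_right₀ (by norm_num)] at h1
    generalize 2 * (h + h - 1) = D at h1 ⊢
    push_cast at h1 ⊢
    have h2 : (e' : ℤ) * ((e : ℤ) * k) ≤ (e' : ℤ) * (k' + (e : ℤ) * (D * B)) := by
      linarith
    exact le_of_mul_le_mul_left h2 (by exact_mod_cast he'1)
  constructor
  · intro μ hμ
    apply hmain
    apply hgen μ
    intro m hm1 hm2
    have hm0 : (m : K) ≠ 0 := Nat.cast_ne_zero.mpr (by omega)
    obtain ⟨j, hj⟩ := exists_exp v hm0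
    have h1 := hμ m hm1 hm2
    rw [hj, exp_le_exp] at h1
    have h2 := hc.2 (m : K) j hj
    rw [map_natCast] at h2
    rw [h2, hq, ← zpow_natCast, ← zpow_mul, zpow_le_zpow_iff_right₀ (by norm_num)]
    have : (0 : ℤ) ≤ ((e * e' : ℕ) : ℤ) := by positivity
    nlinarith
  · intro ht
    apply hmain
    apply htame
    intro m hm1 hm2
    have h1 := ht m hm1 hm2
    have h2 := hc.2 (m : K) 0 (by rw [h1, exp_zero])
    rw [map_natCast] at h2
    rw [h2]
    simp

end Pool.Agent.W318
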