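import Pool.Agent.W318.Bridge3

namespace Pool.Agent.W318

open Polynomial

variable {k : Type*} [Field k] {E : Type*} [CommRing E] [Algebra k E]

theorem QData.nonempty_equiv {b c : RatFunc k} {ι : RatFunc k →+* E} {y : E}
    (h : QData E b c ι y) : Nonempty (AdjoinRoot (quadP b c) ≃ₐ[k] E) := by
  have hev : (quadP b c).eval₂ ι y = 0 := by
    simp only [quadP, eval₂_sub, eval₂_add, eval₂_mul, eval₂_pow, eval₂_X, eval₂_C]
    exact h.rel
  let Φ : AdjoinRoot (quadP b c) →ₐ[k] E :=
    { AdjoinRoot.lift ι y hev with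
      commutes' := fun t => by
        have e1 : algebraMap k (AdjoinRoot (quadP b c)) t =
          AdjoinRoot.of (quadP b c) (algebraMap k (RatFunc k) t) := rfl
        change AdjoinRoot.lift ι y hev (algebraMap k (AdjoinRoot (quadP b c)) t) = _
        rw [e1, AdjoinRoot.lift_of, h.alg] }
  have hΦ : ∀ z, Φ z = AdjoinRoot.lift ι y hev z := fun z => rfl
  refine ⟨AlgEquiv.ofBijective Φ ⟨?_, ?_⟩⟩
  · rw [injective_iff_map_eq_zero]
    intro z hz
    obtain ⟨r, s, rfl⟩ := quad_rep b c z
    rw [hΦ, map_add, map_mul, AdjoinRoot.lift_of, AdjoinRoot.lift_of, AdjoinRoot.lift_root] at hz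
    obtain ⟨h1, h2⟩ := h.indep r s hz
    rw [h1, h2, map_zero, zero_mul, add_zero]
  · intro z
    obtain ⟨r, s, hrs⟩ := h.rep z
    refine ⟨AdjoinRoot.of _ r + AdjoinRoot.of _ s * AdjoinRoot.root _, ?_⟩
    rw [hΦ, map_add, map_mul, AdjoinRoot.lift_of, AdjoinRoot.lift_of, AdjoinRoot.lift_root, hrs]

theorem QData.twist {c c' : RatFunc k} {ι : RatFunc k →+* E} {y : E} (h4 : QData E 0 c ι y)
    (μ : RatFunc k ≃ₐ[k] RatFunc k) {T : RatFunc k} (hTne : T ≠ 0) (hμF : μ c' = T ^ 2 * c) :
    QData E 0 c' (ι.comp (μ : RatFunc k →+* RatFunc k)) (ι T * y) := by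
  have hy2 : y ^ 2 = ι c := by
    have := h4.rel
    rw [map_zero, zero_mul, add_zero, sub_eq_zero] at this
    exact this
  constructor
  · intro z
    obtain ⟨r, s, hrs⟩ := h4.rep z
    refine ⟨μ.symm r, μ.symm (s / T), ?_⟩
    have e1 : (ι.comp (μ : RatFunc k →+* RatFunc k)) (μ.symm r) = ι r := by
      simp
    have e2 : (ι.comp (μ : RatFunc k →+* RatFunc k)) (μ.symm (s / T)) = ι (s / T) := by
      simp
    rw [e1, e2, ← mul_assoc, ← map_mul, div_mul_cancel₀ _ hTne]
    exact hrs
  · intro r s hrs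
    have e1 : ι (μ r) + ι (μ s * T) * y = 0 := by
      rw [map_mul, mul_assoc]
      exact hrs
    obtain ⟨e2, e3⟩ := h4.indep _ _ e1
    refine ⟨by simpa using e2, ?_⟩
    have := (mul_eq_zero.mp e3).resolve_right hTne
    simpa using this
  · have e1 : (ι.comp (μ : RatFunc k →+* RatFunc k)) 0 = 0 := map_zero _
    have e2 : (ι.comp (μ : RatFunc k →+* RatFunc k)) c' = ι (T ^ 2 * c) := by
      rw [← hμF]; rfl
    rw [e1, e2, map_mul, map_pow]
    linear_combination (ι T) ^ 2 * hy2
  · intro t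
    have e1 : (ι.comp (μ : RatFunc k →+* RatFunc k)) (algebraMap k (RatFunc k) t) =
        ι (μ (algebraMap k (RatFunc k) t)) := rfl
    rw [e1, μ.commutes]
    exact h4.alg t

theorem X_ne_C (e : k) : (RatFunc.X : RatFunc k) ≠ RatFunc.C e := by
  intro h
  rw [← RatFunc.algebraMap_X, ← RatFunc.algebraMap_C] at h
  have := RatFunc.algebraMap_injective k h
  have h2 := congrArg Polynomial.natDegree this
  rw [natDegree_X, natDegree_C] at h2
  omega

theorem exists_moebius {a b c d : k} (hdet : a * d - b * c ≠ 0) :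
    ∃ μ : RatFunc k ≃ₐ[k] RatFunc k,
      RatFunc.C a - RatFunc.C c * RatFunc.X ≠ 0 ∧
      μ RatFunc.X * (RatFunc.C a - RatFunc.C c * RatFunc.X) =
        RatFunc.C d * RatFunc.X - RatFunc.C b := by
  have hden : RatFunc.C a - RatFunc.C c * RatFunc.X ≠ (0 : RatFunc k) := by
    intro h
    by_cases hc : c = 0
    · rw [hc, map_zero, zero_mul, sub_zero, map_eq_zero] at h
      exact hdet (by rw [h, hc]; ring)
    · apply X_ne_C (a / c)
      have hc' : RatFunc.C c ≠ (0 : RatFunc k) := by rwa [Ne, map_eq_zero]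
      rw [map_div₀, eq_div_iff hc']
      linear_combination -h
  set m : RatFunc k := (RatFunc.C d * RatFunc.X - RatFunc.C b) /
    (RatFunc.C a - RatFunc.C c * RatFunc.X) with hm
  have hm' : m * (RatFunc.C a - RatFunc.C c * RatFunc.X) =
      RatFunc.C d * RatFunc.X - RatFunc.C b := div_mul_cancel₀ _ hden
  have hδ : RatFunc.C (a * d - b * c) ≠ (0 : RatFunc k) := by rwa [Ne, map_eq_zero]
  -- X in terms of m
  have hX : RatFunc.X * (RatFunc.C c * m + RatFunc.C d) = RatFunc.C a * m + RatFunc.C b := by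
    linear_combination -hm'
  have hcm : RatFunc.C c * m + RatFunc.C d ≠ 0 := by
    intro h
    apply hδ
    have h2 : (RatFunc.C c * m + RatFunc.C d) * (RatFunc.C a - RatFunc.C c * RatFunc.X) =
        RatFunc.C (a * d - b * c) := by
      rw [map_sub, map_mul, map_mul]
      linear_combination RatFunc.C c * hm'
    rw [← h2, h, zero_mul]
  have hXe : (RatFunc.X : RatFunc k) = (RatFunc.C a * m + RatFunc.C b) /
      (RatFunc.C c * m + RatFunc.C d) := by
    rw [eq_div_iff hcm]; exact hX
  have hmC : ¬ ∃ e, m = RatFunc.C e := by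
    rintro ⟨e, he⟩
    apply X_ne_C ((a * e + b) / (c * e + d))
    rw [hXe, he, map_div₀, map_add, map_mul, map_add, map_mul]
  have htop : IntermediateField.adjoin k {m} = ⊤ := by
    rw [eq_top_iff, ← RatFunc.adjoin_X, IntermediateField.adjoin_simple_le_iff, hXe]
    have hmm : m ∈ IntermediateField.adjoin k {m} := IntermediateField.mem_adjoin_simple_self k m
    have hC : ∀ t : k, RatFunc.C t ∈ IntermediateField.adjoin k {m} := fun t =>
      (IntermediateField.adjoin k {m}).algebraMap_mem t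
    exact div_mem (add_mem (mul_mem (hC a) hmm) (hC b)) (add_mem (mul_mem (hC c) hmm) (hC d))
  have htr := RatFunc.transcendental_of_ne_C m hmC
  refine ⟨((RatFunc.algEquivOfTranscendental m htr).trans
    (IntermediateField.equivOfEq htop)).trans IntermediateField.topEquiv, hden, ?_⟩
  have : (((RatFunc.algEquivOfTranscendental m htr).trans
    (IntermediateField.equivOfEq htop)).trans IntermediateField.topEquiv) RatFunc.X = m :=
    RatFunc.algEquivOfTranscendental_X m htr
  rw [this]
  exact hm'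

theorem unbridge {g : ℕ} {F F' : k[X]} (hF : F.natDegree ≤ 2 * g + 2)
    (he : Eqv (g + 1) F F') : Nonempty (FunField k F' 0 ≃ₐ[k] FunField k F 0) := by
  obtain ⟨a, b, c, d, l, hdet, hl, hF'⟩ := he
  rw [show g + 1 + (g + 1) = 2 * g + 2 by ring] at hF'
  obtain ⟨μ, hden, hμ⟩ := exists_moebius hdet
  set alg := algebraMap k[X] (RatFunc k) with halg
  set D := RatFunc.C a - RatFunc.C c * RatFunc.X with hD
  set m := μ RatFunc.X with hm
  have hδ : RatFunc.C (a * d - b * c) ≠ (0 : RatFunc k) := by rwa [Ne, map_eq_zero]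
  have hl' : RatFunc.C l ≠ (0 : RatFunc k) := by rwa [Ne, map_eq_zero]
  have h1 : (RatFunc.C c * m + RatFunc.C d) * D = RatFunc.C (a * d - b * c) := by
    rw [map_sub, map_mul, map_mul, hD]
    linear_combination RatFunc.C c * hμ
  have hcm : RatFunc.C c * m + RatFunc.C d ≠ 0 := by
    intro h
    rw [h, zero_mul] at h1
    exact hδ h1.symm
  have h2 : (RatFunc.C a * m + RatFunc.C b) / (RatFunc.C c * m + RatFunc.C d) = RatFunc.X := by
    rw [div_eq_iff hcm]
    linear_combination hμ
  have hcd : c ≠ 0 ∨ d ≠ 0 := by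
    by_contra hcon
    push Not at hcon
    exact hdet (by rw [hcon.1, hcon.2]; ring)
  have hμC : ∀ t : k, μ (RatFunc.C t) = RatFunc.C t := fun t => μ.commutes t
  have hlin : ∀ s t : k, alg (C s * X + C t) = RatFunc.C s * RatFunc.X + RatFunc.C t := by
    intro s t
    rw [map_add, map_mul, halg, RatFunc.algebraMap_X, RatFunc.algebraMap_C, RatFunc.algebraMap_C]
  set T := RatFunc.C l * (RatFunc.C c * m + RatFunc.C d) ^ (g + 1) with hT
  have hTne : T ≠ 0 := mul_ne_zero hl' (pow_ne_zero _ hcm)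
  have hC2 : alg (C (l ^ 2)) = RatFunc.C l ^ 2 := by rw [halg, RatFunc.algebraMap_C, map_pow]
  have h3 : aeval (RatFunc.X : RatFunc k) F = alg F := by
    conv_rhs => rw [← aeval_X_left_apply F]
    rw [← RatFunc.algebraMap_X, aeval_algebraMap_apply]
  have hμF : μ (alg F') = T ^ 2 * alg F := by
    rw [hF', map_mul, hC2, halg, algebraMap_act (2 * g + 2) hcd hF, ← halg, hlin, hlin]
    simp only [map_mul, map_pow, map_add, hμC, ← hm]
    rw [← aeval_algHom_apply, map_div₀, map_add, map_add, map_mul, map_mul, hμC, hμC,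
      hμC, hμC, ← hm, h2, h3, hT]
    ring
  have h4 := QData.congr (quad_qdata (k := k) (alg 0) (alg F)) (map_zero alg)
  exact ((h4.twist μ hTne hμF).congr (map_zero alg).symm).nonempty_equiv

end Pool.Agent.W318
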