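import Pool.Agent.W318.LocalIneq
import Pool.Agent.W318.Unbridge

namespace Pool.Agent.W318

open Polynomial Finset NumberField IsDedekindDomain WithZero

theorem discr_C_mul {k : Type*} [Field k] {r : k} (hr : r ≠ 0) {F : k[X]}
    (hd : 0 < F.natDegree) : (C r * F).discr = r ^ (2 * F.natDegree - 2) * F.discr := by
  have hF0 : F ≠ 0 := by
    rintro rfl
    simp at hd
  have h1 := resultant_deriv (natDegree_pos_iff_degree_pos.mp hd)
  have hdeg : (C r * F).natDegree = F.natDegree := natDegree_C_mul hr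
  have h2 := resultant_deriv (f := C r * F)
    (natDegree_pos_iff_degree_pos.mp (by rw [hdeg]; exact hd))
  rw [hdeg, derivative_C_mul, resultant_C_mul_left, resultant_C_mul_right, h1,
    leadingCoeff_mul, leadingCoeff_C] at h2
  have hlc : F.leadingCoeff ≠ 0 := leadingCoeff_ne_zero.mpr hF0
  have hs : (-1 : k) ^ (F.natDegree * (F.natDegree - 1) / 2) ≠ 0 := pow_ne_zero _ (by simp)
  obtain ⟨n, hn⟩ : ∃ n, F.natDegree = n + 1 := ⟨F.natDegree - 1, by omega⟩
  rw [hn] at h2 hs ⊢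
  simp only [Nat.add_sub_cancel, show 2 * (n + 1) - 2 = 2 * n by omega] at h2 hs ⊢
  generalize (-1 : k) ^ ((n + 1) * n / 2) = ε at h2 hs
  have h3 : (ε * r * F.leadingCoeff) * (C r * F).discr =
      (ε * r * F.leadingCoeff) * (r ^ (2 * n) * F.discr) := by
    linear_combination -h2
  exact mul_left_cancel₀ (mul_ne_zero (mul_ne_zero hs hr) hlc) h3

theorem discN_C_mul {k : Type*} [Field k] {h : ℕ} (hh : 1 ≤ h) {r : k} (hr : r ≠ 0) {F : k[X]}
    (hd : F.natDegree = h + h ∨ F.natDegree + 1 = h + h) :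
    discN (h + h) (C r * F) = r ^ (2 * (h + h - 1)) * discN (h + h) F := by
  have hdeg : (C r * F).natDegree = F.natDegree := natDegree_C_mul hr
  have h1 := discr_C_mul hr (F := F) (by omega)
  unfold discN
  rw [hdeg, h1]
  split_ifs with h2
  · rw [h2]
    congr 2
    omega
  · rw [leadingCoeff_mul, leadingCoeff_C]
    obtain ⟨n, hn⟩ : ∃ n, F.natDegree = n + 1 := ⟨F.natDegree - 1, by omega⟩
    have h3 : 2 * (h + h - 1) = 2 * F.natDegree - 2 + 2 := by omega
    rw [h3, pow_add]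
    ring

theorem IsHyp.good {k : Type*} [Field k] {g : ℕ} {F : k[X]} (hF : IsHyp g F) :
    GoodForm (g + 1) F := ⟨hF.1, by have := hF.2; omega⟩

theorem modelDisc_eq {k : Type*} [Field k] (g : ℕ) (f f₂ : k[X]) :
    modelDisc g f f₂ = 2 ^ (4 * g) * discN (g + 1 + (g + 1)) (f + C (1 / 4) * f₂ ^ 2) := by
  unfold modelDisc discN
  rw [show g + 1 + (g + 1) = 2 * g + 2 by ring]
  split_ifs
  · rfl
  · ring

section

variable {K : Type} [Field K] [NumberField K]

theorem isModel_of_eqv {g : ℕ} {F F' : K[X]} (hF : IsHyp g F) (v : HeightOneSpectrum (𝓞 K))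
    (he : Eqv (g + 1) F F') (hint : ∀ i, v.valuation K (F'.coeff i) ≤ 1) :
    IsModel g F v F' 0 := by
  have hgood := he.good (by omega) hF.good
  refine ⟨hint, fun i => by simp, ?_, ?_, unbridge (by have := hF.2; omega) he⟩
  · have := hgood.2
    simp only [natDegree_zero]
    omega
  · have := hgood.2
    simp only [natDegree_zero]
    omega

omit [NumberField K] in
theorem modelDisc_zero (g : ℕ) (F : K[X]) :
    modelDisc g F 0 = 2 ^ (4 * g) * discN (g + 1 + (g + 1)) F := by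
  rw [modelDisc_eq]
  simp

theorem exists_two_exp (v : HeightOneSpectrum (𝓞 K)) :
    ∃ t : ℕ, v.valuation K (2 : K) = exp (-(t : ℤ)) := by
  obtain ⟨k, hk⟩ := exists_exp v (two_ne_zero : (2 : K) ≠ 0)
  have h1 : v.valuation K (2 : K) ≤ 1 := by
    have e : algebraMap (𝓞 K) K 2 = 2 := map_ofNat _ 2
    rw [← e]
    exact v.valuation_le_one 2
  rw [hk, ← exp_zero, exp_le_exp] at h1
  exact ⟨(-k).toNat, by rw [hk, Int.toNat_of_nonneg (by omega), neg_neg]⟩

/-- A minimal form gives an upper bound for the exponent. -/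
theorem minExp_le {g : ℕ} {F F' : K[X]} (hF : IsHyp g F) (v : HeightOneSpectrum (𝓞 K))
    (he : Eqv (g + 1) F F') (hint : ∀ i, v.valuation K (F'.coeff i) ≤ 1) {t : ℕ}
    (ht : v.valuation K (2 : K) = exp (-(t : ℤ))) :
    ∃ k : ℕ, v.valuation K (discN (g + 1 + (g + 1)) F') = exp (-(k : ℤ)) ∧
      (∃ f f₂ : K[X], IsModel g F v f f₂ ∧
        v.valuation K (modelDisc g f f₂) = exp (-((4 * g * t + k : ℕ) : ℤ))) ∧
      minExp g F v ≤ 4 * g * t + k := by
  have hgood := he.good (by omega) hF.good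
  have h1 := discN_ne_zero (by omega) hgood
  obtain ⟨k, hk⟩ := exists_exp v h1
  have h2 := val_discN_le_one v (g + 1 + (g + 1)) hint
  rw [hk, ← exp_zero, exp_le_exp] at h2
  have hk' : v.valuation K (discN (g + 1 + (g + 1)) F') = exp (-((-k).toNat : ℤ)) := by
    rw [hk, Int.toNat_of_nonneg (by omega), neg_neg]
  have hex : ∃ f f₂ : K[X], IsModel g F v f f₂ ∧
      v.valuation K (modelDisc g f f₂) = exp (-((4 * g * t + (-k).toNat : ℕ) : ℤ)) := by
    refine ⟨F', 0, isModel_of_eqv hF v he hint, ?_⟩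
    rw [modelDisc_zero, map_mul, map_pow, ht, hk', ← exp_nsmul, ← exp_add]
    congr 1
    simp only [nsmul_eq_mul]
    push_cast
    ring
  exact ⟨(-k).toNat, hk', hex, Nat.sInf_le hex⟩

theorem exists_min_model {g : ℕ} {F : K[X]} (hF : IsHyp g F) (v : HeightOneSpectrum (𝓞 K)) :
    ∃ f f₂ : K[X], IsModel g F v f f₂ ∧
      v.valuation K (modelDisc g f f₂) = exp (-((minExp g F v : ℕ) : ℤ)) := by
  obtain ⟨F', he, hmin⟩ := exists_minForm (by omega : 1 ≤ g + 1) v hF.good
  obtain ⟨t, ht⟩ := exists_two_exp v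
  obtain ⟨k, _, hex, _⟩ := minExp_le hF v he hmin.int ht
  exact Nat.sInf_mem (s := {m : ℕ | ∃ f f₂ : K[X], IsModel g F v f f₂ ∧
    v.valuation K (modelDisc g f f₂) = exp (-(m : ℤ))}) ⟨_, hex⟩

theorem int_comb (v : HeightOneSpectrum (𝓞 K)) {f f₂ : K[X]}
    (h1 : ∀ i, v.valuation K (f.coeff i) ≤ 1) (h2 : ∀ i, v.valuation K (f₂.coeff i) ≤ 1) :
    ∀ i, v.valuation K ((4 * f + f₂ ^ 2).coeff i) ≤ 1 := by
  have hna := absW_na v
  have e1 : f.gaussNorm (absW v) 1 ≤ 1 :=
    (gaussNorm_le_one_iff _).mpr fun i => (absW_le_one_iff v _).mpr (h1 i)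
  have e2 : f₂.gaussNorm (absW v) 1 ≤ 1 :=
    (gaussNorm_le_one_iff _).mpr fun i => (absW_le_one_iff v _).mpr (h2 i)
  have e3 : (4 * f + f₂ ^ 2).gaussNorm (absW v) 1 ≤ 1 := by
    refine (isNonarchimedean_gaussNorm (absW v) hna zero_le_one _ _).trans (max_le ?_ ?_)
    · have : (4 : K[X]) = C 4 := (map_ofNat (C : K →+* K[X]) 4).symm
      rw [this, gaussNorm_mul hna one_pos, gaussNorm_C]
      refine mul_le_one₀ ?_ (gaussNorm_nonneg _ _ zero_le_one) e1
      have : ((4 : ℕ) : K) = 4 := by norm_num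
      rw [← this]
      exact hna.apply_natCast_le_one
    · rw [sq, gaussNorm_mul hna one_pos]
      exact mul_le_one₀ e2 (gaussNorm_nonneg _ _ zero_le_one) e2
  intro i
  rw [← absW_le_one_iff]
  exact (coeff_le_gaussNorm _ i).trans e3

theorem four_mul_form (f f₂ : K[X]) :
    f + C (1 / 4) * f₂ ^ 2 = C (1 / 4) * (4 * f + f₂ ^ 2) := by
  have h4 : (4 : K[X]) = C 4 := (map_ofNat (C : K →+* K[X]) 4).symm
  have : (C (1 / 4) * 4 : K[X]) = 1 := by
    rw [h4, ← C_mul, one_div, inv_mul_cancel₀ (by norm_num), C_1]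
  rw [mul_add, ← mul_assoc, this, one_mul]

theorem local_minExp {L : Type} [Field L] [NumberField L] [Algebra K L] {g : ℕ} (hg : 2 ≤ g)
    {F : K[X]} (hF : IsHyp g F) (v : HeightOneSpectrum (𝓞 K)) (w : HeightOneSpectrum (𝓞 L))
    [hvw : w.asIdeal.LiesOver v.asIdeal] {t : ℕ}
    (ht : v.valuation K (2 : K) = exp (-(t : ℤ))) :
    (∀ μ : ℕ, (∀ m : ℕ, 1 ≤ m → m ≤ 2 * g + 2 → exp (-(μ : ℤ)) ≤ v.valuation K (m : K)) →
      v.asIdeal.ramificationIdx' w.asIdeal * minExp g F v ≤
        minExp g (F.map (algebraMap K L)) w + v.asIdeal.ramificationIdx' w.asIdeal *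
          (2 * (2 * g + 1) * (1 + (2 + μ) * (g + 1)) + (8 * g + 4) * t)) ∧
    ((∀ m : ℕ, 1 ≤ m → m ≤ 2 * g + 2 → v.valuation K (m : K) = 1) →
      v.asIdeal.ramificationIdx' w.asIdeal * minExp g F v ≤
        minExp g (F.map (algebraMap K L)) w + v.asIdeal.ramificationIdx' w.asIdeal * kap g) := by
  have hFL : IsHyp g (F.map (algebraMap K L)) := by
    have := hF.good.map (algebraMap K L)
    refine ⟨this.1, by have := this.2; omega⟩
  obtain ⟨F₁, he, hmin⟩ := exists_minForm (by omega : 1 ≤ g + 1) v hF.good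
  obtain ⟨k, hk, _, hle⟩ := minExp_le hF v he hmin.int ht
  obtain ⟨f, f₂, hM, hn⟩ := exists_min_model hFL w
  obtain ⟨φ⟩ := hM.iso
  have hbr := bridge hg hFL.1 hFL.2 hM.upper φ
  set F' := 4 * f + f₂ ^ 2 with hF'
  have hdL : (F.map (algebraMap K L)).natDegree ≤ g + 1 + (g + 1) := by
    have := hFL.2; omega
  have hE : Eqv (g + 1) (F₁.map (algebraMap K L)) F' := by
    have h1 := (he.map (algebraMap K L)).symm hdL
    exact h1.trans (he.map (algebraMap K L)).natDegree_le hbr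
  have hgood' : GoodForm (g + 1) F' := hbr.good (by omega) hFL.good
  have hint := int_comb w hM.int hM.int₂
  obtain ⟨j, hj⟩ := exists_exp w (discN_ne_zero (by omega) hgood')
  have hj' : w.valuation L (discN (g + 1 + (g + 1)) F') = exp (-(-j)) := by rw [hj, neg_neg]
  have ht' : w.valuation L (2 : L) =
      exp ((v.asIdeal.ramificationIdx' w.asIdeal : ℤ) * (-(t : ℤ))) := by
    have := absW_liesOver v w ht
    rwa [map_ofNat] at this
  set e := v.asIdeal.ramificationIdx' w.asIdeal with he'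
  have hjn : (-j : ℤ) = minExp g (F.map (algebraMap K L)) w + (4 * g + 4) * (e * t) := by
    have h4 : (1 / 4 : L) ≠ 0 := by norm_num
    rw [modelDisc_eq, four_mul_form, discN_C_mul (by omega) h4 hgood'.2, map_mul, map_mul,
      map_pow, map_pow, ht', hj] at hn
    have h5 : w.valuation L (1 / 4 : L) = exp (2 * (e * t : ℤ)) := by
      have : (1 / 4 : L) = (2 * 2)⁻¹ := by norm_num
      rw [this, map_inv₀, map_mul, ht', ← exp_add, ← exp_neg]
      congr 1
      ring
    rw [h5, ← exp_nsmul, ← exp_nsmul, ← exp_add, ← exp_add, exp_inj] at hn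
    simp only [nsmul_eq_mul] at hn
    have h6 : ((2 * (g + 1 + (g + 1) - 1) : ℕ) : ℤ) = 4 * g + 2 := by
      have : 2 * (g + 1 + (g + 1) - 1) = 4 * g + 2 := by omega
      rw [this]; push_cast; ring
    rw [h6] at hn
    push_cast at hn
    linarith
  obtain ⟨hgen, htame⟩ := local_ineq v w (by omega : 2 ≤ g + 1) hmin hE hint hk hj'
  rw [← he'] at hgen htame
  rw [hjn] at hgen htame
  have h7 : g + 1 + (g + 1) - 1 = 2 * g + 1 := by omega
  rw [h7] at hgen htame
  have hle' : (minExp g F v : ℤ) ≤ 4 * g * t + k := by exact_mod_cast hle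
  have he0 : (0 : ℤ) ≤ e := by positivity
  have hmul := mul_le_mul_of_nonneg_left hle' he0
  constructor
  · intro μ hμ
    have h8 := hgen μ (fun m h1 h2 => hμ m h1 (by omega))
    have h9 : ((e * minExp g F v : ℕ) : ℤ) ≤ ((minExp g (F.map (algebraMap K L)) w + e *
          (2 * (2 * g + 1) * (1 + (2 + μ) * (g + 1)) + (8 * g + 4) * t) : ℕ) : ℤ) := by
      push_cast at h8 ⊢
      linarith
    exact_mod_cast h9
  · intro hm
    have ht0 : t = 0 := by
      have h1 := hm 2 (by omega) (by omega)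
      rw [Nat.cast_ofNat, ht, ← exp_zero, exp_inj] at h1
      omega
    have h8 := htame (fun m h1 h2 => hm m h1 (by omega))
    have h9 : ((e * minExp g F v : ℕ) : ℤ) ≤ ((minExp g (F.map (algebraMap K L)) w +
        e * kap g : ℕ) : ℤ) := by
      unfold kap
      rw [ht0] at h8 hmul
      generalize (g + 1) / 2 = G at h8 ⊢
      push_cast at h8 hmul ⊢
      linarith
    exact_mod_cast h9

end

end Pool.Agent.W318
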