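import Pool.Agent.W886.MZ.Stm0

set_option autoImplicit false

namespace Pool.Agent.W318.MZCNT

open Pool.Agent.W886.MZ

theorem rk_mono (h : ℕ → Bool) {m n : ℕ} (hmn : m ≤ n) : rk h m ≤ rk h n := by
  unfold rk
  exact ((List.range_sublist.2 hmn).filter h).length_le

theorem task : Pool.Agent.W886.MZ.S_CNT := by
  classical
  intro h n
  let A : Finset ℕ := ((List.range n).filter h).toFinset
  let B : Finset (List Bool) := (A ×ˢ Finset.range (rk h n)).image fun p => cs p.2 p.1
  have hsub : {y : List Bool | y.length ≤ n ∧ ∃ e m, h m = true ∧ e < rk h m ∧ y = cs e m} ⊆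
      (B : Set (List Bool)) := by
    rintro y ⟨hy, e, m, hm, he, rfl⟩
    have h1 : (cs e m).length = e + (1 + 2 ^ m) := by
      simp [cs]
      omega
    have h2 : m < 2 ^ m := Nat.lt_two_pow_self
    have h3 : m < n := by omega
    have h4 : e < rk h n := lt_of_lt_of_le he (rk_mono h h3.le)
    simp only [B, Finset.coe_image, Set.mem_image, Finset.mem_coe, Finset.mem_product,
      Finset.mem_range]
    refine ⟨(m, e), ⟨?_, h4⟩, rfl⟩
    simp only [A, List.mem_toFinset, List.mem_filter, List.mem_range]
    exact ⟨h3, hm⟩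
  calc Set.ncard {y : List Bool | y.length ≤ n ∧ ∃ e m, h m = true ∧ e < rk h m ∧ y = cs e m}
      ≤ (B : Set (List Bool)).ncard := Set.ncard_le_ncard hsub B.finite_toSet
    _ = B.card := Set.ncard_coe_finset B
    _ ≤ (A ×ˢ Finset.range (rk h n)).card := Finset.card_image_le
    _ = A.card * rk h n := by rw [Finset.card_product, Finset.card_range]
    _ ≤ rk h n * rk h n := Nat.mul_le_mul_right _ (List.toFinset_card_le _)
    _ = rk h n ^ 2 := (sq _).symm

end Pool.Agent.W318.MZCNT
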