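import Mathlib

namespace Pool.Agent.W318

open Finset

/-- If all classes of `c` have at most `h` elements, then `2 h` objects can be paired off
such that the two members of each pair lie in different classes. -/
theorem exists_matching (h : ℕ) (c : Fin (h + h) → ℕ)
    (hc : ∀ x, (univ.filter (fun j => c j = x)).card ≤ h) :
    ∃ e : Fin h ⊕ Fin h ≃ Fin (h + h), ∀ i, c (e (Sum.inl i)) ≠ c (e (Sum.inr i)) := by
  classical
  refine ⟨finSumFinEquiv.trans (Tuple.sort c), fun i hi => ?_⟩
  have hmono := Tuple.monotone_sort c
  simp only [Equiv.trans_apply, finSumFinEquiv_apply_left, finSumFinEquiv_apply_right] at hi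
  set x := c (Tuple.sort c (Fin.castAdd h i)) with hx
  have hsub : (Finset.Icc (Fin.castAdd h i) (Fin.natAdd h i)).image (Tuple.sort c) ⊆
      univ.filter (fun j => c j = x) := by
    intro j hj
    rw [Finset.mem_image] at hj
    obtain ⟨k, hk, rfl⟩ := hj
    rw [Finset.mem_Icc] at hk
    have h1 := hmono hk.1
    have h2 := hmono hk.2
    simp only [Function.comp_apply] at h1 h2
    simp only [Finset.mem_filter, Finset.mem_univ, true_and]
    omega
  have hcard := Finset.card_le_card hsub
  rw [Finset.card_image_of_injective _ (Tuple.sort c).injective, Fin.card_Icc] at hcard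
  have := hc x
  simp only [Fin.val_natAdd, Fin.val_castAdd] at hcard
  omega

end Pool.Agent.W318
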