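import Pool.Agent.W318.FormProps
import Pool.Agent.W318.Apply

namespace Pool.Agent.W318

open Polynomial Finset NumberField IsDedekindDomain WithZero

theorem discr_map_of_injective {R S : Type*} [CommRing R] [CommRing S] [IsDomain S] (f : R →+* S)
    (hf : Function.Injective f) (F : R[X]) : (F.map f).discr = f F.discr := by
  by_cases h0 : F.natDegree = 0
  · rw [eq_C_of_natDegree_eq_zero h0, Polynomial.map_C, discr_C, discr_C, map_one]
  · have hpos : 0 < F.natDegree := Nat.pos_of_ne_zero h0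
    have h1 := resultant_deriv (natDegree_pos_iff_degree_pos.mp hpos)
    have hd : (F.map f).natDegree = F.natDegree := natDegree_map_eq_of_injective hf F
    have h2 := resultant_deriv (f := F.map f)
      (natDegree_pos_iff_degree_pos.mp (by rw [hd]; exact hpos))
    rw [derivative_map, hd, resultant_map_map, h1, leadingCoeff_map_of_injective hf] at h2
    simp only [map_mul, map_pow, map_neg, map_one] at h2
    have hF0 : F ≠ 0 := by
      rintro rfl
      simp at h0
    have hlc : f F.leadingCoeff ≠ 0 := by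
      intro h3
      rw [← map_zero f] at h3
      exact leadingCoeff_ne_zero.mpr hF0 (hf h3)
    have hs : (-1 : S) ^ (F.natDegree * (F.natDegree - 1) / 2) * f F.leadingCoeff ≠ 0 :=
      mul_ne_zero (pow_ne_zero _ (by simp)) hlc
    exact (mul_left_cancel₀ hs h2).symm

section

variable {K : Type*} [Field K] [NumberField K] (v : HeightOneSpectrum (𝓞 K))

theorem val_discr_le_one {F : K[X]} (hF : ∀ i, v.valuation K (F.coeff i) ≤ 1) :
    v.valuation K F.discr ≤ 1 := by
  have hsub : (↑F.coeffs : Set K) ⊆ ((v.valuation K).integer : Subring K) := by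
    intro x hx
    rw [Finset.mem_coe, mem_coeffs_iff] at hx
    obtain ⟨i, _, rfl⟩ := hx
    exact hF i
  have h1 := discr_map_of_injective (Subring.subtype (v.valuation K).integer)
    (Subring.subtype_injective _) (F.toSubring _ hsub)
  rw [map_toSubring] at h1
  rw [h1]
  exact (F.toSubring _ hsub).discr.2

theorem val_discN_le_one {F : K[X]} (n : ℕ) (hF : ∀ i, v.valuation K (F.coeff i) ≤ 1) :
    v.valuation K (discN n F) ≤ 1 := by
  unfold discN
  split_ifs
  · exact val_discr_le_one v hF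
  · rw [map_mul, map_pow]
    exact mul_le_one' (pow_le_one' (hF _) 2) (val_discr_le_one v hF)

variable {v}

theorem Eqv.good {h : ℕ} (hh : 1 ≤ h) {F F' : K[X]} (hF : GoodForm h F) (he : Eqv h F F') :
    GoodForm h F' := by
  classical
  obtain ⟨u, α, β, hu, _, hne, hfac⟩ := exists_factor_form (M := AlgebraicClosure K)
    AbsoluteValue.trivial hh hF.2 hF.1 (IsAlgClosed.splits _)
  obtain ⟨a, b, c, d, l, hdet, hl, rfl⟩ := he
  set φ := algebraMap K (AlgebraicClosure K) with hφ
  have hdet' : φ a * φ d - φ b * φ c ≠ 0 := by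
    rw [← map_mul, ← map_mul, ← map_sub, Ne, map_eq_zero]
    exact hdet
  have hl' : φ l ≠ 0 := by rwa [Ne, map_eq_zero]
  apply GoodForm.of_map φ
  rw [Polynomial.map_mul, Polynomial.map_C, map_pow, act_map, hfac, sq_act_prod hdet']
  apply goodForm_prod hh (mul_ne_zero (pow_ne_zero 2 hl') hu)
  intro i j hij
  have : (α i * φ a + β i * φ c) * (α j * φ b + β j * φ d) -
      (α j * φ a + β j * φ c) * (α i * φ b + β i * φ d) =
      (φ a * φ d - φ b * φ c) * (α i * β j - α j * β i) := by ring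
  rw [this]
  exact mul_ne_zero hdet' (hne i j hij)

theorem exists_integral_mul (v : HeightOneSpectrum (𝓞 K)) (F : K[X]) :
    ∃ l : K, l ≠ 0 ∧ ∀ i, v.valuation K ((C (l ^ 2) * F).coeff i) ≤ 1 := by
  classical
  obtain ⟨ϖ, hϖ⟩ := v.valuation_exists_uniformizer K
  have hϖ0 : ϖ ≠ 0 := by
    rintro rfl
    rw [map_zero] at hϖ
    exact exp_ne_zero hϖ.symm
  -- a bound for the coefficients
  have hb : ∀ i, ∃ N : ℕ, v.valuation K (F.coeff i) ≤ exp (N : ℤ) := by
    intro i
    rcases eq_or_ne (F.coeff i) 0 with h0 | h0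
    · exact ⟨0, by rw [h0, map_zero]; exact zero_le⟩
    · obtain ⟨k, hk⟩ := exists_exp v h0
      exact ⟨k.toNat, by rw [hk, exp_le_exp]; exact Int.self_le_toNat k⟩
  choose N hN using hb
  set B := ∑ i ∈ F.support, N i with hB
  have hle : ∀ i, v.valuation K (F.coeff i) ≤ exp (B : ℤ) := by
    intro i
    by_cases hi : i ∈ F.support
    · refine (hN i).trans ?_
      rw [exp_le_exp]
      exact_mod_cast Finset.single_le_sum (fun _ _ => Nat.zero_le _) hi
    · rw [notMem_support_iff.mp hi, map_zero]; exact zero_le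
  refine ⟨ϖ ^ B, pow_ne_zero _ hϖ0, fun i => ?_⟩
  rw [coeff_C_mul, map_mul, map_pow, map_pow, hϖ]
  calc _ ≤ (exp (-1 : ℤ) ^ B) ^ 2 * exp (B : ℤ) := by gcongr; exact hle i
    _ ≤ 1 := by
      rw [← exp_nsmul, ← exp_nsmul, ← exp_add, ← exp_zero, exp_le_exp]
      simp only [nsmul_eq_mul]
      push_cast
      nlinarith [Int.natCast_nonneg B]

theorem exists_minForm {h : ℕ} (hh : 1 ≤ h) (v : HeightOneSpectrum (𝓞 K)) {F : K[X]}
    (hF : GoodForm h F) : ∃ F' : K[X], Eqv h F F' ∧ MinForm v h F' := by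
  classical
  have hd : F.natDegree ≤ h + h := by have := hF.2; omega
  set P : ℕ → Prop := fun m => ∃ F' : K[X], Eqv h F F' ∧ (∀ i, v.valuation K (F'.coeff i) ≤ 1) ∧
    v.valuation K (discN (h + h) F') = exp (-(m : ℤ)) with hP
  have hval : ∀ F' : K[X], Eqv h F F' → (∀ i, v.valuation K (F'.coeff i) ≤ 1) →
      ∃ m : ℕ, v.valuation K (discN (h + h) F') = exp (-(m : ℤ)) := by
    intro F' he hi
    have h1 := discN_ne_zero hh (he.good hh hF)
    obtain ⟨k, hk⟩ := exists_exp v h1
    have h2 := val_discN_le_one v (h + h) hi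
    rw [hk, ← exp_zero, exp_le_exp] at h2
    refine ⟨(-k).toNat, ?_⟩
    rw [hk]
    congr 1
    rw [Int.toNat_of_nonneg (by omega)]
    ring
  have hex : ∃ m, P m := by
    obtain ⟨l, hl, hint⟩ := exists_integral_mul v F
    have he : Eqv h F (C (l ^ 2) * F) :=
      ⟨1, 0, 0, 1, l, by simp, hl, by rw [act_one _ _ hd]⟩
    obtain ⟨m, hm⟩ := hval _ he hint
    exact ⟨m, _, he, hint, hm⟩
  obtain ⟨F', he, hint, hm⟩ := Nat.find_spec hex
  refine ⟨F', he, ?_⟩
  have hg := he.good hh hF
  refine ⟨hg.2, hg.1, hint, ?_⟩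
  intro a b c d l hdet hl hi
  have he' : Eqv h F (C (l ^ 2) * act (h + h) a b c d F') :=
    he.trans hd ⟨a, b, c, d, l, hdet, hl, rfl⟩
  obtain ⟨m', hm'⟩ := hval _ he' hi
  have := Nat.find_min' hex ⟨_, he', hi, hm'⟩
  rw [hm, hm', exp_le_exp, neg_le_neg_iff]
  exact_mod_cast this

end

end Pool.Agent.W318
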