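import Pool.Agent.W318.GlobalSzp

namespace Pool.Agent.W318

open Polynomial NumberField IsDedekindDomain WithZero

section

variable {K : Type} [Field K] [NumberField K]

/-- The residue characteristic of `v` exceeds `2 g + 2`: the integers `1, …, 2 g + 2` are
`v`-units. -/
def BigChar (g : ℕ) (v : HeightOneSpectrum (𝓞 K)) : Prop :=
  ∀ m : ℕ, 1 ≤ m → m ≤ 2 * g + 2 → v.valuation K (m : K) = 1

/-- `e (w / v) * n_v (C) ≤ n_w (C_L) + e (w / v) * B` for all places `w` of `L` above `v`, where
`C : y² = F` is a curve over `K`. -/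
def LocalBaseChange (g : ℕ) (F : K[X]) (L : Type) [Field L] [NumberField L] [Algebra K L]
    (v : HeightOneSpectrum (𝓞 K)) (B : ℕ) : Prop :=
  ∀ w : HeightOneSpectrum (𝓞 L), w.asIdeal.LiesOver v.asIdeal →
    v.asIdeal.ramificationIdx' w.asIdeal * minExp g F v ≤
      minExp g (F.map (algebraMap K L)) w + v.asIdeal.ramificationIdx' w.asIdeal * B

/-- `Δ_C ^ [L : K] ≤ (c * M_C ^ κ) ^ [L : K] * Δ_{C_L}`, where `C : y² = F` is a curve over
`K`. -/
def GlobalBaseChange (g : ℕ) (F : K[X]) (L : Type) [Field L] [NumberField L] [Algebra K L]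
    (c κ : ℕ) : Prop :=
  discNorm g F ^ Module.finrank K L ≤ (c * badNorm g F ^ κ) ^ Module.finrank K L *
    discNorm g (F.map (algebraMap K L))

/-- `n_v (C) = 0` at all places `v`: the curve `C : y² = F` has good reduction everywhere. -/
def GoodEverywhere (g : ℕ) (F : K[X]) : Prop :=
  ∀ v : HeightOneSpectrum (𝓞 K), minExp g F v = 0

end

end Pool.Agent.W318
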